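import Mathlib

/-! Row cga-NS: descent of common zeros to an algebraically closed field. -/

namespace Pool.Agent.MP_cfacaa_ag.G

open MvPolynomial

/-- Polynomials (any set of them) over the algebraically closed field `K` with a common zero over an extension field `F` have a
common zero over `K`. (The ideal they generate is in the kernel of the evaluation at the zero, so it is proper, so it is in a
maximal ideal, which is the ideal of a point: see the proof of `exists_zero_of_extension` in
`Pool/Agent/Lib/MP_cfacaa_ag/ExA.lean`.) -/
theorem exists_zero_of_extension {σ K F : Type} [Finite σ] [Field K] [IsAlgClosed K] [Field F] [Algebra K F]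
    (A : Set (MvPolynomial σ K)) (x : σ → F) (h : ∀ p ∈ A, aeval x p = 0) :
    ∃ y : σ → K, ∀ p ∈ A, aeval y p = 0 := by
  have hne : Ideal.span A ≠ ⊤ := by
    intro htop
    have hle : Ideal.span A ≤ RingHom.ker (aeval x : MvPolynomial σ K →ₐ[K] F) := by
      rw [Ideal.span_le]
      intro p hp
      exact h p hp
    rw [htop, top_le_iff] at hle
    exact (RingHom.ker_ne_top _) hle
  obtain ⟨M, hM, hAM⟩ := Ideal.exists_le_maximal _ hne
  obtain ⟨y, rfl⟩ := MvPolynomial.isMaximal_iff_eq_vanishingIdeal_singleton.1 hM
  refine ⟨y, fun q hq => ?_⟩
  have := hAM (Ideal.subset_span hq)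
  simpa using this

end Pool.Agent.MP_cfacaa_ag.G
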