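import Pool.Agent.Lib.MP_cfacaa_ag.G.Defs

/-! Row cga-Hom: multihomogeneous polynomials, closure properties. (Adapt `Pool/Agent/Lib/MP_cfacaa_ag/Hom.lean`.) -/

namespace Pool.Agent.MP_cfacaa_ag.G

open MvPolynomial

section

variable {I E K : Type} [Fintype I] [CommRing K]

theorem mem_coords {fac : I → E} {i : E} {k : I} : k ∈ coords fac i ↔ fac k = i := by
  simp [coords]

theorem isMH_zero (fac : I → E) (e : E → ℕ) : IsMH fac e (0 : MvPolynomial I K) := by
  intro m hm
  simp at hm

theorem isMH_C (fac : I → E) (k : K) : IsMH fac (fun _ : E => 0) (C k : MvPolynomial I K) := by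
  classical
  intro m hm i
  rw [mem_support_iff, coeff_C] at hm
  by_cases h : 0 = m
  · rw [← h]
    simp
  · rw [if_neg h] at hm
    exact absurd rfl hm

theorem isMH_X [DecidableEq E] (fac : I → E) (k : I) : IsMH fac (Pi.single (fac k) 1) (X k : MvPolynomial I K) := by
  classical
  intro m hm j
  rw [mem_support_iff, coeff_X] at hm
  by_cases h : Finsupp.single k 1 = m
  · rw [← h]
    by_cases hj : j = fac k
    · subst hj
      rw [Pi.single_eq_same, Finset.sum_eq_single k]
      · simp
      · intro b _ hb
        rw [Finsupp.single_apply, if_neg (Ne.symm hb)]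
      · intro hk
        exact absurd (mem_coords.2 rfl) hk
    · rw [Pi.single_eq_of_ne hj]
      apply Finset.sum_eq_zero
      intro b hb
      rw [Finsupp.single_apply, if_neg]
      intro hkb
      rw [mem_coords, ← hkb] at hb
      exact hj hb.symm
  · rw [if_neg h] at hm
    exact absurd rfl hm

theorem IsMH.add {fac : I → E} {e : E → ℕ} {P Q : MvPolynomial I K} (hP : IsMH fac e P) (hQ : IsMH fac e Q) :
    IsMH fac e (P + Q) := by
  classical
  intro m hm
  rcases Finset.mem_union.1 (support_add hm) with h | h
  · exact hP m h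
  · exact hQ m h

theorem IsMH.neg {fac : I → E} {e : E → ℕ} {P : MvPolynomial I K} (hP : IsMH fac e P) : IsMH fac e (-P) := by
  intro m hm
  rw [support_neg] at hm
  exact hP m hm

theorem IsMH.sub {fac : I → E} {e : E → ℕ} {P Q : MvPolynomial I K} (hP : IsMH fac e P) (hQ : IsMH fac e Q) :
    IsMH fac e (P - Q) := by
  rw [sub_eq_add_neg]
  exact hP.add hQ.neg

theorem IsMH.sum {fac : I → E} {ι : Type} (s : Finset ι) {e : E → ℕ} {P : ι → MvPolynomial I K}
    (h : ∀ k ∈ s, IsMH fac e (P k)) : IsMH fac e (∑ k ∈ s, P k) := by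
  classical
  induction s using Finset.induction_on with
  | empty =>
    rw [Finset.sum_empty]
    exact isMH_zero fac e
  | insert a s ha ih =>
    rw [Finset.sum_insert ha]
    exact (h a (Finset.mem_insert_self a s)).add (ih fun k hk => h k (Finset.mem_insert_of_mem hk))

theorem IsMH.mul {fac : I → E} {e f : E → ℕ} {P Q : MvPolynomial I K} (hP : IsMH fac e P) (hQ : IsMH fac f Q) :
    IsMH fac (fun i => e i + f i) (P * Q) := by
  classical
  intro m hm i
  obtain ⟨a, ha, b, hb, rfl⟩ := Finset.mem_add.1 (support_mul P Q hm)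
  have h1 := hP a ha i
  have h2 := hQ b hb i
  simp only [Finsupp.add_apply, Finset.sum_add_distrib]
  rw [h1, h2]

theorem IsMH.pow {fac : I → E} {e : E → ℕ} {P : MvPolynomial I K} (hP : IsMH fac e P) (n : ℕ) :
    IsMH fac (fun i => n * e i) (P ^ n) := by
  induction n with
  | zero =>
    have h := isMH_C fac (1 : K)
    rw [map_one] at h
    simpa using h
  | succ n ih =>
    rw [pow_succ]
    have h := ih.mul hP
    have h2 : (fun i => n * e i + e i) = fun i => (n + 1) * e i := by
      funext i
      ring
    rwa [h2] at h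

theorem IsMH.prod {fac : I → E} {ι : Type} (s : Finset ι) {e : ι → E → ℕ} {P : ι → MvPolynomial I K}
    (h : ∀ k ∈ s, IsMH fac (e k) (P k)) : IsMH fac (fun i => ∑ k ∈ s, e k i) (∏ k ∈ s, P k) := by
  classical
  induction s using Finset.induction_on with
  | empty =>
    have h := isMH_C fac (1 : K)
    rw [map_one] at h
    simpa using h
  | insert a s ha ih =>
    rw [Finset.prod_insert ha]
    have h1 := (h a (Finset.mem_insert_self a s)).mul
      (ih fun k hk => h k (Finset.mem_insert_of_mem hk))
    have h2 : (fun i => e a i + ∑ k ∈ s, e k i) = fun i => ∑ k ∈ insert a s, e k i := by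
      funext i
      rw [Finset.sum_insert ha]
    rwa [h2] at h1

end

end Pool.Agent.MP_cfacaa_ag.G
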