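import Pool.Agent.Lib.MP_cfacaa_ag.G.Chart
import Pool.Agent.Lib.MP_cfacaa_ag.G.Hom

/-! Row cga-BaseA: the monomials of the base system. -/

namespace Pool.Agent.MP_cfacaa_ag.G

open MvPolynomial

section

variable {V I E : Type} [Fintype I] [Fintype E]

private theorem BaseA_ln_b0 (fac : I → E) (i₀ : E) (b : E → I) (b' : I) (hb : ∀ j, fac (b j) = j) (L : Type) [Field L]
    (z : I ⊕ I → L) (s t : L) : ln fac i₀ (chP fac b b' z) (chQ fac b b' z) s t (b i₀) = s := by
  have h1 : b i₀ = b (fac (b i₀)) := by rw [hb]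
  unfold ln chP chQ
  rw [if_pos (hb i₀), if_pos h1, if_pos h1]
  ring

private theorem BaseA_ln_b' (fac : I → E) (i₀ : E) (b : E → I) (b' : I) (hb' : fac b' = i₀)
    (hbb : b' ≠ b i₀) (L : Type) [Field L]
    (z : I ⊕ I → L) (s t : L) : ln fac i₀ (chP fac b b' z) (chQ fac b b' z) s t b' = t := by
  have h1 : ¬ b' = b (fac b') := by rw [hb']; exact hbb
  unfold ln chP chQ
  rw [if_pos hb', if_neg h1, if_pos rfl, if_neg h1, if_pos rfl]
  ring

private theorem BaseA_ln_bj (fac : I → E) (i₀ : E) (b : E → I) (b' : I) (hb : ∀ j, fac (b j) = j) (L : Type) [Field L]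
    (z : I ⊕ I → L) (s t : L) {j : E} (hj : j ≠ i₀) :
    ln fac i₀ (chP fac b b' z) (chQ fac b b' z) s t (b j) = 1 := by
  have h1 : b j = b (fac (b j)) := by rw [hb]
  have h2 : ¬ fac (b j) = i₀ := by rw [hb]; exact hj
  unfold ln chP chQ
  rw [if_neg h2, if_pos h1]

open Classical in
private theorem BaseA_deg_prod (fac : I → E) (i₀ : E) (b : E → I) (hb : ∀ j, fac (b j) = j) (g : E → ℕ) :
    IsMH fac (fun i => if i = i₀ then 0 else g i)
      (∏ j ∈ Finset.univ.erase i₀, (X (b j) : MvPolynomial I ℂ) ^ g j) := by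
  have h := IsMH.prod (fac := fac) (Finset.univ.erase i₀) (e := fun j => fun i => g j * (Pi.single (fac (b j)) 1 : E → ℕ) i)
    (P := fun j => (X (b j) : MvPolynomial I ℂ) ^ g j) (fun j _ => IsMH.pow (isMH_X fac (b j)) (g j))
  have e : (fun i => ∑ k ∈ Finset.univ.erase i₀, g k * (Pi.single (fac (b k)) 1 : E → ℕ) i) =
      fun i => if i = i₀ then 0 else g i := by
    funext i
    by_cases hi : i = i₀
    · rw [if_pos hi]
      refine Finset.sum_eq_zero fun j hj => ?_
      rw [hb, Pi.single_apply, if_neg, mul_zero]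
      rintro rfl
      exact (Finset.mem_erase.mp hj).1 hi
    · rw [if_neg hi, Finset.sum_eq_single i]
      · rw [hb, Pi.single_eq_same, mul_one]
      · intro j _ hj
        rw [hb, Pi.single_apply, if_neg (Ne.symm hj), mul_zero]
      · intro h
        exact absurd (Finset.mem_erase.mpr ⟨hi, Finset.mem_univ i⟩) h
  rw [e] at h
  exact h

open Classical in
private theorem BaseA_val_prod (fac : I → E) (i₀ : E) (b : E → I) (b' : I) (hb : ∀ j, fac (b j) = j) (g : E → ℕ)
    (L : Type) [Field L] [Algebra ℂ L] (z : I ⊕ I → L) (s t : L) :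
    aeval (ln fac i₀ (chP fac b b' z) (chQ fac b b' z) s t)
      (∏ j ∈ Finset.univ.erase i₀, (X (b j) : MvPolynomial I ℂ) ^ g j) = 1 := by
  rw [map_prod]
  refine Finset.prod_eq_one fun j hj => ?_
  rw [map_pow, aeval_X, BaseA_ln_bj fac i₀ b b' hb L z s t (Finset.mem_erase.mp hj).1, one_pow]

/-- First type of monomials: `X (b i₀) ^ (n - r) * X b' ^ r * X k * ∏ j ≠ i₀, X (b j) ^ (e j - [j = fac k])`. -/
theorem exists_mon1 (fac : I → E) (i₀ : E) (b : E → I) (b' : I) (hb : ∀ j, fac (b j) = j) (hb' : fac b' = i₀)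
    (hbb : b' ≠ b i₀) (e : E → ℕ) (k : I) (hk : fac k ≠ i₀) (hkb : k ≠ b (fac k)) (he : e (fac k) ≠ 0) (r : ℕ) (hr : r ≤ e i₀) :
    ∃ F : MvPolynomial I ℂ, IsMH fac e F ∧ ∀ (L : Type) [Field L] [Algebra ℂ L] (z : I ⊕ I → L) (s t : L),
      aeval (ln fac i₀ (chP fac b b' z) (chQ fac b b' z) s t) F = s ^ (e i₀ - r) * t ^ r * z (Sum.inl k) := by
  classical
  refine ⟨X (b i₀) ^ (e i₀ - r) * X b' ^ r * X k *
    ∏ j ∈ Finset.univ.erase i₀, (X (b j) : MvPolynomial I ℂ) ^ (e j - if j = fac k then 1 else 0), ?_, ?_⟩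
  · have h := (((isMH_X (K := ℂ) fac (b i₀)).pow (e i₀ - r)).mul ((isMH_X (K := ℂ) fac b').pow r)).mul (isMH_X (K := ℂ) fac k)
    have h2 := h.mul (BaseA_deg_prod fac i₀ b hb fun j => e j - if j = fac k then 1 else 0)
    have e1 : (fun i => (e i₀ - r) * (Pi.single (fac (b i₀)) 1 : E → ℕ) i + r * (Pi.single (fac b') 1 : E → ℕ) i +
        (Pi.single (fac k) 1 : E → ℕ) i + if i = i₀ then 0 else e i - if i = fac k then 1 else 0) = e := by
      funext i
      rw [hb, hb', Pi.single_apply, Pi.single_apply]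
      by_cases hi : i = i₀
      · subst hi
        simp only [if_true, if_neg (Ne.symm hk), mul_one, add_zero]
        omega
      · simp only [if_neg hi, mul_zero, zero_add]
        by_cases hik : i = fac k
        · subst hik
          simp only [if_true]
          omega
        · simp only [if_neg hik]
          omega
    rw [e1] at h2
    exact h2
  · intro L _ _ z s t
    rw [map_mul, BaseA_val_prod fac i₀ b b' hb, mul_one, map_mul, map_mul, map_pow, map_pow, aeval_X, aeval_X, aeval_X,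
      BaseA_ln_b0 fac i₀ b b' hb, BaseA_ln_b' fac i₀ b b' hb' hbb]
    have : ln fac i₀ (chP fac b b' z) (chQ fac b b' z) s t k = z (Sum.inl k) := by
      unfold ln chP chQ
      rw [if_neg hk, if_neg hkb, if_neg]
      rintro rfl
      exact hk hb'
    rw [this]

/-- Second type of monomials: `X (b i₀) ^ (e i₀ - 1 - r) * X b' ^ r * X k * ∏ j ≠ i₀, X (b j) ^ e j` with `k` in the factor `i₀`. -/
theorem exists_mon2 (fac : I → E) (i₀ : E) (b : E → I) (b' : I) (hb : ∀ j, fac (b j) = j) (hb' : fac b' = i₀)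
    (hbb : b' ≠ b i₀) (e : E → ℕ) (k : I) (hk : fac k = i₀) (hkb : k ≠ b i₀) (hkb' : k ≠ b') (r : ℕ) (hr : r < e i₀) :
    ∃ F : MvPolynomial I ℂ, IsMH fac e F ∧ ∀ (L : Type) [Field L] [Algebra ℂ L] (z : I ⊕ I → L) (s t : L),
      aeval (ln fac i₀ (chP fac b b' z) (chQ fac b b' z) s t) F =
        s ^ (e i₀ - 1 - r) * t ^ r * (s * z (Sum.inl k) + t * z (Sum.inr k)) := by
  classical
  refine ⟨X (b i₀) ^ (e i₀ - 1 - r) * X b' ^ r * X k *
    ∏ j ∈ Finset.univ.erase i₀, (X (b j) : MvPolynomial I ℂ) ^ (e j), ?_, ?_⟩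
  · have h := (((isMH_X (K := ℂ) fac (b i₀)).pow (e i₀ - 1 - r)).mul ((isMH_X (K := ℂ) fac b').pow r)).mul (isMH_X (K := ℂ) fac k)
    have h2 := h.mul (BaseA_deg_prod fac i₀ b hb fun j => e j)
    have e1 : (fun i => (e i₀ - 1 - r) * (Pi.single (fac (b i₀)) 1 : E → ℕ) i + r * (Pi.single (fac b') 1 : E → ℕ) i +
        (Pi.single (fac k) 1 : E → ℕ) i + if i = i₀ then 0 else e i) = e := by
      funext i
      rw [hb, hb', hk, Pi.single_apply]
      by_cases hi : i = i₀
      · subst hi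
        simp only [if_true, mul_one, add_zero]
        omega
      · simp only [if_neg hi, mul_zero, zero_add]
    rw [e1] at h2
    exact h2
  · intro L _ _ z s t
    rw [map_mul, BaseA_val_prod fac i₀ b b' hb, mul_one, map_mul, map_mul, map_pow, map_pow, aeval_X, aeval_X, aeval_X,
      BaseA_ln_b0 fac i₀ b b' hb, BaseA_ln_b' fac i₀ b b' hb' hbb]
    have : ln fac i₀ (chP fac b b' z) (chQ fac b b' z) s t k = s * z (Sum.inl k) + t * z (Sum.inr k) := by
      have h1 : ¬ k = b (fac k) := by rw [hk]; exact hkb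
      unfold ln chP chQ
      rw [if_pos hk, if_neg h1, if_neg hkb', if_neg h1, if_neg hkb']
    rw [this]

end

end Pool.Agent.MP_cfacaa_ag.G
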