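import Pool.Agent.Lib.MP_cfacaa_ag.G.BaseA

/-! Row cga-BaseB: the forms of the base system. -/

namespace Pool.Agent.MP_cfacaa_ag.G

open MvPolynomial

section

variable {V I E : Type} [Fintype I] [Fintype E]

/-- the shift in the second type of monomials -/
private theorem BaseB_shift {L : Type} [Field L] (n : ℕ) (a : ℕ → L) (s t x y : L) :
    ∑ r : Fin (n + 1), (if (r : ℕ) < n then a r * (s ^ (n - 1 - r) * t ^ (r : ℕ) * (s * x + t * y)) else 0) =
      ∑ r : Fin (n + 1), s ^ (n - r) * t ^ (r : ℕ) *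
        ((if (r : ℕ) < n then a r else 0) * x + (if 1 ≤ (r : ℕ) then a (r - 1) else 0) * y) := by
  have e1 : ∑ r : Fin (n + 1), (if (r : ℕ) < n then a r * (s ^ (n - 1 - r) * t ^ (r : ℕ) * (s * x + t * y)) else 0) =
      ∑ r : Fin n, a r * (s ^ (n - 1 - r) * t ^ (r : ℕ) * (s * x + t * y)) := by
    rw [Fin.sum_univ_castSucc]
    simp
  have e2 : ∑ r : Fin (n + 1), s ^ (n - r) * t ^ (r : ℕ) * ((if (r : ℕ) < n then a r else 0) * x) =
      ∑ r : Fin n, s ^ (n - r) * t ^ (r : ℕ) * (a r * x) := by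
    rw [Fin.sum_univ_castSucc]
    simp
  have e3 : ∑ r : Fin (n + 1), s ^ (n - r) * t ^ (r : ℕ) * ((if 1 ≤ (r : ℕ) then a (r - 1) else 0) * y) =
      ∑ r : Fin n, s ^ (n - (r + 1)) * t ^ ((r : ℕ) + 1) * (a r * y) := by
    rw [Fin.sum_univ_succ]
    simp
  have e4 : ∑ r : Fin (n + 1), s ^ (n - r) * t ^ (r : ℕ) *
        ((if (r : ℕ) < n then a r else 0) * x + (if 1 ≤ (r : ℕ) then a (r - 1) else 0) * y) =
      ∑ r : Fin (n + 1), s ^ (n - r) * t ^ (r : ℕ) * ((if (r : ℕ) < n then a r else 0) * x) +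
        ∑ r : Fin (n + 1), s ^ (n - r) * t ^ (r : ℕ) * ((if 1 ≤ (r : ℕ) then a (r - 1) else 0) * y) := by
    rw [← Finset.sum_add_distrib]
    exact Finset.sum_congr rfl fun r _ => mul_add _ _ _
  rw [e1, e4, e2, e3, ← Finset.sum_add_distrib]
  refine Finset.sum_congr rfl fun r _ => ?_
  have h1 : s ^ (n - (r : ℕ)) = s ^ (n - 1 - r) * s := by
    rw [← pow_succ]
    congr 1
    have := r.2
    omega
  have h2 : n - ((r : ℕ) + 1) = n - 1 - r := by omega
  rw [h1, h2]
  ring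

open Classical in
/-- Sum of the monomials: for every `r` with `f (q, r) = inl k`, `fac k ≠ i₀`, the first type; for all `k ∈ κ`, `r < e q i₀`, the second
type with the coefficient `ρ q r k`. -/
theorem exists_base (fac : I → E) (i₀ : E) (b : E → I) (b' : I) (hb : ∀ j, fac (b j) = j) (hb' : fac b' = i₀)
    (hbb : b' ≠ b i₀) (e : V → E → ℕ) (f : (Σ q : V, Fin (e q i₀ + 1)) → I ⊕ I) (hf : Match fac i₀ b b' e f)
    (ρ : V → ℕ → I → ℂ) (q : V) :
    ∃ F : MvPolynomial I ℂ, IsMH fac (e q) F ∧ ∀ (L : Type) [Field L] [Algebra ℂ L] (z : I ⊕ I → L) (s t : L),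
      aeval (ln fac i₀ (chP fac b b' z) (chQ fac b b' z) s t) F =
        ∑ r : Fin (e q i₀ + 1), s ^ (e q i₀ - r) * t ^ (r : ℕ) *
          ∑ σ, algebraMap ℂ L (Th fac i₀ (((coords fac i₀).erase (b i₀)).erase b') e f ρ ⟨q, r⟩ σ) * z σ := by
  -- the first type
  have h1 : ∀ (r : Fin (e q i₀ + 1)) (k : I), ∃ F : MvPolynomial I ℂ, IsMH fac (e q) F ∧
      ∀ (L : Type) [Field L] [Algebra ℂ L] (z : I ⊕ I → L) (s t : L),
        aeval (ln fac i₀ (chP fac b b' z) (chQ fac b b' z) s t) F = s ^ (e q i₀ - r) * t ^ (r : ℕ) *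
          ((if f ⟨q, r⟩ = Sum.inl k ∧ fac k ≠ i₀ then (1 : L) else 0) * z (Sum.inl k)) := by
    intro r k
    by_cases h : f ⟨q, r⟩ = Sum.inl k ∧ fac k ≠ i₀
    · obtain ⟨hk1, hk2⟩ := hf.eta ⟨q, r⟩ k h.1 h.2
      obtain ⟨F, hF, hF'⟩ := exists_mon1 fac i₀ b b' hb hb' hbb (e q) k h.2 hk1 hk2 r
        (Nat.lt_succ_iff.1 r.2)
      refine ⟨F, hF, fun L _ _ z s t => ?_⟩
      rw [hF', if_pos h, one_mul]
    · refine ⟨0, isMH_zero fac _, fun L _ _ z s t => ?_⟩
      rw [map_zero, if_neg h, zero_mul, mul_zero]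
  -- the second type
  have h2 : ∀ (r : Fin (e q i₀ + 1)) (k : I), ∃ F : MvPolynomial I ℂ, IsMH fac (e q) F ∧
      ∀ (L : Type) [Field L] [Algebra ℂ L] (z : I ⊕ I → L) (s t : L),
        aeval (ln fac i₀ (chP fac b b' z) (chQ fac b b' z) s t) F =
          if k ∈ ((coords fac i₀).erase (b i₀)).erase b' then
            (if (r : ℕ) < e q i₀ then algebraMap ℂ L (ρ q r k) * (s ^ (e q i₀ - 1 - r) * t ^ (r : ℕ) *
              (s * z (Sum.inl k) + t * z (Sum.inr k))) else 0)
          else 0 := by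
    intro r k
    by_cases h : k ∈ ((coords fac i₀).erase (b i₀)).erase b'
    · by_cases h' : (r : ℕ) < e q i₀
      · have hk := h
        simp only [Finset.mem_erase, mem_coords] at hk
        obtain ⟨F, hF, hF'⟩ := exists_mon2 fac i₀ b b' hb hb' hbb (e q) k hk.2.2 hk.2.1 hk.1 r h'
        refine ⟨C (ρ q r k) * F, ?_, fun L _ _ z s t => ?_⟩
        · have h3 := (isMH_C fac (ρ q r k)).mul hF
          simpa only [zero_add] using h3
        · rw [map_mul, hF', if_pos h, if_pos h', aeval_C]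
      · refine ⟨0, isMH_zero fac _, fun L _ _ z s t => ?_⟩
        rw [map_zero, if_pos h, if_neg h']
    · refine ⟨0, isMH_zero fac _, fun L _ _ z s t => ?_⟩
      rw [map_zero, if_neg h]
  choose F1 hF1 hF1' using h1
  choose F2 hF2 hF2' using h2
  refine ⟨∑ r, ∑ k, F1 r k + ∑ r, ∑ k, F2 r k, ?_, fun L _ _ z s t => ?_⟩
  · exact (IsMH.sum _ fun r _ => IsMH.sum _ fun k _ => hF1 r k).add
      (IsMH.sum _ fun r _ => IsMH.sum _ fun k _ => hF2 r k)
  · rw [map_add, map_sum, map_sum]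
    simp only [map_sum, hF1', hF2']
    have e2 : ∑ r : Fin (e q i₀ + 1), ∑ k : I,
        (if k ∈ ((coords fac i₀).erase (b i₀)).erase b' then
            (if (r : ℕ) < e q i₀ then algebraMap ℂ L (ρ q r k) * (s ^ (e q i₀ - 1 - r) * t ^ (r : ℕ) *
              (s * z (Sum.inl k) + t * z (Sum.inr k))) else 0)
          else 0) =
        ∑ r : Fin (e q i₀ + 1), ∑ k : I,
          (if k ∈ ((coords fac i₀).erase (b i₀)).erase b' then
            s ^ (e q i₀ - r) * t ^ (r : ℕ) *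
              ((if (r : ℕ) < e q i₀ then algebraMap ℂ L (ρ q r k) else 0) * z (Sum.inl k) +
                (if 1 ≤ (r : ℕ) then algebraMap ℂ L (ρ q (r - 1) k) else 0) * z (Sum.inr k))
          else 0) := by
      rw [Finset.sum_comm]
      conv_rhs => rw [Finset.sum_comm]
      refine Finset.sum_congr rfl fun k _ => ?_
      by_cases h : k ∈ ((coords fac i₀).erase (b i₀)).erase b'
      · simp only [if_pos h]
        exact BaseB_shift (e q i₀) (fun r => algebraMap ℂ L (ρ q r k)) s t _ _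
      · simp only [if_neg h]
    rw [e2, ← Finset.sum_add_distrib]
    refine Finset.sum_congr rfl fun r _ => ?_
    rw [Fintype.sum_sum_type, ← Finset.sum_add_distrib, ← Finset.sum_add_distrib, Finset.mul_sum]
    refine Finset.sum_congr rfl fun k _ => ?_
    simp only [Th]
    by_cases h : k ∈ ((coords fac i₀).erase (b i₀)).erase b'
    · by_cases h3 : f ⟨q, r⟩ = Sum.inl k ∧ fac k ≠ i₀ <;> by_cases h4 : (r : ℕ) < e q i₀ <;>
        by_cases h5 : 1 ≤ (r : ℕ) <;>
        simp only [h, h3, h4, h5, if_true, if_false, map_add, map_zero, map_one, true_and, and_true,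
          and_self, and_false, not_false_eq_true, ne_eq] <;> ring
    · by_cases h3 : f ⟨q, r⟩ = Sum.inl k ∧ fac k ≠ i₀ <;>
        simp only [h, h3, if_true, if_false, map_add, map_zero, map_one, false_and, and_self,
          not_false_eq_true, ne_eq] <;> ring

end

end Pool.Agent.MP_cfacaa_ag.G
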