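import Pool.Agent.Lib.MP_cfacaa_ag.G.Defs

/-! Lines in the direction of a factor, charts (definitions only). -/

namespace Pool.Agent.MP_cfacaa_ag.G

open MvPolynomial

open Classical in
/-- The point with the parameters `(s, t)` on the line in the direction of the factor `i₀`: its coordinates in this factor are
`s * P k + t * Q k`, the others are `P k`. -/
noncomputable def ln {I E R : Type} [CommRing R] (fac : I → E) (i₀ : E) (P Q : I → R) (s t : R) : I → R :=
  fun k => if fac k = i₀ then s * P k + t * Q k else P k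

open Classical in
/-- The chart: `b j` is the base coordinate of the factor `j`, `b'` a second coordinate of the factor `i₀`. -/
noncomputable def chP {I E R : Type} [CommRing R] (fac : I → E) (b : E → I) (b' : I) (z : I ⊕ I → R) : I → R :=
  fun k => if k = b (fac k) then 1 else if k = b' then 0 else z (Sum.inl k)

open Classical in
/-- the second point -/
noncomputable def chQ {I E R : Type} [CommRing R] (fac : I → E) (b : E → I) (b' : I) (z : I ⊕ I → R) : I → R :=
  fun k => if k = b (fac k) then 0 else if k = b' then 1 else z (Sum.inr k)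

/-- Normalised lines. -/
def Nrm {I E R : Type} [CommRing R] (fac : I → E) (i₀ : E) (P Q : I → R) : Prop :=
  ∃ (b : E → I) (b' : I), (∀ j, fac (b j) = j) ∧ fac b' = i₀ ∧ (∀ j, P (b j) = 1) ∧ Q (b i₀) = 0 ∧ P b' = 0 ∧ Q b' = 1

/-- A matching of the pairs `(q, r)`, `0 ≤ r ≤ e q i₀`, with the free coordinates of the chart. -/
structure Match {V I E : Type} (fac : I → E) (i₀ : E) (b : E → I) (b' : I) (e : V → E → ℕ)
    (f : (Σ q : V, Fin (e q i₀ + 1)) → I ⊕ I) : Prop where
  inj : Function.Injective f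
  eta : ∀ p k, f p = Sum.inl k → fac k ≠ i₀ → k ≠ b (fac k) ∧ e p.1 (fac k) ≠ 0
  alpha : ∀ p k, f p = Sum.inl k → fac k = i₀ → k ≠ b i₀ ∧ k ≠ b' ∧ (p.2 : ℕ) < e p.1 i₀
  beta : ∀ p k, f p = Sum.inr k → fac k = i₀ ∧ k ≠ b i₀ ∧ k ≠ b' ∧ 1 ≤ (p.2 : ℕ)

open Classical in
/-- The linear system of the base point: the row `(q, r)` has the entry `1` at the matched coordinate, if this is a
coordinate of a factor `≠ i₀`, and the entries `ρ q r k` (if `r < e q i₀`) and `ρ q (r - 1) k` (if `1 ≤ r`) at the two parameters of `k ∈ κ`. -/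
noncomputable def Th {V I E : Type} (fac : I → E) (i₀ : E) (κ : Finset I) (e : V → E → ℕ)
    (f : (Σ q : V, Fin (e q i₀ + 1)) → I ⊕ I) (ρ : V → ℕ → I → ℂ) (p : Σ q : V, Fin (e q i₀ + 1)) : I ⊕ I → ℂ
  | Sum.inl k => (if f p = Sum.inl k ∧ fac k ≠ i₀ then 1 else 0) + (if k ∈ κ ∧ (p.2 : ℕ) < e p.1 i₀ then ρ p.1 p.2 k else 0)
  | Sum.inr k => if k ∈ κ ∧ 1 ≤ (p.2 : ℕ) then ρ p.1 (p.2 - 1) k else 0

end Pool.Agent.MP_cfacaa_ag.G
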