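import Pool.Agent.Lib.MP_cfacaa_ag.G.Val
import Pool.Agent.Lib.MP_cfacaa_ag.G.Chart

/-! Row cga-CubA: a cubic form near a singular point. -/

namespace Pool.Agent.MP_cfacaa_ag.G

open MvPolynomial

open Classical in
/-- the derivative in the direction `v` of the factor `j`, at the point `x` -/
private noncomputable def CubA_D {I E R : Type} [Fintype I] [CommRing R] [Algebra ℂ R] (fac : I → E) (j : E) (x : I → ℂ)
    (v : I → R) (F : MvPolynomial I ℂ) : R :=
  ∑ k ∈ coords fac j, v k * algebraMap ℂ R (aeval x (pderiv k F))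

section

variable {I E R : Type} [Fintype I] [CommRing R] [Algebra ℂ R] {fac : I → E} {j : E} {x : I → ℂ} {v : I → R}

private theorem CubA_D_add (F G : MvPolynomial I ℂ) :
    CubA_D fac j x v (F + G) = CubA_D fac j x v F + CubA_D fac j x v G := by
  simp only [CubA_D, map_add, mul_add, Finset.sum_add_distrib]

private theorem CubA_D_zero : CubA_D fac j x v 0 = 0 := by
  simp [CubA_D]

private theorem CubA_D_mul (F G : MvPolynomial I ℂ) :
    CubA_D fac j x v (F * G) = algebraMap ℂ R (aeval x F) * CubA_D fac j x v G +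
      algebraMap ℂ R (aeval x G) * CubA_D fac j x v F := by
  simp only [CubA_D, Finset.mul_sum, ← Finset.sum_add_distrib]
  refine Finset.sum_congr rfl fun k _ => ?_
  rw [Derivation.leibniz, smul_eq_mul, smul_eq_mul, map_add, map_mul, map_mul, map_add, map_mul, map_mul]
  ring

private theorem CubA_D_X {a : I} (ha : fac a = j) : CubA_D fac j x v (X a) = v a := by
  classical
  have hmem : a ∈ coords fac j := by simp [coords, ha]
  rw [CubA_D, Finset.sum_eq_single a]
  · rw [pderiv_X_self, map_one, map_one, mul_one]
  · intro k _ hk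
    rw [pderiv_X_of_ne (Ne.symm hk), map_zero, map_zero, mul_zero]
  · intro h
    exact absurd hmem h

private theorem CubA_D_mon {m : I →₀ ℕ} (hm : ∀ k, fac k = j → m k = 0) (c : ℂ) :
    CubA_D fac j x v (monomial m c) = 0 := by
  classical
  rw [CubA_D]
  refine Finset.sum_eq_zero fun k hk => ?_
  have hk' : fac k = j := by
    simp only [coords, Finset.mem_filter, Finset.mem_univ, true_and] at hk
    exact hk
  rw [pderiv_monomial, hm k hk', Nat.cast_zero, mul_zero, map_zero, map_zero, map_zero, mul_zero]

omit [Fintype I] in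
private theorem CubA_aeval_mon {m : I →₀ ℕ} (hm : ∀ k, fac k = j → m k = 0) (c : ℂ) (α β : R) :
    aeval (ln fac j (fun k => algebraMap ℂ R (x k)) v α β) (monomial m c) =
      algebraMap ℂ R (aeval x (monomial m c)) := by
  rw [aeval_monomial, aeval_monomial, map_mul, Algebra.algebraMap_self, RingHom.id_apply, Finsupp.prod,
    Finsupp.prod, map_prod]
  congr 1
  refine Finset.prod_congr rfl fun k hk => ?_
  have hk' : fac k ≠ j := fun h => (Finsupp.mem_support_iff.mp hk) (hm k h)
  rw [map_pow, ln, if_neg hk']

omit [Fintype I] in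
private theorem CubA_aeval_X {a : I} (ha : fac a = j) (α β : R) :
    aeval (ln fac j (fun k => algebraMap ℂ R (x k)) v α β) (X a : MvPolynomial I ℂ) =
      α * algebraMap ℂ R (x a) + β * v a := by
  rw [aeval_X, ln, if_pos ha]

/-- the expansion of `F` near `x` -/
private def CubA_id (fac : I → E) (j : E) (x : I → ℂ) (v : I → R) (α β : R) (F : MvPolynomial I ℂ) : Prop :=
  aeval (ln fac j (fun k => algebraMap ℂ R (x k)) v α β) F =
    α ^ 3 * algebraMap ℂ R (aeval x F) + α ^ 2 * β * CubA_D fac j x v F +
    α * β ^ 2 * (aeval (ln fac j (fun k => algebraMap ℂ R (x k)) v 1 1) F -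
        aeval (ln fac j (fun k => algebraMap ℂ R (x k)) v 0 1) F - algebraMap ℂ R (aeval x F) -
        CubA_D fac j x v F) +
    β ^ 3 * aeval (ln fac j (fun k => algebraMap ℂ R (x k)) v 0 1) F

private theorem CubA_id_zero (α β : R) : CubA_id fac j x v α β 0 := by
  simp [CubA_id, CubA_D_zero]

private theorem CubA_id_add (α β : R) {F G : MvPolynomial I ℂ} (hF : CubA_id fac j x v α β F)
    (hG : CubA_id fac j x v α β G) : CubA_id fac j x v α β (F + G) := by
  simp only [CubA_id, map_add, CubA_D_add] at hF hG ⊢
  linear_combination hF + hG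

private theorem CubA_id_mon (α β : R) {m : I →₀ ℕ} (hm : ∑ k ∈ coords fac j, m k = 3) (c : ℂ) :
    CubA_id fac j x v α β (monomial m c) := by
  classical
  -- the three factors
  have hcard : Multiset.card (Finsupp.toMultiset (m.filter fun k => fac k = j)) = 3 := by
    rw [Finsupp.card_toMultiset, ← hm, Finsupp.sum_fintype _ _ (fun _ => rfl), coords, Finset.sum_filter]
    refine Finset.sum_congr rfl fun k _ => ?_
    rw [id, Finsupp.filter_apply]
  obtain ⟨a, b, d, habd⟩ := Multiset.card_eq_three.mp hcard
  have hfil : m.filter (fun k => fac k = j) = Finsupp.single a 1 + Finsupp.single b 1 + Finsupp.single d 1 := by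
    apply (Multiset.toFinsupp (α := I)).symm.injective
    change Finsupp.toMultiset _ = Finsupp.toMultiset _
    rw [habd, map_add, map_add, Finsupp.toMultiset_single, Finsupp.toMultiset_single, Finsupp.toMultiset_single]
    simp only [one_smul]
    rfl
  have hmem : ∀ z ∈ ({a, b, d} : Multiset I), fac z = j := by
    intro z hz
    rw [← habd, Finsupp.mem_toMultiset, Finsupp.support_filter, Finset.mem_filter] at hz
    exact hz.2
  have ha : fac a = j := hmem a (by simp)
  have hb : fac b = j := hmem b (by simp)
  have hd : fac d = j := hmem d (by simp)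
  set m₀ := m.filter fun k => ¬ fac k = j with hm₀
  have hm0 : ∀ k, fac k = j → m₀ k = 0 := by
    intro k hk
    rw [hm₀, Finsupp.filter_apply_neg]
    exact fun h => h hk
  have hmm : m = m₀ + Finsupp.single a 1 + Finsupp.single b 1 + Finsupp.single d 1 := by
    have h1 := Finsupp.filter_add_filter_not m (fun k => fac k = j)
    rw [hfil] at h1
    rw [← h1, hm₀]
    abel
  have hprod : (monomial m c : MvPolynomial I ℂ) = monomial m₀ c * X a * X b * X d := by
    rw [hmm, X, X, X, monomial_mul, monomial_mul, monomial_mul, mul_one, mul_one, mul_one]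
  rw [hprod]
  simp only [CubA_id, map_mul, CubA_D_mul, CubA_D_mon hm0, CubA_D_X ha, CubA_D_X hb, CubA_D_X hd,
    CubA_aeval_mon hm0, CubA_aeval_X ha, CubA_aeval_X hb, CubA_aeval_X hd, aeval_X]
  ring

end

/-- `F` has degree `3` in the factor `j`, `x` is a zero of `F` and of its derivatives with respect to the coordinates of `j`. The value of `F` at the point with
the coordinates `α x k + β v k` in the factor `j` (and `x k` in the others) is a binary cubic form `∑ c r α ^ (3 - r) β ^ r` in `(α, β)`; `c 0 = F(x) = 0`, `c 1 = ∑ v k ∂F/∂x k (x) = 0`,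
`c 3` is the value for `(0, 1)`, `c 2` is the value for `(1, 1)` minus `c 3`. (The expansion: sum over the monomials, or the polynomial `aeval (C (x k) + C (v k) T)` in `T` of
degree `≤ 3` and homogeneity; `c 1` is its derivative at `T = 0`: chain rule, by `MvPolynomial.induction_on` or derivations.) -/
theorem cubic_taylor {I E R : Type} [Fintype I] [Fintype E] [CommRing R] [Algebra ℂ R] {fac : I → E} {e : E → ℕ}
    {F : MvPolynomial I ℂ} (hF : IsMH fac e F) {j : E} (hj : e j = 3) (x : I → ℂ) (h0 : aeval x F = 0)
    (h1 : ∀ k ∈ coords fac j, aeval x (pderiv k F) = 0) (v : I → R) (α β : R) :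
    aeval (ln fac j (fun k => algebraMap ℂ R (x k)) v α β) F =
      α * β ^ 2 * (aeval (ln fac j (fun k => algebraMap ℂ R (x k)) v 1 1) F -
        aeval (ln fac j (fun k => algebraMap ℂ R (x k)) v 0 1) F) +
      β ^ 3 * aeval (ln fac j (fun k => algebraMap ℂ R (x k)) v 0 1) F := by
  classical
  have key : CubA_id fac j x v α β F := by
    rw [F.as_sum]
    refine Finset.sum_induction _ (CubA_id fac j x v α β) (fun _ _ => CubA_id_add α β) (CubA_id_zero α β) ?_
    intro m hm
    exact CubA_id_mon α β (by rw [hF m hm j, hj]) _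
  have hD : CubA_D fac j x v F = 0 := by
    rw [CubA_D]
    refine Finset.sum_eq_zero fun k hk => ?_
    rw [h1 k hk, map_zero, mul_zero]
  rw [CubA_id, hD, h0, map_zero] at key
  rw [key]
  ring

end Pool.Agent.MP_cfacaa_ag.G
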