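import Pool.Agent.Lib.MP_cfacaa_ag.G.Chart
import Pool.Agent.Lib.MP_cfacaa_ag.G.Hom

/-! Row cga-HallL: Hall's theorem for lines. -/

namespace Pool.Agent.MP_cfacaa_ag.G

section

variable {V I E : Type} [Fintype V] [Fintype I] [Fintype E]

private theorem HallL_mem (e : V → E → ℕ) (W : Finset V) (j : E) :
    j ∈ factors e W ↔ ∃ v ∈ W, e v j ≠ 0 := by
  unfold factors
  rw [Finset.mem_filter]
  exact ⟨fun h => h.2, fun h => ⟨Finset.mem_univ _, h⟩⟩

private theorem HallL_coords (fac : I → E) (i : E) (k : I) : k ∈ coords fac i ↔ fac k = i := by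
  classical
  unfold coords
  rw [Finset.mem_filter]
  exact ⟨fun h => h.2, fun h => ⟨Finset.mem_univ _, h⟩⟩

open Classical in
private theorem HallL_A (fac : I → E) (b : E → I) (hb : ∀ j, fac (b j) = j) (G : Finset E) :
    (Finset.univ.filter fun k : I => k ≠ b (fac k) ∧ fac k ∈ G).card = ∑ i ∈ G, dim fac i := by
  rw [Finset.card_eq_sum_card_fiberwise (f := fac) (t := G)
    (fun k hk => (Finset.mem_filter.1 (Finset.mem_coe.1 hk)).2.2)]
  refine Finset.sum_congr rfl fun i hi => ?_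
  have h1 : (Finset.filter (fun a => fac a = i)
      (Finset.univ.filter fun k : I => k ≠ b (fac k) ∧ fac k ∈ G)) = (coords fac i).erase (b i) := by
    ext k
    simp only [Finset.mem_filter, Finset.mem_univ, true_and, Finset.mem_erase]
    rw [HallL_coords]
    constructor
    · rintro ⟨⟨h1, -⟩, rfl⟩
      exact ⟨h1, rfl⟩
    · rintro ⟨h1, rfl⟩
      exact ⟨⟨h1, hi⟩, rfl⟩
  rw [h1, Finset.card_erase_of_mem ((HallL_coords fac i _).2 (hb i))]
  rfl

open Classical in
private theorem HallL_B (fac : I → E) (i₀ : E) (b : E → I) (b' : I) (hb : ∀ j, fac (b j) = j)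
    (hb' : fac b' = i₀) (hbb : b' ≠ b i₀) :
    (((coords fac i₀).erase (b i₀)).erase b').card + 1 = dim fac i₀ := by
  have h1 : b' ∈ (coords fac i₀).erase (b i₀) :=
    Finset.mem_erase.2 ⟨hbb, (HallL_coords fac i₀ _).2 hb'⟩
  rw [Finset.card_erase_add_one h1, Finset.card_erase_of_mem ((HallL_coords fac i₀ _).2 (hb i₀))]
  rfl

/-- Hall's theorem for the rows `p = (q, r)`. For a set `T` of rows let `W` be the set of the `q`. Its neighbours: for every factor `j ≠ i₀` in `factors e W` the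
`dim fac j` coordinates `inl k`, `fac k = j`, `k ≠ b j`; if some row of `T` has `r < e q i₀`, the `dim fac i₀ - 1` elements `inl k`, `k` in the factor `i₀`, `k ≠ b i₀`, `k ≠ b'`; if some row of `T`
has `1 ≤ r`, the `dim fac i₀ - 1` elements `inr k`. Cases: both occur: `|T| ≤ |W| + ∑ w ∈ W, e w i₀`, use the second inequality of `h2`. Exactly one occurs: then `T` has
at most one row for every `q ∈ W` (all rows have `r = 0`, or all have `r = e q i₀`), use the first inequality of `h2`. None occurs: all `e w i₀ = 0`, `|T| ≤ |W|`, use `h1`. -/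
theorem exists_match_line (fac : I → E) (i₀ : E) (b : E → I) (b' : I) (hb : ∀ j, fac (b j) = j) (hb' : fac b' = i₀)
    (hbb : b' ≠ b i₀) (e : V → E → ℕ) (h1 : ∀ W : Finset V, W.card ≤ ∑ i ∈ factors e W, dim fac i)
    (h2 : ∀ W : Finset V, i₀ ∈ factors e W → W.card + 1 ≤ ∑ i ∈ factors e W, dim fac i ∧
      W.card + ∑ w ∈ W, e w i₀ + 2 ≤ ∑ i ∈ factors e W, dim fac i + dim fac i₀) :
    ∃ f : (Σ q : V, Fin (e q i₀ + 1)) → I ⊕ I, Match fac i₀ b b' e f := by
  classical
  let N : (Σ q : V, Fin (e q i₀ + 1)) → Finset (I ⊕ I) := fun p =>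
    Finset.univ.filter fun x : I ⊕ I =>
      (∃ k, x = Sum.inl k ∧ fac k ≠ i₀ ∧ k ≠ b (fac k) ∧ e p.1 (fac k) ≠ 0) ∨
      (∃ k, x = Sum.inl k ∧ fac k = i₀ ∧ k ≠ b i₀ ∧ k ≠ b' ∧ (p.2 : ℕ) < e p.1 i₀) ∨
      (∃ k, x = Sum.inr k ∧ fac k = i₀ ∧ k ≠ b i₀ ∧ k ≠ b' ∧ 1 ≤ (p.2 : ℕ))
  have hN : ∀ p x, x ∈ N p ↔ (∃ k, x = Sum.inl k ∧ fac k ≠ i₀ ∧ k ≠ b (fac k) ∧ e p.1 (fac k) ≠ 0) ∨
      (∃ k, x = Sum.inl k ∧ fac k = i₀ ∧ k ≠ b i₀ ∧ k ≠ b' ∧ (p.2 : ℕ) < e p.1 i₀) ∨
      (∃ k, x = Sum.inr k ∧ fac k = i₀ ∧ k ≠ b i₀ ∧ k ≠ b' ∧ 1 ≤ (p.2 : ℕ)) := by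
    intro p x
    simp only [N, Finset.mem_filter, Finset.mem_univ, true_and]
  obtain ⟨f, hf, hf2⟩ := (Finset.all_card_le_biUnion_card_iff_exists_injective N).1 (fun T => by
    set W : Finset V := T.image Sigma.fst with hW
    set A : Finset (I ⊕ I) := (Finset.univ.filter fun k : I => k ≠ b (fac k) ∧
      fac k ∈ (factors e W).erase i₀).map Function.Embedding.inl with hA
    set B0 : Finset I := ((coords fac i₀).erase (b i₀)).erase b' with hB0
    have hB0c := HallL_B fac i₀ b b' hb hb' hbb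
    rw [← hB0] at hB0c
    have hB0m : ∀ k, k ∈ B0 ↔ fac k = i₀ ∧ k ≠ b i₀ ∧ k ≠ b' := by
      intro k
      rw [hB0, Finset.mem_erase, Finset.mem_erase, HallL_coords]
      tauto
    set B : Finset (I ⊕ I) := B0.map Function.Embedding.inl with hB
    set C : Finset (I ⊕ I) := B0.map Function.Embedding.inr with hC
    have hAc : A.card = ∑ i ∈ (factors e W).erase i₀, dim fac i := by
      rw [hA, Finset.card_map, HallL_A fac b hb]
    have hBc : B.card = B0.card := Finset.card_map _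
    have hCc : C.card = B0.card := Finset.card_map _
    have hAN : A ⊆ T.biUnion N := by
      intro x hx
      rw [hA, Finset.mem_map] at hx
      obtain ⟨k, hk, rfl⟩ := hx
      rw [Finset.mem_filter, Finset.mem_erase, HallL_mem] at hk
      obtain ⟨-, hk1, hk2, v, hv, hk3⟩ := hk
      obtain ⟨p, hp, rfl⟩ := Finset.mem_image.1 hv
      rw [Finset.mem_biUnion]
      exact ⟨p, hp, (hN _ _).2 (Or.inl ⟨k, rfl, hk2, hk1, hk3⟩)⟩
    have hBN : (∃ p ∈ T, (p.2 : ℕ) < e p.1 i₀) → B ⊆ T.biUnion N := by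
      rintro ⟨p, hp, hp2⟩ x hx
      rw [hB, Finset.mem_map] at hx
      obtain ⟨k, hk, rfl⟩ := hx
      rw [hB0m] at hk
      rw [Finset.mem_biUnion]
      exact ⟨p, hp, (hN _ _).2 (Or.inr (Or.inl ⟨k, rfl, hk.1, hk.2.1, hk.2.2, hp2⟩))⟩
    have hCN : (∃ p ∈ T, 1 ≤ (p.2 : ℕ)) → C ⊆ T.biUnion N := by
      rintro ⟨p, hp, hp2⟩ x hx
      rw [hC, Finset.mem_map] at hx
      obtain ⟨k, hk, rfl⟩ := hx
      rw [hB0m] at hk
      rw [Finset.mem_biUnion]
      exact ⟨p, hp, (hN _ _).2 (Or.inr (Or.inr ⟨k, rfl, hk.1, hk.2.1, hk.2.2, hp2⟩))⟩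
    have hAB : Disjoint A B := by
      rw [Finset.disjoint_left]
      intro x hx hx'
      rw [hA, Finset.mem_map] at hx
      rw [hB, Finset.mem_map] at hx'
      obtain ⟨k, hk, rfl⟩ := hx
      obtain ⟨k', hk', h⟩ := hx'
      have h' : k' = k := Sum.inl_injective h
      subst h'
      rw [Finset.mem_filter, Finset.mem_erase] at hk
      rw [hB0m] at hk'
      exact hk.2.2.1 hk'.1
    have hAC : Disjoint A C := by
      rw [Finset.disjoint_left]
      intro x hx hx'
      rw [hA, Finset.mem_map] at hx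
      rw [hC, Finset.mem_map] at hx'
      obtain ⟨k, hk, rfl⟩ := hx
      obtain ⟨k', hk', h⟩ := hx'
      exact Sum.inr_ne_inl h
    have hBC : Disjoint B C := by
      rw [Finset.disjoint_left]
      intro x hx hx'
      rw [hB, Finset.mem_map] at hx
      rw [hC, Finset.mem_map] at hx'
      obtain ⟨k, hk, rfl⟩ := hx
      obtain ⟨k', hk', h⟩ := hx'
      exact Sum.inr_ne_inl h
    have hT1 : T.card ≤ W.card + ∑ w ∈ W, e w i₀ := by
      have hsub : T ⊆ W.sigma fun w => (Finset.univ : Finset (Fin (e w i₀ + 1))) := by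
        intro k hk
        rw [Finset.mem_sigma]
        exact ⟨Finset.mem_image_of_mem _ hk, Finset.mem_univ _⟩
      refine (Finset.card_le_card hsub).trans ?_
      rw [Finset.card_sigma]
      simp only [Finset.card_univ, Fintype.card_fin]
      rw [Finset.sum_add_distrib, Finset.sum_const, smul_eq_mul, mul_one, add_comm]
    have hT2 : (∀ p ∈ T, ∀ p' ∈ T, p.1 = p'.1 → (p.2 : ℕ) = p'.2) → T.card ≤ W.card := by
      intro h
      rw [hW, Finset.card_image_of_injOn]
      rintro ⟨v, r⟩ hp ⟨v', r'⟩ hp' hv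
      simp only at hv
      subst hv
      have h3 := h _ (Finset.mem_coe.1 hp) _ (Finset.mem_coe.1 hp') rfl
      simp only at h3
      rw [Fin.ext h3]
    have herase : i₀ ∈ factors e W →
        ∑ i ∈ (factors e W).erase i₀, dim fac i + dim fac i₀ = ∑ i ∈ factors e W, dim fac i :=
      fun h => Finset.sum_erase_add _ _ h
    by_cases hb1 : ∃ p ∈ T, (p.2 : ℕ) < e p.1 i₀
    · have hi₀ : i₀ ∈ factors e W := by
        obtain ⟨p, hp, hp2⟩ := hb1
        rw [HallL_mem]
        exact ⟨p.1, Finset.mem_image_of_mem _ hp, by omega⟩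
      have h3 := h2 W hi₀
      have h4 := herase hi₀
      by_cases hc1 : ∃ p ∈ T, 1 ≤ (p.2 : ℕ)
      · have h5 : (A ∪ B ∪ C).card ≤ (T.biUnion N).card :=
          Finset.card_le_card (Finset.union_subset (Finset.union_subset hAN (hBN hb1)) (hCN hc1))
        rw [Finset.card_union_of_disjoint (Finset.disjoint_union_left.2 ⟨hAC, hBC⟩),
          Finset.card_union_of_disjoint hAB] at h5
        omega
      · have h5 : (A ∪ B).card ≤ (T.biUnion N).card :=
          Finset.card_le_card (Finset.union_subset hAN (hBN hb1))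
        rw [Finset.card_union_of_disjoint hAB] at h5
        have h6 := hT2 (fun p hp p' hp' _ => by
          have h7 : ¬ 1 ≤ (p.2 : ℕ) := fun h => hc1 ⟨p, hp, h⟩
          have h8 : ¬ 1 ≤ (p'.2 : ℕ) := fun h => hc1 ⟨p', hp', h⟩
          omega)
        omega
    · by_cases hc1 : ∃ p ∈ T, 1 ≤ (p.2 : ℕ)
      · have hi₀ : i₀ ∈ factors e W := by
          obtain ⟨p, hp, hp2⟩ := hc1
          rw [HallL_mem]
          have := p.2.2
          exact ⟨p.1, Finset.mem_image_of_mem _ hp, by omega⟩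
        have h3 := h2 W hi₀
        have h4 := herase hi₀
        have h5 : (A ∪ C).card ≤ (T.biUnion N).card :=
          Finset.card_le_card (Finset.union_subset hAN (hCN hc1))
        rw [Finset.card_union_of_disjoint hAC] at h5
        have h6 := hT2 (fun p hp p' hp' hpp => by
          have h7 : ¬ (p.2 : ℕ) < e p.1 i₀ := fun h => hb1 ⟨p, hp, h⟩
          have h8 : ¬ (p'.2 : ℕ) < e p'.1 i₀ := fun h => hb1 ⟨p', hp', h⟩
          have h9 := p.2.2
          have h10 := p'.2.2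
          have h11 : e p.1 i₀ = e p'.1 i₀ := by rw [hpp]
          omega)
        omega
      · have h5 : A.card ≤ (T.biUnion N).card := Finset.card_le_card hAN
        have h6 := hT2 (fun p hp p' hp' _ => by
          have h7 : ¬ 1 ≤ (p.2 : ℕ) := fun h => hc1 ⟨p, hp, h⟩
          have h8 : ¬ 1 ≤ (p'.2 : ℕ) := fun h => hc1 ⟨p', hp', h⟩
          omega)
        have hi₀ : i₀ ∉ factors e W := by
          rw [HallL_mem]
          rintro ⟨v, hv, hv2⟩
          obtain ⟨p, hp, rfl⟩ := Finset.mem_image.1 hv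
          have h7 : ¬ 1 ≤ (p.2 : ℕ) := fun h => hc1 ⟨p, hp, h⟩
          have h8 : ¬ (p.2 : ℕ) < e p.1 i₀ := fun h => hb1 ⟨p, hp, h⟩
          omega
        rw [Finset.erase_eq_of_notMem hi₀] at hAc
        have h7 := h1 W
        omega)
  refine ⟨f, hf, ?_, ?_, ?_⟩
  · intro p k hpk hk
    have h3 := (hN _ _).1 (hf2 p)
    rw [hpk] at h3
    rcases h3 with ⟨k', h, h4, h5, h6⟩ | ⟨k', h, h4, h5, h6⟩ | ⟨k', h, h4⟩
    · have h' : k = k' := Sum.inl_injective h
      subst h'
      exact ⟨h5, h6⟩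
    · have h' : k = k' := Sum.inl_injective h
      subst h'
      exact absurd h4 hk
    · exact absurd h Sum.inl_ne_inr
  · intro p k hpk hk
    have h3 := (hN _ _).1 (hf2 p)
    rw [hpk] at h3
    rcases h3 with ⟨k', h, h4, h5, h6⟩ | ⟨k', h, h4, h5, h6⟩ | ⟨k', h, h4⟩
    · have h' : k = k' := Sum.inl_injective h
      subst h'
      exact absurd hk h4
    · have h' : k = k' := Sum.inl_injective h
      subst h'
      exact ⟨h5, h6⟩
    · exact absurd h Sum.inl_ne_inr
  · intro p k hpk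
    have h3 := (hN _ _).1 (hf2 p)
    rw [hpk] at h3
    rcases h3 with ⟨k', h, h4⟩ | ⟨k', h, h4⟩ | ⟨k', h, h4, h5, h6, h7⟩
    · exact absurd h Sum.inr_ne_inl
    · exact absurd h Sum.inr_ne_inl
    · have h' : k = k' := Sum.inr_injective h
      subst h'
      exact ⟨h4, h5, h6, h7⟩

end

end Pool.Agent.MP_cfacaa_ag.G
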