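import Pool.Agent.Lib.MP_cfacaa_ag.G.LE
import Pool.Agent.Lib.MP_cfacaa_ag.G.HallL

/-! Row cga-Line: lines on `X`. -/

namespace Pool.Agent.MP_cfacaa_ag.G

open MvPolynomial

section

variable {V I E : Type} [Fintype V] [Fintype I] [Fintype E] [DecidableEq E]

/-- The curve `T ↦ (P + T Q)` in the factor `i₀`, constant in the others. (`aeval c (F v)` is a polynomial in `T` all of whose values vanish.) -/
theorem exists_curve_of_line (S : Sys V I E) (i₀ : E) {P Q : I → ℂ} (h : Nrm S.fac i₀ P Q)
    (h0 : ∀ v s t, aeval (ln S.fac i₀ P Q s t) (S.F v) = 0) : ∃ C : RatCurve S, C.deg = Pi.single i₀ 1 := by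
  obtain ⟨b, b', hb, hb', hP, hQ, hP', hQ'⟩ := h
  let c : I → Polynomial ℂ := fun k => if S.fac k = i₀ then Polynomial.C (P k) + Polynomial.X * Polynomial.C (Q k)
    else Polynomial.C (P k)
  have hc : ∀ (t : ℂ), (fun k => Polynomial.aeval t (c k)) = ln S.fac i₀ P Q 1 t := by
    intro t
    funext k
    simp only [c, ln]
    split_ifs with h1
    · simp
      ring
    · simp
  have hcl : ∀ k t, (c k).eval t = ln S.fac i₀ P Q 1 t k := fun k t => congrFun (hc t) k
  have hne : ∀ (i : E) (t : ℂ), ∃ k, S.fac k = i ∧ (c k).eval t ≠ 0 := by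
    intro i t
    refine ⟨b i, hb i, ?_⟩
    rw [hcl]
    unfold ln
    split_ifs with h1
    · rw [hb] at h1
      rw [h1, hP, hQ]
      simp
    · rw [hP]
      exact one_ne_zero
  have hon : ∀ v, aeval c (S.F v) = 0 := by
    intro v
    apply Polynomial.funext
    intro t
    have h1 : (Polynomial.aeval t) (aeval c (S.F v)) = aeval (fun k => Polynomial.aeval t (c k)) (S.F v) :=
      MvPolynomial.comp_aeval_apply c (Polynomial.aeval t) (S.F v)
    rw [hc, h0] at h1
    rw [Polynomial.eval_zero, ← h1]
    rfl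
  refine ⟨⟨c, hne, hon⟩, ?_⟩
  have mc : ∀ {i k}, k ∈ coords S.fac i ↔ S.fac k = i := by
    intro i k
    simp [coords]
  funext i
  change ((coords S.fac i).sup fun k => (c k).natDegree) = _
  by_cases hi : i = i₀
  · subst hi
    rw [Pi.single_eq_same]
    apply le_antisymm
    · refine Finset.sup_le fun k hk => ?_
      simp only [c, if_pos (mc.1 hk)]
      refine (Polynomial.natDegree_add_le _ _).trans (max_le (by simp) ?_)
      refine Polynomial.natDegree_mul_le.trans ?_
      simp
    · have h1 : (c b').natDegree = 1 := by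
        simp only [c, if_pos hb', hP', hQ']
        simp
      rw [← h1]
      exact Finset.le_sup (f := fun k => (c k).natDegree) (mc.2 hb')
  · rw [Pi.single_eq_of_ne hi]
    apply le_antisymm _ (Nat.zero_le _)
    refine Finset.sup_le fun k hk => ?_
    have h1 : S.fac k ≠ i₀ := by
      rw [mc.1 hk]
      exact hi
    simp only [c, if_neg h1]
    simp

theorem nonneg_of_curve {S : Sys V I E} {d : E → ℤ} (hd : NonnegOnCurves S d) {i : E} (C : RatCurve S)
    (hC : C.deg i ≠ 0) (hC' : ∀ j, j ≠ i → C.deg j = 0) : 0 ≤ d i := by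
  have h1 := hd C
  rw [Finset.sum_eq_single i (fun j _ hj => by rw [hC' j hj]; simp) (fun h => absurd (Finset.mem_univ i) h)] at h1
  have h2 : (0 : ℤ) < (C.deg i : ℤ) := by exact_mod_cast Nat.pos_of_ne_zero hC
  exact nonneg_of_mul_nonneg_left h1 h2

/-- The numerical conditions of `exists_match_line` for `i₀ = i`: `h1` and the first inequality of `h2` from `two_le`. For the second: let `n = dim S.fac i`, the number of
coordinates is `n + 1` (`two`), so `∑ w ∈ W, e w i ≤ n + 1` (`cy`). If `∑ w ∈ W, e w i ≤ n`, use `two_le`. Otherwise the sum is `n + 1`; if `|W| ≥ 2` use `three_le`; if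
`W = {u}` then `e u i = n + 1`, use `hi`. -/
theorem nonneg_of_regular {S : Sys V I E} (hS : S.Wide) {d : E → ℤ} (hd : NonnegOnCurves S d) (i : E)
    (hi : ∀ u, S.e u i = dim S.fac i + 1 → 4 ≤ ∑ j ∈ factors S.e {u}, dim S.fac j) : 0 ≤ d i := by
  classical
  have mc : ∀ {i k}, k ∈ coords S.fac i ↔ S.fac k = i := by
    intro i k
    simp [coords]
  have hb0 : ∀ j, ∃ k, S.fac k = j := by
    intro j
    have h1 := S.two j
    obtain ⟨k, hk⟩ := Finset.card_pos.1 (show 0 < (coords S.fac j).card by omega)
    exact ⟨k, mc.1 hk⟩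
  choose b hb using hb0
  obtain ⟨b', hb', hbb⟩ : ∃ b', S.fac b' = i ∧ b' ≠ b i := by
    obtain ⟨k, hk, hk'⟩ := Finset.exists_mem_ne (show 1 < (coords S.fac i).card by have := S.two i; omega) (b i)
    exact ⟨k, mc.1 hk, hk'⟩
  have hcard : (coords S.fac i).card = dim S.fac i + 1 := by
    have := S.two i
    unfold dim
    omega
  have hmatch : ∃ f : (Σ q : V, Fin (S.e q i + 1)) → I ⊕ I, Match S.fac i b b' S.e f := by
    refine exists_match_line S.fac i b b' hb hb' hbb S.e ?_ ?_
    · intro W
      rcases W.eq_empty_or_nonempty with h1 | h1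
      · rw [h1]
        simp
      · have := hS.two_le W h1
        omega
    · intro W hiW
      have hW : W.Nonempty := by
        simp only [factors, Finset.mem_filter, Finset.mem_univ, true_and] at hiW
        obtain ⟨v, hv, _⟩ := hiW
        exact ⟨v, hv⟩
      have h2 := hS.two_le W hW
      refine ⟨by omega, ?_⟩
      have htot := S.cy i
      rw [hcard] at htot
      have hsplit : ∑ w ∈ W, S.e w i + ∑ w ∈ Wᶜ, S.e w i ≤ dim S.fac i + 1 := by
        rw [Finset.sum_add_sum_compl]
        exact htot
      by_cases hn : ∑ w ∈ W, S.e w i ≤ dim S.fac i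
      · omega
      · have hfull : ∑ w ∈ W, S.e w i = (coords S.fac i).card := by omega
        by_cases hc2 : 2 ≤ W.card
        · have h3 := hS.three_le W hc2 ⟨i, hiW, hfull⟩
          omega
        · have hc1 : W.card = 1 := by
            have := hW.card_pos
            omega
          obtain ⟨u, rfl⟩ := Finset.card_eq_one.1 hc1
          rw [Finset.sum_singleton] at hfull ⊢
          have h4 := hi u (by omega)
          rw [Finset.card_singleton]
          omega
  obtain ⟨f, hf⟩ := hmatch
  obtain ⟨P, Q, hN, h0⟩ := exists_line_of_match S.fac i b b' hb hb' hbb S.e S.F S.hF f hf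
  obtain ⟨C, hC⟩ := exists_curve_of_line S i hN h0
  refine nonneg_of_curve hd (i := i) C ?_ ?_
  · rw [hC, Pi.single_eq_same]
    exact one_ne_zero
  · intro j hj
    rw [hC, Pi.single_eq_of_ne hj]

end

end Pool.Agent.MP_cfacaa_ag.G
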