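import Pool.Agent.Lib.MP_cfacaa_ag.G.CubA
import Pool.Agent.Lib.MP_cfacaa_ag.G.Line

/-! Row cga-CubB: rational curves in a singular plane cubic. -/

namespace Pool.Agent.MP_cfacaa_ag.G

open MvPolynomial

section

variable {V I E : Type} [Fintype V] [Fintype I] [Fintype E]

/-- Division by the greatest common divisor: a family of polynomials, not all zero. (`Finset.extract_gcd`.) -/
theorem exists_reduced (s : Finset I) (c : I → Polynomial ℂ) (h : ∃ k ∈ s, c k ≠ 0) :
    ∃ (g : Polynomial ℂ) (c' : I → Polynomial ℂ), g ≠ 0 ∧ (∀ k ∈ s, c k = g * c' k) ∧ ∀ t : ℂ, ∃ k ∈ s, (c' k).eval t ≠ 0 := by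
  have hp : (Ideal.span (c '' (s : Set I))).IsPrincipal := IsPrincipalIdealRing.principal _
  obtain ⟨g, hg⟩ := hp
  have hg' : Ideal.span (c '' (s : Set I)) = Ideal.span {g} := hg
  have hdvd : ∀ k ∈ s, ∃ a, c k = g * a := by
    intro k hk
    have h1 : c k ∈ Ideal.span {g} := by
      rw [← hg']
      exact Ideal.subset_span ⟨k, hk, rfl⟩
    exact Ideal.mem_span_singleton.1 h1
  have hg0 : g ≠ 0 := by
    rintro rfl
    obtain ⟨k, hk, hne⟩ := h
    obtain ⟨a, ha⟩ := hdvd k hk
    exact hne (by rw [ha, zero_mul])
  classical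
  choose a ha using hdvd
  have hmem : g ∈ Submodule.span (Polynomial ℂ) (c '' (s : Set I)) := by
    have h1 : g ∈ Ideal.span (c '' (s : Set I)) := by
      rw [hg']
      exact Ideal.subset_span rfl
    exact h1
  obtain ⟨b, hb⟩ := (Submodule.mem_span_image_finset_iff_exists_fun (Polynomial ℂ)).1 hmem
  have ha' : ∀ k (hk : k ∈ s), (fun k => if hk : k ∈ s then a k hk else 0) k = a k hk :=
    fun k hk => dif_pos hk
  refine ⟨g, fun k => if hk : k ∈ s then a k hk else 0, hg0, fun k hk => ?_, fun t => ?_⟩
  · rw [ha' k hk]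
    exact ha k hk
  · by_contra hcon
    have hz : ∀ k (hk : k ∈ s), (a k hk).eval t = 0 := by
      intro k hk
      by_contra hne
      refine hcon ⟨k, hk, ?_⟩
      rw [ha' k hk]
      exact hne
    have h1 : g * (∑ k : s, b k * a k.1 k.2) = g * 1 := by
      rw [mul_one, Finset.mul_sum]
      conv_rhs => rw [← hb]
      refine Finset.sum_congr rfl fun k _ => ?_
      rw [smul_eq_mul, ha k.1 k.2]
      ring
    have h2 := congrArg (Polynomial.eval t) (mul_left_cancel₀ hg0 h1)
    rw [Polynomial.eval_finsetSum, Polynomial.eval_one] at h2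
    have h3 : ∑ k : s, Polynomial.eval t (b k * a k.1 k.2) = 0 :=
      Finset.sum_eq_zero fun k _ => by rw [Polynomial.eval_mul, hz k.1 k.2, mul_zero]
    exact zero_ne_one (h3.symm.trans h2)

/-- The factor `j` is involved in the equation `u` only. A point `x` of `X`, polynomials `c k` for the coordinates `k` of the factor `j` which satisfy `F u` and are not proportional to constants: then
there is a rational curve with degree `≠ 0` in `j` and `0` in the other factors. (Divide by the greatest common divisor `g` with `exists_reduced`, `aeval_smul_all`; if the degree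
were `0`, `c' = w` would be constant, `c k = g * C (w k)`.) -/
theorem exists_curve_of_polys (S : Sys V I E) {u : V} {j : E} (hu : ∀ w, w ≠ u → S.e w j = 0) {x : I → ℂ} (hx : x ∈ S.cone)
    (c : I → Polynomial ℂ) (hc : ∀ k, S.fac k ≠ j → c k = Polynomial.C (x k)) (h0 : aeval c (S.F u) = 0)
    (h1 : ∀ (g : Polynomial ℂ) (w : I → ℂ), ¬ ∀ k ∈ coords S.fac j, c k = g * Polynomial.C (w k)) :
    ∃ C : RatCurve S, C.deg j ≠ 0 ∧ ∀ i, i ≠ j → C.deg i = 0 := by
  classical
  have hne : ∃ k ∈ coords S.fac j, c k ≠ 0 := by
    by_contra hcon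
    refine h1 0 0 fun k hk => ?_
    rw [zero_mul]
    by_contra hk0
    exact hcon ⟨k, hk, hk0⟩
  obtain ⟨g, c', hg, hgc, hz⟩ := exists_reduced (coords S.fac j) c hne
  have hck : ∀ k, c k = (if S.fac k = j then g else 1) * (if S.fac k = j then c' k else Polynomial.C (x k)) := by
    intro k
    by_cases hk : S.fac k = j
    · rw [if_pos hk, if_pos hk]
      exact hgc k (mem_coords.2 hk)
    · rw [if_neg hk, if_neg hk, one_mul]
      exact hc k hk
  have hu0 : aeval (fun k => if S.fac k = j then c' k else Polynomial.C (x k)) (S.F u) = 0 := by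
    have e1 := aeval_smul_all (S.hF u) (fun k => if S.fac k = j then c' k else Polynomial.C (x k))
      (fun i => if i = j then g else 1)
    have e2 : (fun k => (if S.fac k = j then g else 1) * (if S.fac k = j then c' k else Polynomial.C (x k))) = c :=
      funext fun k => (hck k).symm
    rw [e2, h0] at e1
    have e3 : (∏ i, (if i = j then g else 1) ^ S.e u i) ≠ 0 := by
      rw [Finset.prod_ne_zero_iff]
      intro i _
      split_ifs
      · exact pow_ne_zero _ hg
      · exact pow_ne_zero _ one_ne_zero
    exact (mul_eq_zero.1 e1.symm).resolve_left e3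
  let C : RatCurve S :=
    { c := fun k => if S.fac k = j then c' k else Polynomial.C (x k)
      ne := by
        intro i t
        by_cases hi : i = j
        · obtain ⟨k, hk, hkt⟩ := hz t
          refine ⟨k, (mem_coords.1 hk).trans hi.symm, ?_⟩
          rw [if_pos (mem_coords.1 hk)]
          exact hkt
        · obtain ⟨k, hk, hkx⟩ := hx.1 i
          refine ⟨k, hk, ?_⟩
          rw [if_neg (fun h => hi (hk.symm.trans h)), Polynomial.eval_C]
          exact hkx
      on := by
        intro v
        by_cases hv : v = u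
        · rw [hv]
          exact hu0
        · have e1 := aeval_indep (S.hF v) (hu v hv)
            (x := fun k => if S.fac k = j then c' k else Polynomial.C (x k))
            (y := fun k => algebraMap ℂ (Polynomial ℂ) (x k)) (fun k hk => if_neg hk)
          rw [e1]
          have e2 : aeval (fun k => algebraMap ℂ (Polynomial ℂ) (x k)) (S.F v) =
              algebraMap ℂ (Polynomial ℂ) (aeval x (S.F v)) := MvPolynomial.aeval_algebraMap_apply _ _ _
          rw [e2, hx.2 v, map_zero] }
  refine ⟨C, fun hdeg => ?_, fun i hi => ?_⟩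
  · have hd : ∀ k ∈ coords S.fac j, (c' k).natDegree = 0 := by
      intro k hk
      have e1 : (C.c k).natDegree ≤ C.deg j := Finset.le_sup (f := fun k => (C.c k).natDegree) hk
      have e2 : C.c k = c' k := if_pos (mem_coords.1 hk)
      rw [hdeg, e2] at e1
      exact Nat.le_zero.1 e1
    refine h1 g (fun k => (c' k).coeff 0) fun k hk => ?_
    rw [hgc k hk, ← Polynomial.eq_C_of_natDegree_eq_zero (hd k hk)]
  · refine Nat.le_zero.1 (Finset.sup_le fun k hk => ?_)
    have e2 : C.c k = Polynomial.C (x k) := if_neg fun h => hi ((mem_coords.1 hk).symm.trans h)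
    rw [e2, Polynomial.natDegree_C]


end

end Pool.Agent.MP_cfacaa_ag.G
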