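import Pool.Agent.Lib.MP_cfacaa_ag.G.Val

/-! Row cga-Curve: points of rational curves. (Adapt `Pool/Agent/Lib/MP_cfacaa_ag/Curve.lean` and the end of `LineA.lean`.) -/

namespace Pool.Agent.MP_cfacaa_ag.G

open MvPolynomial

section

variable {V I E : Type} [Fintype V] [Fintype I] [Fintype E] [DecidableEq I] [DecidableEq E]

/-- The coefficients of `F u` as a quadratic form in the coordinates `k₀`, `k₁` do not vanish simultaneously on `X`. -/
def NoZero (S : Sys V I E) (u : V) (k₀ k₁ : I) : Prop :=
  ∀ x ∈ S.cone, ¬ (aeval (Function.update (Function.update x k₀ 1) k₁ 0) (S.F u) = 0 ∧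
    aeval (Function.update (Function.update x k₀ 0) k₁ 1) (S.F u) = 0 ∧
    aeval (Function.update (Function.update x k₀ 1) k₁ 1) (S.F u) = 0)

/-- the action of the involution on the classes -/
def refl (S : Sys V I E) (u : V) (a : E) (d : E → ℤ) : E → ℤ := fun j => if j = a then - d a else d j + d a * S.e u j

/-- if the degree of `F u` in the factor `a` is the number of coordinates, the other equations do not involve `a` -/
theorem e_eq_zero_of_ne {S : Sys V I E} {u : V} {a : E} (ha : S.e u a = (coords S.fac a).card) {w : V} (hw : w ≠ u) : S.e w a = 0 := by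
  classical
  have h1 := S.cy a
  have h2 : S.e u a + ∑ v ∈ Finset.univ.erase u, S.e v a ≤ (coords S.fac a).card := by
    rw [Finset.add_sum_erase _ (fun v => S.e v a) (Finset.mem_univ u)]
    exact h1
  have h3 : ∑ v ∈ Finset.univ.erase u, S.e v a = 0 := by omega
  rw [Finset.sum_eq_zero_iff] at h3
  exact h3 w (Finset.mem_erase.2 ⟨hw, Finset.mem_univ w⟩)

private theorem Curve_le {S : Sys V I E} (C : RatCurve S) (k : I) : (C.c k).natDegree ≤ C.deg (S.fac k) :=
  Finset.le_sup (f := fun k => (C.c k).natDegree) (mem_coords.2 rfl)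

/-- The point at infinity of a rational curve is on `X`. -/
theorem infinity_mem_cone {S : Sys V I E} (C : RatCurve S) : (fun k => (C.c k).coeff (C.deg (S.fac k))) ∈ S.cone := by
  constructor
  · intro i
    obtain ⟨k, hk, hk0⟩ := C.ne i 0
    by_cases h0 : C.deg i = 0
    · refine ⟨k, hk, ?_⟩
      have h1 := Curve_le C k
      rw [hk, h0] at h1
      have h2 : C.c k ≠ 0 := by
        intro h
        rw [h, Polynomial.eval_zero] at hk0
        exact hk0 rfl
      show (C.c k).coeff (C.deg (S.fac k)) ≠ 0
      rw [hk, h0, ← Nat.le_zero.1 h1, Polynomial.coeff_natDegree, Ne, Polynomial.leadingCoeff_eq_zero]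
      exact h2
    · obtain ⟨j, hj, hj1⟩ := Finset.exists_mem_eq_sup (coords S.fac i) ⟨k, mem_coords.2 hk⟩ fun k => (C.c k).natDegree
      have hd : C.deg i = (C.c j).natDegree := hj1
      refine ⟨j, mem_coords.1 hj, ?_⟩
      show (C.c j).coeff (C.deg (S.fac j)) ≠ 0
      rw [mem_coords.1 hj, hd, Polynomial.coeff_natDegree, Ne, Polynomial.leadingCoeff_eq_zero]
      intro h
      rw [hd, h, Polynomial.natDegree_zero] at h0
      exact h0 rfl
  · intro v
    rw [← coeff_aeval (S.hF v) C.c C.deg (Curve_le C), C.on v, Polynomial.coeff_zero]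

theorem eval_mem_cone {S : Sys V I E} (C : RatCurve S) (t : ℂ) : (fun k => (C.c k).eval t) ∈ S.cone := by
  constructor
  · exact fun i => C.ne i t
  · intro v
    rw [← eval_aeval, C.on v, Polynomial.eval_zero]

theorem natDegree_le_deg {S : Sys V I E} (C : RatCurve S) (k : I) : (C.c k).natDegree ≤ C.deg (S.fac k) :=
  Curve_le C k

private theorem Curve_C (x : I → ℂ) (P : MvPolynomial I ℂ) :
    aeval (fun k => Polynomial.C (x k)) P = Polynomial.C (aeval x P) :=
  MvPolynomial.aeval_algebraMap_apply (B := Polynomial ℂ) x P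

/-- If the three coefficients of `F u` as a quadratic form in the coordinates of the factor `a` vanish at a point of `X`, the line through this
point in the direction `a` is in `X` (the other equations do not involve `a`). -/
theorem exists_curve_of_zero (S : Sys V I E) {u : V} {a : E} (ha : S.e u a = 2) {k₀ k₁ : I} (hk : k₀ ≠ k₁)
    (hc : coords S.fac a = {k₀, k₁}) (h : ¬ NoZero S u k₀ k₁) : ∃ C : RatCurve S, C.deg a ≠ 0 ∧ ∀ i, i ≠ a → C.deg i = 0 := by
  unfold NoZero at h
  push Not at h
  obtain ⟨x, hx, h0, h1, h2⟩ := h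
  have hf0 : S.fac k₀ = a := mem_coords.1 (by rw [hc]; exact Finset.mem_insert_self _ _)
  have hf1 : S.fac k₁ = a := mem_coords.1 (by rw [hc]; exact Finset.mem_insert_of_mem (Finset.mem_singleton_self _))
  let c : I → Polynomial ℂ :=
    Function.update (Function.update (fun k => Polynomial.C (x k)) k₀ 1) k₁ Polynomial.X
  have hc1 : c k₁ = Polynomial.X := Function.update_self _ _ _
  have hc0 : c k₀ = 1 := by
    show Function.update (Function.update (fun k => Polynomial.C (x k)) k₀ 1) k₁ Polynomial.X k₀ = 1
    rw [Function.update_of_ne hk, Function.update_self]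
  have hcj : ∀ k, S.fac k ≠ a → c k = Polynomial.C (x k) := by
    intro k hka
    show Function.update (Function.update (fun k => Polynomial.C (x k)) k₀ 1) k₁ Polynomial.X k = Polynomial.C (x k)
    rw [Function.update_of_ne (fun h => hka (by rw [h, hf1])), Function.update_of_ne (fun h => hka (by rw [h, hf0]))]
  have hup : ∀ s t : ℂ, Function.update (Function.update (fun k => Polynomial.C (x k)) k₀ (Polynomial.C s)) k₁ (Polynomial.C t) =
      fun k => Polynomial.C (Function.update (Function.update x k₀ s) k₁ t k) := by
    intro s t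
    funext k
    by_cases hk1 : k = k₁
    · subst hk1
      rw [Function.update_self, Function.update_self]
    · rw [Function.update_of_ne hk1, Function.update_of_ne hk1]
      by_cases hk0 : k = k₀
      · subst hk0
        rw [Function.update_self, Function.update_self]
      · rw [Function.update_of_ne hk0, Function.update_of_ne hk0]
  have hon : ∀ v, aeval c (S.F v) = 0 := by
    intro v
    by_cases hv : v = u
    · subst hv
      have e0 := hup 1 0
      have e1 := hup 0 1
      have e2 := hup 1 1
      rw [Polynomial.C_1, Polynomial.C_0] at e0 e1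
      rw [Polynomial.C_1] at e2
      show aeval (Function.update (Function.update (fun k => Polynomial.C (x k)) k₀ 1) k₁ Polynomial.X) (S.F v) = 0
      rw [aeval_quad (S.hF v) ha hk hc, e0, e1, e2, Curve_C, Curve_C, Curve_C, h0, h1, h2, Polynomial.C_0]
      ring
    · have hcard : S.e u a = (coords S.fac a).card := by
        rw [ha, hc, Finset.card_pair hk]
      rw [aeval_indep (S.hF v) (e_eq_zero_of_ne hcard hv) hcj, Curve_C, hx.2 v, Polynomial.C_0]
  refine ⟨⟨c, ?_, hon⟩, ?_, ?_⟩
  · intro i t
    by_cases hi : i = a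
    · subst hi
      refine ⟨k₀, hf0, ?_⟩
      rw [hc0, Polynomial.eval_one]
      exact one_ne_zero
    · obtain ⟨k, hk', hk0⟩ := hx.1 i
      refine ⟨k, hk', ?_⟩
      rw [hcj k (by rw [hk']; exact hi), Polynomial.eval_C]
      exact hk0
  · intro h3
    have h4 : (c k₁).natDegree ≤ 0 := by
      rw [← h3]
      exact Finset.le_sup (f := fun k => (c k).natDegree) (mem_coords.2 hf1)
    rw [hc1, Polynomial.natDegree_X] at h4
    omega
  · intro i hi
    apply Nat.le_zero.1
    refine Finset.sup_le fun k hk' => ?_
    show (c k).natDegree ≤ 0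
    rw [hcj k (by rw [mem_coords.1 hk']; exact hi), Polynomial.natDegree_C]

end

end Pool.Agent.MP_cfacaa_ag.G
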