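import Pool.Agent.Lib.MP_cfacaa_ag.G.CubB
import Pool.Agent.Lib.MP_cfacaa_ag.G.Curve

/-! Row cga-CubC: rational curves in a singular plane cubic, conclusion. -/

namespace Pool.Agent.MP_cfacaa_ag.G

open MvPolynomial

section

variable {V I E : Type} [Fintype V] [Fintype I] [Fintype E]

open Classical in
private noncomputable def CubC_vec {I R : Type} [CommRing R] (k₁ k₂ : I) (a b : R) : I → R :=
  fun k => if k = k₁ then a else if k = k₂ then b else 0

private theorem CubC_vec_1 {I R : Type} [CommRing R] (k₁ k₂ : I) (a b : R) : CubC_vec k₁ k₂ a b k₁ = a := if_pos rfl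

private theorem CubC_vec_2 {I R : Type} [CommRing R] {k₁ k₂ : I} (h : k₁ ≠ k₂) (a b : R) :
    CubC_vec k₁ k₂ a b k₂ = b := by
  unfold CubC_vec
  rw [if_neg h.symm, if_pos rfl]

private theorem CubC_vec_0 {I R : Type} [CommRing R] {k₀ k₁ k₂ : I} (h : k₀ ≠ k₁) (h' : k₀ ≠ k₂) (a b : R) :
    CubC_vec k₁ k₂ a b k₀ = 0 := by
  unfold CubC_vec
  rw [if_neg h, if_neg h']

/-- the value on the line through `x` and `v` in the direction `j` -/
private noncomputable def CubC_val (S : Sys V I E) (u : V) (j : E) (x : I → ℂ) {R : Type} [CommRing R] [Algebra ℂ R]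
    (v : I → R) (α β : R) : R :=
  aeval (ln S.fac j (fun k => algebraMap ℂ R (x k)) v α β) (S.F u)

private theorem CubC_taylor (S : Sys V I E) {u : V} {j : E} (huj : S.e u j = 3)
    {x : I → ℂ} (hx : x ∈ S.cone) (h : ∀ k ∈ coords S.fac j, aeval x (pderiv k (S.F u)) = 0)
    {R : Type} [CommRing R] [Algebra ℂ R] (v : I → R) (α β : R) :
    CubC_val S u j x v α β = α * β ^ 2 * (CubC_val S u j x v 1 1 - CubC_val S u j x v 0 1) +
      β ^ 3 * CubC_val S u j x v 0 1 :=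
  cubic_taylor (S.hF u) huj x (hx.2 u) h v α β

private theorem CubC_eval (S : Sys V I E) (u : V) (j : E) (x : I → ℂ) (v : I → Polynomial ℂ) (α β : Polynomial ℂ)
    (t : ℂ) : (CubC_val S u j x v α β).eval t =
      CubC_val S u j x (fun k => (v k).eval t) (α.eval t) (β.eval t) := by
  unfold CubC_val
  rw [eval_aeval]
  congr 1
  congr 1
  funext k
  unfold ln
  split_ifs <;> simp

private theorem CubC_case1 (S : Sys V I E) {u : V} {j : E} (hj : (coords S.fac j).card = 3) (huj : S.e u j = 3)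
    {x : I → ℂ} (hx : x ∈ S.cone) (h : ∀ k ∈ coords S.fac j, aeval x (pderiv k (S.F u)) = 0) {k₀ k₁ k₂ : I}
    (h0 : k₀ ∈ coords S.fac j) (h1 : k₁ ∈ coords S.fac j) (h2 : k₂ ∈ coords S.fac j) (hx0 : x k₀ ≠ 0)
    (h01 : k₀ ≠ k₁) (h02 : k₀ ≠ k₂) (h12 : k₁ ≠ k₂)
    (hQ : CubC_val S u j x (CubC_vec k₁ k₂ 1 (Polynomial.X : Polynomial ℂ)) 1 1 -
      CubC_val S u j x (CubC_vec k₁ k₂ 1 (Polynomial.X : Polynomial ℂ)) 0 1 ≠ 0) :
    ∃ C : RatCurve S, C.deg j ≠ 0 ∧ ∀ i, i ≠ j → C.deg i = 0 := by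
  classical
  set v : I → Polynomial ℂ := CubC_vec k₁ k₂ 1 (Polynomial.X : Polynomial ℂ) with hv
  set Q := CubC_val S u j x v 1 1 - CubC_val S u j x v 0 1 with hQd
  set G := CubC_val S u j x v 0 1 with hG
  have hu : ∀ w, w ≠ u → S.e w j = 0 := fun w hw => e_eq_zero_of_ne (huj.trans hj.symm) hw
  refine exists_curve_of_polys S hu hx (ln S.fac j (fun k => algebraMap ℂ (Polynomial ℂ) (x k)) v (-G) Q)
    (fun k hk => by unfold ln; rw [if_neg hk]; rfl) ?_ ?_
  · have e := CubC_taylor S huj hx h v (-G) Q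
    rw [← hQd, ← hG] at e
    refine e.trans ?_
    ring
  · intro g w hgw
    have e0 := hgw k₀ h0
    have e1 := hgw k₁ h1
    have e2 := hgw k₂ h2
    unfold ln at e0 e1 e2
    rw [if_pos (mem_coords.1 h0), hv, CubC_vec_0 h01 h02] at e0
    rw [if_pos (mem_coords.1 h1), hv, CubC_vec_1] at e1
    rw [if_pos (mem_coords.1 h2), hv, CubC_vec_2 h12] at e2
    have hinv : Polynomial.C (x k₀) * Polynomial.C ((x k₀)⁻¹) = 1 := by
      rw [← Polynomial.C_mul, mul_inv_cancel₀ hx0, Polynomial.C_1]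
    have e0' : -G * Polynomial.C (x k₀) + Q * 0 = g * Polynomial.C (w k₀) := e0
    have e1' : -G * Polynomial.C (x k₁) + Q * 1 = g * Polynomial.C (w k₁) := e1
    have e2' : -G * Polynomial.C (x k₂) + Q * Polynomial.X = g * Polynomial.C (w k₂) := e2
    have hGg : -G = g * Polynomial.C (w k₀ * (x k₀)⁻¹) := by
      rw [Polynomial.C_mul]
      linear_combination (Polynomial.C ((x k₀)⁻¹)) * e0' + G * hinv
    have f1 : Q = g * Polynomial.C (w k₁ - w k₀ * (x k₀)⁻¹ * x k₁) := by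
      rw [Polynomial.C_sub, Polynomial.C_mul (a := w k₀ * (x k₀)⁻¹)]
      linear_combination e1' - (Polynomial.C (x k₁)) * hGg
    have f2 : Q * Polynomial.X = g * Polynomial.C (w k₂ - w k₀ * (x k₀)⁻¹ * x k₂) := by
      rw [Polynomial.C_sub, Polynomial.C_mul (a := w k₀ * (x k₀)⁻¹)]
      linear_combination e2' - (Polynomial.C (x k₂)) * hGg
    generalize w k₁ - w k₀ * (x k₀)⁻¹ * x k₁ = a at f1
    generalize w k₂ - w k₀ * (x k₀)⁻¹ * x k₂ = b at f2
    have hg : g ≠ 0 := by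
      rintro rfl
      exact hQ (by rw [f1, zero_mul])
    have f3 : Polynomial.C a * Polynomial.X = Polynomial.C b := by
      refine mul_left_cancel₀ hg ?_
      rw [← f2, f1]
      ring
    have f4 := congrArg (fun p => Polynomial.coeff p 1) f3
    simp only [Polynomial.coeff_C_mul, Polynomial.coeff_X_one, mul_one, Polynomial.coeff_C, one_ne_zero, if_false] at f4
    refine hQ ?_
    rw [f1, f4, Polynomial.C_0, mul_zero]

private theorem CubC_case2 (S : Sys V I E) {u : V} {j : E} (hj : (coords S.fac j).card = 3) (huj : S.e u j = 3)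
    {x : I → ℂ} (hx : x ∈ S.cone) (h : ∀ k ∈ coords S.fac j, aeval x (pderiv k (S.F u)) = 0) {k₀ k₁ k₂ : I}
    (h0 : k₀ ∈ coords S.fac j) (h1 : k₁ ∈ coords S.fac j) (hx0 : x k₀ ≠ 0)
    (h01 : k₀ ≠ k₁) (h02 : k₀ ≠ k₂)
    (hQ : CubC_val S u j x (CubC_vec k₁ k₂ 1 (Polynomial.X : Polynomial ℂ)) 1 1 -
      CubC_val S u j x (CubC_vec k₁ k₂ 1 (Polynomial.X : Polynomial ℂ)) 0 1 = 0) {t₀ : ℂ}
    (ht : (CubC_val S u j x (CubC_vec k₁ k₂ 1 (Polynomial.X : Polynomial ℂ)) 0 1).eval t₀ = 0) :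
    ∃ C : RatCurve S, C.deg j ≠ 0 ∧ ∀ i, i ≠ j → C.deg i = 0 := by
  classical
  have hu : ∀ w, w ≠ u → S.e w j = 0 := fun w hw => e_eq_zero_of_ne (huj.trans hj.symm) hw
  have hve : (fun k => (CubC_vec k₁ k₂ 1 (Polynomial.X : Polynomial ℂ) k).eval t₀) = CubC_vec k₁ k₂ 1 t₀ := by
    funext k
    unfold CubC_vec
    split_ifs <;> simp
  have hG : CubC_val S u j x (CubC_vec k₁ k₂ 1 t₀) 0 1 = 0 := by
    rw [CubC_eval, hve] at ht
    simpa using ht
  have hQ' : CubC_val S u j x (CubC_vec k₁ k₂ 1 t₀) 1 1 - CubC_val S u j x (CubC_vec k₁ k₂ 1 t₀) 0 1 = 0 := by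
    have e := congrArg (Polynomial.eval t₀) hQ
    rw [Polynomial.eval_sub, CubC_eval, CubC_eval, hve] at e
    simpa using e
  refine exists_curve_of_polys S hu hx (ln S.fac j (fun k => algebraMap ℂ (Polynomial ℂ) (x k))
    (fun k => Polynomial.C (CubC_vec k₁ k₂ 1 t₀ k)) 1 Polynomial.X)
    (fun k hk => by unfold ln; rw [if_neg hk]; rfl) ?_ ?_
  · refine Polynomial.funext fun t => ?_
    have e := CubC_eval S u j x (fun k => Polynomial.C (CubC_vec k₁ k₂ 1 t₀ k)) 1 Polynomial.X t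
    have e' := CubC_taylor S huj hx h (CubC_vec k₁ k₂ 1 t₀) 1 t
    rw [hQ', hG] at e'
    refine e.trans ?_
    simp only [Polynomial.eval_C, Polynomial.eval_one, Polynomial.eval_X, Polynomial.eval_zero]
    rw [e']
    ring
  · intro g w hgw
    have e0 := hgw k₀ h0
    have e1 := hgw k₁ h1
    unfold ln at e0 e1
    beta_reduce at e0 e1
    rw [if_pos (mem_coords.1 h0), CubC_vec_0 h01 h02] at e0
    rw [if_pos (mem_coords.1 h1), CubC_vec_1] at e1
    have e0' : (1 : Polynomial ℂ) * Polynomial.C (x k₀) + Polynomial.X * Polynomial.C 0 = g * Polynomial.C (w k₀) := e0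
    have e1' : (1 : Polynomial ℂ) * Polynomial.C (x k₁) + Polynomial.X * Polynomial.C 1 = g * Polynomial.C (w k₁) := e1
    rw [Polynomial.C_0, mul_zero, one_mul, add_zero] at e0'
    rw [Polynomial.C_1, mul_one, one_mul] at e1'
    have f3 : Polynomial.C (w k₀ * x k₁) + Polynomial.C (w k₀) * Polynomial.X = Polynomial.C (x k₀ * w k₁) := by
      rw [Polynomial.C_mul, Polynomial.C_mul]
      linear_combination (Polynomial.C (w k₀)) * e1' - (Polynomial.C (w k₁)) * e0'
    have f4 := congrArg (fun p => Polynomial.coeff p 1) f3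
    simp only [Polynomial.coeff_add, Polynomial.coeff_C_mul, Polynomial.coeff_X_one, mul_one, Polynomial.coeff_C, one_ne_zero,
      if_false, zero_add] at f4
    rw [f4, Polynomial.C_0, mul_zero] at e0'
    exact hx0 (Polynomial.C_eq_zero.1 e0')

/-- the value at infinity, scaling -/
private theorem CubC_scale (S : Sys V I E) {u : V} {j : E} (huj : S.e u j = 3) (x : I → ℂ) (k₁ k₂ : I) (a b t : ℂ) :
    CubC_val S u j x (CubC_vec k₁ k₂ (t * a) (t * b)) 0 1 = t ^ 3 * CubC_val S u j x (CubC_vec k₁ k₂ a b) 0 1 := by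
  classical
  unfold CubC_val
  have e := aeval_smul_all (S.hF u) (ln S.fac j (fun k => algebraMap ℂ ℂ (x k)) (CubC_vec k₁ k₂ a b) 0 1)
    (Function.update 1 j t)
  have hp : (∏ i, Function.update (1 : E → ℂ) j t i ^ S.e u i) = t ^ 3 := by
    rw [Finset.prod_eq_single j]
    · rw [Function.update_self, huj]
    · intro i _ hi
      rw [Function.update_of_ne hi, Pi.one_apply, one_pow]
    · intro hn
      exact absurd (Finset.mem_univ j) hn
  rw [hp] at e
  rw [← e]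
  congr 1
  congr 1
  funext k
  unfold ln CubC_vec
  by_cases hk : S.fac k = j
  · rw [if_pos hk, if_pos hk, hk, Function.update_self]
    split_ifs <;> ring
  · rw [if_neg hk, if_neg hk, Function.update_of_ne hk, Pi.one_apply, one_mul]

private theorem CubC_swap {I R : Type} [CommRing R] {k₁ k₂ : I} (h : k₁ ≠ k₂) (a b : R) :
    CubC_vec k₂ k₁ a b = CubC_vec k₁ k₂ b a := by
  funext k
  unfold CubC_vec
  by_cases h1 : k = k₁
  · subst h1
    rw [if_neg h, if_pos rfl, if_pos rfl]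
  · rw [if_neg h1, if_neg h1]

/-- Let `k₀, k₁, k₂` be the coordinates of the factor `j`, `x k₀ ≠ 0`. For `v : I → ℂ[T]` supported on the factor `j` let `G v` be the value of `F u` at the point with coordinates `v` in `j`, and
`x` outside, and `Q v = (value at x + v) - G v`; by `cubic_taylor` the value at `α x + β v` is `α β² Q v + β³ G v`.
(1) Let `v = e₁ + T e₂` (`v k₀ = 0`, `v k₁ = 1`, `v k₂ = T`). If `Q v ≠ 0` take `α = - G v`, `β = Q v`: the value is `0`; `c = - G v • x + Q v • v` is not proportional to constants: `c = g w` gives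
`- G v x k₀ = g w₀`, `- G v x k₁ + Q v = g w₁`, `- G v x k₂ + Q v T = g w₂`, so `Q v` and `Q v T` are constant multiples of `g`: `T` would be constant. Use `exists_curve_of_polys`.
(2) The same for `v' = e₂ + T e₁`.
(3) If `Q v = 0` and `Q v' = 0`: if `G v` has a root `T₀` then the line through `x` and `v(T₀)` is in the zero set: `c k = x k + T * v(T₀) k`, the value is `0` by `cubic_taylor` (evaluate: `Q (v(T₀)) = 0`,
`G (v(T₀)) = 0`); it is not proportional to constants. Similarly if `G v'` has a root. One of them has a root: otherwise both are nonzero constants `γ`, `γ'`, but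
`G v'(T) = T³ G v(1/T)` for `T ≠ 0`, so `γ' = γ` (`T = 1`) and `γ' = 8 γ` (`T = 2`). -/
theorem exists_curve_of_sing (S : Sys V I E) {u : V} {j : E} (hj : (coords S.fac j).card = 3) (huj : S.e u j = 3)
    {x : I → ℂ} (hx : x ∈ S.cone) (h : ∀ k ∈ coords S.fac j, aeval x (pderiv k (S.F u)) = 0) :
    ∃ C : RatCurve S, C.deg j ≠ 0 ∧ ∀ i, i ≠ j → C.deg i = 0 := by
  classical
  obtain ⟨k₀, hk0, hx0⟩ := hx.1 j
  have h0 : k₀ ∈ coords S.fac j := mem_coords.2 hk0
  have hc : ((coords S.fac j).erase k₀).card = 2 := by rw [Finset.card_erase_of_mem h0, hj]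
  obtain ⟨k₁, k₂, h12, he⟩ := Finset.card_eq_two.1 hc
  have m1 : k₁ ∈ (coords S.fac j).erase k₀ := by rw [he]; simp
  have m2 : k₂ ∈ (coords S.fac j).erase k₀ := by rw [he]; simp
  obtain ⟨h01, h1⟩ := Finset.mem_erase.1 m1
  obtain ⟨h02, h2⟩ := Finset.mem_erase.1 m2
  by_cases hQ : CubC_val S u j x (CubC_vec k₁ k₂ 1 (Polynomial.X : Polynomial ℂ)) 1 1 -
      CubC_val S u j x (CubC_vec k₁ k₂ 1 (Polynomial.X : Polynomial ℂ)) 0 1 = 0
  swap
  · exact CubC_case1 S hj huj hx h h0 h1 h2 hx0 h01.symm h02.symm h12 hQ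
  by_cases hQ' : CubC_val S u j x (CubC_vec k₂ k₁ 1 (Polynomial.X : Polynomial ℂ)) 1 1 -
      CubC_val S u j x (CubC_vec k₂ k₁ 1 (Polynomial.X : Polynomial ℂ)) 0 1 = 0
  swap
  · exact CubC_case1 S hj huj hx h h0 h2 h1 hx0 h02.symm h01.symm h12.symm hQ'
  by_cases hr : ∃ t₀, (CubC_val S u j x (CubC_vec k₁ k₂ 1 (Polynomial.X : Polynomial ℂ)) 0 1).eval t₀ = 0
  · obtain ⟨t₀, ht⟩ := hr
    exact CubC_case2 S hj huj hx h h0 h1 hx0 h01.symm h02.symm hQ ht
  by_cases hr' : ∃ t₀, (CubC_val S u j x (CubC_vec k₂ k₁ 1 (Polynomial.X : Polynomial ℂ)) 0 1).eval t₀ = 0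
  · obtain ⟨t₀, ht⟩ := hr'
    exact CubC_case2 S hj huj hx h h0 h2 hx0 h02.symm h01.symm hQ' ht
  exfalso
  have hve : ∀ (k₁ k₂ : I) (t : ℂ), (fun k => (CubC_vec k₁ k₂ 1 (Polynomial.X : Polynomial ℂ) k).eval t) = CubC_vec k₁ k₂ 1 t := by
    intro k₁ k₂ t
    funext k
    unfold CubC_vec
    split_ifs <;> simp
  have key : ∀ (k₁ k₂ : I) (t : ℂ), (CubC_val S u j x (CubC_vec k₁ k₂ 1 (Polynomial.X : Polynomial ℂ)) 0 1).eval t =
      CubC_val S u j x (CubC_vec k₁ k₂ 1 t) 0 1 := by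
    intro k₁ k₂ t
    rw [CubC_eval, hve, Polynomial.eval_zero, Polynomial.eval_one]
  have cst : ∀ (p : Polynomial ℂ), (¬ ∃ t, p.eval t = 0) → ∀ s t : ℂ, p.eval s = p.eval t := by
    intro p hp s t
    have hd : p.degree = 0 := by
      by_contra hd
      obtain ⟨z, hz⟩ := IsAlgClosed.exists_root p hd
      exact hp ⟨z, hz⟩
    rw [Polynomial.eq_C_of_degree_le_zero hd.le]
    simp
  have a1 := cst _ hr 1 (1 / 2)
  have a2 := cst _ hr' 1 2
  rw [key, key] at a1 a2
  have a3 : CubC_val S u j x (CubC_vec k₂ k₁ 1 (2 : ℂ)) 0 1 = 2 ^ 3 * CubC_val S u j x (CubC_vec k₁ k₂ 1 (1 / 2 : ℂ)) 0 1 := by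
    rw [CubC_swap h12, ← CubC_scale S huj]
    norm_num
  rw [CubC_swap h12, a3, ← a1] at a2
  refine hr ⟨1, ?_⟩
  rw [key]
  linear_combination (-1 / 7) * a2

end

end Pool.Agent.MP_cfacaa_ag.G
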