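import Mathlib

/-!
Complete intersections in products of projective spaces: points, line bundles, sections, rational
curves.
-/

namespace Pool.Agent.MP_cfacaa_ag.G

open MvPolynomial

open Classical in
/-- The homogeneous coordinates `k : I` which belong to the factor `i : E`. -/
noncomputable def coords {I E : Type} [Fintype I] (fac : I → E) (i : E) : Finset I :=
  Finset.univ.filter fun k => fac k = i

/-- The dimension of the factor `i`: the number of its homogeneous coordinates minus one. -/
noncomputable def dim {I E : Type} [Fintype I] (fac : I → E) (i : E) : ℕ := (coords fac i).card - 1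

/-- `P` is multihomogeneous of multidegree `e`: every monomial of `P` has degree `e i` in the coordinates of the
factor `i`, for every `i`. -/
def IsMH {I E K : Type} [Fintype I] [CommSemiring K] (fac : I → E) (e : E → ℕ) (P : MvPolynomial I K) : Prop :=
  ∀ m ∈ P.support, ∀ i, ∑ k ∈ coords fac i, m k = e i

/-- A system of equations `F v = 0`, `v : V`, in a product of projective spaces: the factors are indexed by `E`, the
homogeneous coordinates by `I`, the coordinate `k` belongs to the factor `fac k`, every factor has at least two
coordinates; `F v` is multihomogeneous of multidegree `e v`, and for every factor `i` the sum of the `e v i` is at most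
the number of coordinates of this factor. (When the common zero set `X` is smooth of dimension `∑ i, dim i - |V|`, then by the
adjunction formula the anticanonical class of `X` is the sum of the nonnegative multiples
`(number of coordinates of the factor i) - ∑ v, e v i` of the hyperplane classes `H i`; in particular `X` is a Calabi–Yau manifold if
equality holds for all `i`.) -/
structure Sys (V I E : Type) [Fintype V] [Fintype I] where
  /-- the factor of a coordinate -/
  fac : I → E
  two : ∀ i, 2 ≤ (coords fac i).card
  /-- the multidegrees -/
  e : V → E → ℕ
  /-- the equations -/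
  F : V → MvPolynomial I ℂ
  hF : ∀ v, IsMH fac (e v) (F v)
  cy : ∀ i, ∑ v, e v i ≤ (coords fac i).card

section

variable {V I E : Type} [Fintype V] [Fintype I] [Fintype E] (S : Sys V I E)

/-- The cone over `X`: the families of homogeneous coordinates of the points of `X`. -/
def Sys.cone : Set (I → ℂ) := {x | (∀ i, ∃ k, S.fac k = i ∧ x k ≠ 0) ∧ ∀ v, aeval x (S.F v) = 0}

/-- A morphism from the projective line to `X`, written in an affine coordinate as a family of polynomials which
satisfy the equations; the polynomials of every factor have no common zero. -/
structure RatCurve where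
  /-- the coordinates -/
  c : I → Polynomial ℂ
  ne : ∀ (i : E) (t : ℂ), ∃ k, S.fac k = i ∧ (c k).eval t ≠ 0
  on : ∀ v, aeval c (S.F v) = 0

/-- The degree of the pullback of the hyperplane class `H i` of the `i`-th factor to the curve. -/
noncomputable def RatCurve.deg {S : Sys V I E} (C : RatCurve S) (i : E) : ℕ :=
  (coords S.fac i).sup fun k => (C.c k).natDegree

/-- The class `∑ d i • H i` is nonnegative on all rational curves of `X`. -/
def NonnegOnCurves (d : E → ℤ) : Prop := ∀ C : RatCurve S, 0 ≤ ∑ i, d i * (C.deg i : ℤ)

/-- `s` is a section of the line bundle `𝒪_X(d)`: locally on the cone `s` is `P / Q` with multihomogeneous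
polynomials `P`, `Q` of multidegrees `p`, `q`, `p - q = d`. -/
def IsSection (d : E → ℤ) (s : (I → ℂ) → ℂ) : Prop :=
  ∀ x ∈ S.cone, ∃ (p q : E → ℕ) (P Q : MvPolynomial I ℂ), IsMH S.fac p P ∧ IsMH S.fac q Q ∧
    (∀ i, (p i : ℤ) - q i = d i) ∧ aeval x Q ≠ 0 ∧ ∀ y ∈ S.cone, aeval y Q ≠ 0 → s y * aeval y Q = aeval y P

/-- The line bundle `𝒪_X(d)` is globally generated: finitely many sections have no common zero on
`X`. -/
def GloballyGenerated (d : E → ℤ) : Prop :=
  ∃ (n : ℕ) (s : Fin n → (I → ℂ) → ℂ), (∀ k, IsSection S d (s k)) ∧
    ∀ x ∈ S.cone, ∃ k, s k x ≠ 0

open Classical in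
/-- The factors which are involved in the equations `w ∈ W`. -/
noncomputable def factors {V E : Type} [Fintype E] (e : V → E → ℕ) (W : Finset V) : Finset E :=
  Finset.univ.filter fun i => ∃ v ∈ W, e v i ≠ 0

/-- The numerical conditions on the multidegrees. For a set `W` of equations let `c W` be the sum of the dimensions
of the factors involved in `W` minus `|W|` (the expected dimension of the projection of `X` to these factors).
`c W ≥ 2` for all nonempty `W`; `c W ≥ 3` if `W` has at least two elements and the degrees of the equations of `W` in some
factor `i` have the largest possible sum, the number of coordinates of `i`; if `c {u} = 2`, then the degree of `F u` in some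
factor involved in `F u` is smaller than the number of coordinates of this factor. -/
structure Sys.Wide : Prop where
  two_le : ∀ W : Finset V, W.Nonempty → W.card + 2 ≤ ∑ i ∈ factors S.e W, dim S.fac i
  three_le : ∀ W : Finset V, 2 ≤ W.card → (∃ i ∈ factors S.e W, ∑ w ∈ W, S.e w i = (coords S.fac i).card) →
    W.card + 3 ≤ ∑ i ∈ factors S.e W, dim S.fac i
  linked : ∀ u, ∑ i ∈ factors S.e {u}, dim S.fac i = 3 → ∃ j, S.e u j ≠ 0 ∧ S.e u j < (coords S.fac j).card

end

end Pool.Agent.MP_cfacaa_ag.G
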