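import Pool.Agent.Lib.MP_cfacaa_ag.G.Chart
import Pool.Agent.Lib.MP_cfacaa_ag.G.Hom

/-! Row cga-Exp: the expansion of a form along a line in the direction of a factor. -/

namespace Pool.Agent.MP_cfacaa_ag.G

open MvPolynomial

/-- the exponent `(n - r, r)` -/
private noncomputable def expD (n r : ℕ) : Fin 2 →₀ ℕ := Finsupp.single 0 (n - r) + Finsupp.single 1 r

private theorem expD_zero (n r : ℕ) : expD n r 0 = n - r := by
  simp [expD]

private theorem expD_one (n r : ℕ) : expD n r 1 = r := by
  simp [expD]

/-- a binary form is the sum of its terms -/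
private theorem exp_binary {A L : Type} [CommRing A] [CommRing L] (φ : A →+* L) (s t : L) (n : ℕ)
    (g : MvPolynomial (Fin 2) A) (hg : g.IsHomogeneous n) :
    eval₂ φ ![s, t] g = ∑ r ∈ Finset.range (n + 1), s ^ (n - r) * t ^ r * φ (coeff (expD n r) g) := by
  classical
  have hinj : Set.InjOn (expD n) (Finset.range (n + 1) : Finset ℕ) := by
    intro a _ b _ hab
    have := DFunLike.congr_fun hab 1
    rwa [expD_one, expD_one] at this
  have hsub : g.support ⊆ (Finset.range (n + 1)).image (expD n) := by
    intro d hd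
    have h1 : coeff d g ≠ 0 := mem_support_iff.mp hd
    have h2 : d.degree = n := by
      rw [Finsupp.degree_eq_weight_one]
      exact hg h1
    have h3 : d 0 + d 1 = n := by
      rw [← h2, Finsupp.degree_eq_sum, Fin.sum_univ_two]
    refine Finset.mem_image.mpr ⟨d 1, Finset.mem_range.mpr (by omega), ?_⟩
    ext i
    fin_cases i
    · change expD n (d 1) 0 = d 0
      rw [expD_zero]; omega
    · change expD n (d 1) 1 = d 1
      rw [expD_one]
  rw [eval₂_eq']
  rw [Finset.sum_subset hsub]
  · rw [Finset.sum_image hinj]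
    refine Finset.sum_congr rfl fun r _ => ?_
    rw [Fin.prod_univ_two, expD_zero, expD_one]
    simp only [Matrix.cons_val_zero, Matrix.cons_val_one]
    ring
  · intro d _ hd
    rw [notMem_support_iff.mp hd, map_zero, zero_mul]

/-- The value of `G` at the point `(s, t)` of a line whose points have coordinates polynomial in `z` is a binary form of degree `e i₀` in
`(s, t)` with coefficients polynomial in `z`. (Sum over the monomials `m` of `G`: the coordinates outside the factor `i₀` give
a polynomial in `z`; those in the factor `i₀` give a product of `∑ m k = e i₀` linear forms `s P k + t Q k`; products of binary forms of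
degrees `d`, `d'` are binary forms of degree `d + d'`. Suggestion: prove by induction that the functions of the form
`∑ r ∈ range (d + 1), s ^ (d - r) * t ^ r * aeval z (c r)` are closed under products and sums, with one polynomial
identity for all `L`: work in `MvPolynomial ((σ ⊕ Fin 2)) ℂ`, or quantify over `L`.) -/
theorem exists_coeffs {I E σ : Type} [Fintype I] [Fintype E] {fac : I → E} {e : E → ℕ} {G : MvPolynomial I ℂ}
    (hG : IsMH fac e G) (i₀ : E) (P Q : I → MvPolynomial σ ℂ) :
    ∃ c : ℕ → MvPolynomial σ ℂ, ∀ (L : Type) [Field L] [Algebra ℂ L] (z : σ → L) (s t : L),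
      aeval (ln fac i₀ (fun k => aeval z (P k)) (fun k => aeval z (Q k)) s t) G =
        ∑ r ∈ Finset.range (e i₀ + 1), s ^ (e i₀ - r) * t ^ r * aeval z (c r) := by
  classical
  set v : I → MvPolynomial (Fin 2) (MvPolynomial σ ℂ) :=
    ln fac i₀ (fun k => C (P k)) (fun k => C (Q k)) (X 0) (X 1) with hv
  set g : MvPolynomial (Fin 2) (MvPolynomial σ ℂ) := aeval v G with hgdef
  have hvk : ∀ k, (v k).IsHomogeneous (if fac k = i₀ then 1 else 0) := by
    intro k
    by_cases hk : fac k = i₀
    · rw [if_pos hk, hv]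
      unfold ln
      rw [if_pos hk]
      refine IsHomogeneous.add ?_ ?_
      · exact (isHomogeneous_X _ _).mul (isHomogeneous_C _ _)
      · exact (isHomogeneous_X _ _).mul (isHomogeneous_C _ _)
    · rw [if_neg hk, hv]
      unfold ln
      rw [if_neg hk]
      exact isHomogeneous_C _ _
  have hg : g.IsHomogeneous (e i₀) := by
    rw [hgdef, aeval_def, eval₂_eq']
    refine IsHomogeneous.sum _ _ _ fun m hm => ?_
    have h1 : (∏ i, v i ^ m i).IsHomogeneous (∑ i, (if fac i = i₀ then 1 else 0) * m i) :=
      IsHomogeneous.prod _ _ _ fun i _ => (hvk i).pow (m i)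
    have h2 : (∑ i, (if fac i = i₀ then 1 else 0) * m i) = e i₀ := by
      rw [← hG m hm i₀, coords, Finset.sum_filter]
      refine Finset.sum_congr rfl fun k _ => ?_
      split_ifs <;> simp
    rw [h2] at h1
    have h3 : (algebraMap ℂ (MvPolynomial (Fin 2) (MvPolynomial σ ℂ)) (coeff m G)).IsHomogeneous 0 := by
      have : algebraMap ℂ (MvPolynomial (Fin 2) (MvPolynomial σ ℂ)) (coeff m G) =
          C (C (coeff m G)) := rfl
      rw [this]
      exact isHomogeneous_C _ _
    have h4 := h3.mul h1
    rwa [zero_add] at h4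
  refine ⟨fun r => coeff (expD (e i₀) r) g, ?_⟩
  intro L _ _ z s t
  have h1 : eval₂ ((aeval z : MvPolynomial σ ℂ →ₐ[ℂ] L) : MvPolynomial σ ℂ →+* L) ![s, t] g =
      aeval (ln fac i₀ (fun k => aeval z (P k)) (fun k => aeval z (Q k)) s t) G := by
    have h2 : eval₂Hom ((aeval z : MvPolynomial σ ℂ →ₐ[ℂ] L) : MvPolynomial σ ℂ →+* L) ![s, t] g =
        aeval (ln fac i₀ (fun k => aeval z (P k)) (fun k => aeval z (Q k)) s t) G := by
      rw [hgdef, map_aeval, aeval_def, coe_eval₂Hom]
      have e1 : (eval₂Hom ((aeval z : MvPolynomial σ ℂ →ₐ[ℂ] L) : MvPolynomial σ ℂ →+* L) ![s, t]).comp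
          (algebraMap ℂ (MvPolynomial (Fin 2) (MvPolynomial σ ℂ))) = algebraMap ℂ L := by
        ext x
        have e3 : algebraMap ℂ (MvPolynomial (Fin 2) (MvPolynomial σ ℂ)) x = C (C x) := rfl
        rw [RingHom.comp_apply, e3, eval₂Hom_C]
        exact aeval_C z x
      have e2 : (fun k => eval₂Hom ((aeval z : MvPolynomial σ ℂ →ₐ[ℂ] L) : MvPolynomial σ ℂ →+* L) ![s, t] (v k)) =
          ln fac i₀ (fun k => aeval z (P k)) (fun k => aeval z (Q k)) s t := by
        funext k
        rw [hv]
        unfold ln
        by_cases hk : fac k = i₀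
        · rw [if_pos hk, if_pos hk, map_add, map_mul, map_mul, eval₂Hom_X', eval₂Hom_X', eval₂Hom_C, eval₂Hom_C]
          rfl
        · rw [if_neg hk, if_neg hk, eval₂Hom_C]
          rfl
      rw [e1, e2]
    exact h2
  rw [← h1, exp_binary _ s t (e i₀) g hg]
  rfl

end Pool.Agent.MP_cfacaa_ag.G
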