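import Pool.Agent.Lib.MP_cfacaa_ag.G.Sec

/-! Row cga-Gen: globally generated classes. (Adapt `Pool/Agent/Lib/MP_cfacaa_ag/Gen.lean`.) -/

namespace Pool.Agent.MP_cfacaa_ag.G

open MvPolynomial

section

variable {V I E : Type} [Fintype V] [Fintype I] [Fintype E] [DecidableEq I] [DecidableEq E]

theorem globallyGenerated_of_refl {S : Sys V I E} {u : V} {a : E} (ha : S.e u a = 2) {k₀ k₁ : I} (hk : k₀ ≠ k₁)
    (hc : coords S.fac a = {k₀, k₁}) (h0 : NoZero S u k₀ k₁) {d : E → ℤ}
    (hd : GloballyGenerated S (refl S u a d)) : GloballyGenerated S d := by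
  obtain ⟨n, s, hs, hs'⟩ := hd
  exact ⟨n, fun k x => s k (inv S u k₀ k₁ x), fun k => isSection_comp_inv ha hk hc h0 (hs k),
    fun x hx => hs' _ (inv_mem_cone ha hk hc h0 hx)⟩

/-- The monomials `∏ i, x (σ i) ^ d i`, `σ : E → I` with `fac (σ i) = i`. -/
theorem globallyGenerated_of_nonneg (S : Sys V I E) {d : E → ℤ} (hd : ∀ i, 0 ≤ d i) : GloballyGenerated S d := by
  classical
  refine ⟨Fintype.card {σ : E → I // ∀ i, S.fac (σ i) = i}, fun k x =>
    ∏ i, x (((Fintype.equivFin {σ : E → I // ∀ i, S.fac (σ i) = i}).symm k).1 i) ^ (d i).toNat,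
    fun k => ?_, fun x hx => ?_⟩
  · dsimp only
    generalize (Fintype.equivFin {σ : E → I // ∀ i, S.fac (σ i) = i}).symm k = σ'
    obtain ⟨σ, hσ⟩ := σ'
    intro x _
    have hP : IsMH S.fac (fun j => (d j).toNat)
        (∏ i, (X (σ i) : MvPolynomial I ℂ) ^ (d i).toNat) := by
      have h := IsMH.prod (fac := S.fac) Finset.univ (e := fun i j => (d i).toNat * (Pi.single i 1 : E → ℕ) j)
        (P := fun i => (X (σ i) : MvPolynomial I ℂ) ^ (d i).toNat)
        (fun i _ => by
          have h1 := (isMH_X (K := ℂ) S.fac (σ i)).pow (d i).toNat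
          rw [hσ i] at h1
          exact h1)
      have e : (fun j => ∑ i, (d i).toNat * (Pi.single i 1 : E → ℕ) j) = fun j => (d j).toNat := by
        funext j
        rw [Finset.sum_eq_single j]
        · simp
        · intro i _ hij
          rw [Pi.single_apply, if_neg (Ne.symm hij), mul_zero]
        · intro h
          exact absurd (Finset.mem_univ j) h
      rw [e] at h
      exact h
    refine ⟨fun j => (d j).toNat, fun _ => 0, _, C 1, hP, isMH_C S.fac 1, fun i => ?_, ?_, fun y _ _ => ?_⟩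
    · rw [Int.toNat_of_nonneg (hd i)]
      simp
    · simp
    · simp
  · have h1 : ∀ i, ∃ k, S.fac k = i ∧ x k ≠ 0 := hx.1
    choose σ hσ hσ' using h1
    refine ⟨Fintype.equivFin {σ : E → I // ∀ i, S.fac (σ i) = i} ⟨σ, hσ⟩, ?_⟩
    simp only [Equiv.symm_apply_apply]
    exact Finset.prod_ne_zero_iff.2 fun i _ => pow_ne_zero _ (hσ' i)

end

end Pool.Agent.MP_cfacaa_ag.G
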