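import Pool.Agent.Lib.MP_cfacaa_ag.G.Chart
import Pool.Agent.Lib.MP_cfacaa_ag.G.Hom

/-! Row cga-HallP: Hall's theorem. -/

namespace Pool.Agent.MP_cfacaa_ag.G

section

variable {V I E : Type} [Fintype V] [Fintype I] [Fintype E]

/-- Hall's theorem (`Finset.all_card_le_biUnion_card_iff_exists_injective`) for the sets `N p` of coordinates `k ≠ b (fac k)` with `e p (fac k) ≠ 0`: the union of the
`N p`, `p ∈ W`, has `∑ i ∈ factors e W, dim fac i` elements. -/
theorem exists_match_plain (fac : I → E) (b : E → I) (hb : ∀ j, fac (b j) = j) (e : V → E → ℕ)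
    (h : ∀ W : Finset V, W.card ≤ ∑ i ∈ factors e W, dim fac i) :
    ∃ f : V → I, Function.Injective f ∧ (∀ q, f q ≠ b (fac (f q))) ∧ ∀ q, e q (fac (f q)) ≠ 0 := by
  classical
  obtain ⟨f, hf, hf2⟩ := (Finset.all_card_le_biUnion_card_iff_exists_injective
    (fun p : V => (Finset.univ.filter fun k : I => k ≠ b (fac k) ∧ e p (fac k) ≠ 0))).1
    (fun W => by
      refine (h W).trans ?_
      have h1 : ∑ i ∈ factors e W, dim fac i =
          ((factors e W).biUnion fun i => (coords fac i).erase (b i)).card := by
        rw [Finset.card_biUnion]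
        · refine Finset.sum_congr rfl fun i _ => ?_
          have hbi : b i ∈ coords fac i := by
            unfold coords
            rw [Finset.mem_filter]
            exact ⟨Finset.mem_univ _, hb i⟩
          rw [Finset.card_erase_of_mem hbi]
          rfl
        · intro i _ j _ hij
          rw [Function.onFun, Finset.disjoint_left]
          intro k hk hk'
          have h2 := Finset.mem_of_mem_erase hk
          have h3 := Finset.mem_of_mem_erase hk'
          unfold coords at h2 h3
          rw [Finset.mem_filter] at h2 h3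
          exact hij (h2.2.symm.trans h3.2)
      rw [h1]
      refine Finset.card_le_card fun k hk => ?_
      rw [Finset.mem_biUnion] at hk
      obtain ⟨i, hi, hk⟩ := hk
      rw [Finset.mem_erase] at hk
      obtain ⟨hk1, hk2⟩ := hk
      unfold coords at hk2
      rw [Finset.mem_filter] at hk2
      obtain ⟨_, rfl⟩ := hk2
      unfold factors at hi
      rw [Finset.mem_filter] at hi
      obtain ⟨_, v, hv, hv2⟩ := hi
      rw [Finset.mem_biUnion]
      exact ⟨v, hv, Finset.mem_filter.2 ⟨Finset.mem_univ _, hk1, hv2⟩⟩)
  exact ⟨f, hf, fun k => (Finset.mem_filter.1 (hf2 k)).2.1, fun k => (Finset.mem_filter.1 (hf2 k)).2.2⟩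

end

end Pool.Agent.MP_cfacaa_ag.G
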