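import Mathlib

/-! Row cga-IFT: solutions for small parameters. -/

namespace Pool.Agent.MP_cfacaa_ag.G

open MvPolynomial

/-- The map `(lam, z) ↦ (lam, A z + lam G(z))` of `ℂ × ℂ^σ` to `ℂ × ℂ^ρ` has at `(0, 0)` the strict derivative `(lam, z) ↦ (lam, A z + lam G(0))`, which
is surjective; so by `HasStrictFDerivAt.map_nhds_eq_of_surj` every point near `(0, 0)`, in particular `(lam, 0)` for small `lam`, is in its image.
(The map is analytic: `AnalyticAt.aeval_mvPolynomial`, `AnalyticAt.hasStrictFDerivAt`, or `ContDiffAt.hasStrictFDerivAt`; for the derivative of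
`lam * G(z)` at `(0, 0)` use the product rule: `lam` vanishes at `0`.) -/
theorem eventually_exists {σ ρ : Type} [Fintype σ] [Fintype ρ] (A : ρ → σ → ℂ)
    (hA : ∀ w : ρ → ℂ, ∃ z : σ → ℂ, ∀ r, ∑ s, A r s * z s = w r) (G : ρ → MvPolynomial σ ℂ) :
    ∀ᶠ lam in nhds (0 : ℂ), ∃ z : σ → ℂ, ∀ r, ∑ s, A r s * z s + lam * aeval z (G r) = 0 := by
  classical
  let Φ : ℂ × (σ → ℂ) → ℂ × (ρ → ℂ) := fun p =>
    (p.1, fun r => ∑ s, A r s * p.2 s + p.1 * aeval p.2 (G r))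
  -- the strict derivative of the polynomial part
  have hg : ∀ r, ∃ g' : ℂ × (σ → ℂ) →L[ℂ] ℂ,
      HasStrictFDerivAt (fun p : ℂ × (σ → ℂ) => aeval p.2 (G r)) g' (0, 0) := by
    intro r
    have ha : AnalyticAt ℂ (fun p : ℂ × (σ → ℂ) => aeval p.2 (G r)) (0, 0) := by
      refine AnalyticAt.aeval_mvPolynomial (f := fun p : ℂ × (σ → ℂ) => p.2) (fun i => ?_) (G r)
      exact ((ContinuousLinearMap.proj (R := ℂ) (φ := fun _ : σ => ℂ) i).comp
        (ContinuousLinearMap.snd ℂ ℂ (σ → ℂ))).analyticAt _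
    exact ⟨_, ha.hasStrictFDerivAt⟩
  choose g' hg' using hg
  let ℓ : ρ → (ℂ × (σ → ℂ) →L[ℂ] ℂ) := fun r =>
    ∑ s, A r s • ((ContinuousLinearMap.proj (R := ℂ) (φ := fun _ : σ => ℂ) s).comp
        (ContinuousLinearMap.snd ℂ ℂ (σ → ℂ)))
  let Φ' : ℂ × (σ → ℂ) →L[ℂ] ℂ × (ρ → ℂ) :=
    (ContinuousLinearMap.fst ℂ ℂ (σ → ℂ)).prod (ContinuousLinearMap.pi fun r =>
      ℓ r + ((0 : ℂ) • g' r + (aeval (0 : σ → ℂ) (G r)) • ContinuousLinearMap.fst ℂ ℂ (σ → ℂ)))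
  have hℓ : ∀ r (p : ℂ × (σ → ℂ)), ℓ r p = ∑ s, A r s * p.2 s := by
    intro r p
    simp [ℓ]
  have hΦ : HasStrictFDerivAt Φ Φ' (0, 0) := by
    refine HasStrictFDerivAt.prodMk hasStrictFDerivAt_fst ?_
    refine hasStrictFDerivAt_pi.2 fun r => ?_
    have h1 : HasStrictFDerivAt (fun p : ℂ × (σ → ℂ) => ∑ s, A r s * p.2 s) (ℓ r) (0, 0) := by
      have h := (ℓ r).hasStrictFDerivAt (x := ((0 : ℂ), (0 : σ → ℂ)))
      have he : (fun p : ℂ × (σ → ℂ) => ∑ s, A r s * p.2 s) = ℓ r := by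
        funext p; exact (hℓ r p).symm
      rw [he]
      exact h
    have h2 : HasStrictFDerivAt (fun p : ℂ × (σ → ℂ) => p.1 * aeval p.2 (G r))
        ((0 : ℂ) • g' r + (aeval (0 : σ → ℂ) (G r)) • ContinuousLinearMap.fst ℂ ℂ (σ → ℂ)) (0, 0) :=
      (hasStrictFDerivAt_fst (𝕜 := ℂ) (E := ℂ) (F := σ → ℂ) (p := (0, 0))).mul (hg' r)
    exact h1.add h2
  have hsurj : Φ'.range = ⊤ := by
    rw [LinearMap.range_eq_top]
    rintro ⟨lam, w⟩
    obtain ⟨z, hz⟩ := hA fun r => w r - lam * aeval (0 : σ → ℂ) (G r)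
    refine ⟨(lam, z), ?_⟩
    refine Prod.ext rfl ?_
    funext r
    have : ℓ r (lam, z) + ((0 : ℂ) • g' r + (aeval (0 : σ → ℂ) (G r)) •
        ContinuousLinearMap.fst ℂ ℂ (σ → ℂ)) (lam, z) = w r := by
      rw [hℓ]
      have h3 := hz r
      simp only [] at h3 ⊢
      rw [h3]
      simp
      ring
    exact this
  have hmap := hΦ.map_nhds_eq_of_surj hsurj
  have hΦ0 : Φ (0, 0) = (0, 0) := by
    refine Prod.ext rfl ?_
    funext r
    simp [Φ]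
  rw [hΦ0] at hmap
  have hev : ∀ᶠ q in nhds ((0 : ℂ), (0 : ρ → ℂ)), q ∈ Set.range Φ := by
    rw [← hmap]
    exact Filter.Eventually.of_forall (f := nhds ((0 : ℂ), (0 : σ → ℂ))) fun p => ⟨p, rfl⟩
  have hcont : Filter.Tendsto (fun lam : ℂ => (lam, (0 : ρ → ℂ))) (nhds 0)
      (nhds ((0 : ℂ), (0 : ρ → ℂ))) := by
    have : Continuous fun lam : ℂ => (lam, (0 : ρ → ℂ)) := by fun_prop
    exact this.tendsto 0
  filter_upwards [hcont.eventually hev] with lam hlam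
  obtain ⟨⟨mu, z⟩, hz⟩ := hlam
  have h1 : mu = lam := congrArg Prod.fst hz
  subst h1
  exact ⟨z, fun r => congrFun (congrArg Prod.snd hz) r⟩

end Pool.Agent.MP_cfacaa_ag.G
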