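import Pool.Agent.Lib.MP_cfacaa_ag.G.Curve
import Pool.Agent.Lib.MP_cfacaa_ag.Quad

/-! Row cga-Image: the image of a rational curve under the involution. (Adapt `Pool/Agent/Lib/MP_cfacaa_ag/Image.lean`.) -/

namespace Pool.Agent.MP_cfacaa_ag.G

open MvPolynomial

section

variable {V I E : Type} [Fintype V] [Fintype I] [Fintype E] [DecidableEq I] [DecidableEq E]

private theorem Image_upd {R : Type} (c : I → R) (k₀ k₁ : I) (X Y : R) (k : I) :
    Function.update (Function.update c k₀ X) k₁ Y k =
      if k = k₁ then Y else if k = k₀ then X else c k := by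
  by_cases h1 : k = k₁
  · rw [if_pos h1, h1, Function.update_self]
  · rw [if_neg h1, Function.update_of_ne h1]
    by_cases h0 : k = k₀
    · rw [if_pos h0, h0, Function.update_self]
    · rw [if_neg h0, Function.update_of_ne h0]

private theorem Image_eval_update (c : I → Polynomial ℂ) (k₀ k₁ : I) (x y : ℂ) (t : ℂ) :
    (fun k => (Function.update (Function.update c k₀ (Polynomial.C x)) k₁ (Polynomial.C y) k).eval t) =
      Function.update (Function.update (fun k => (c k).eval t) k₀ x) k₁ y := by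
  funext k
  rw [Image_upd, Image_upd]
  by_cases h1 : k = k₁
  · rw [if_pos h1, if_pos h1, Polynomial.eval_C]
  · rw [if_neg h1, if_neg h1]
    by_cases h0 : k = k₀
    · rw [if_pos h0, if_pos h0, Polynomial.eval_C]
    · rw [if_neg h0, if_neg h0]

private theorem Image_coeff_update {fac : I → E} {a : E} {k₀ k₁ : I} (hc : coords fac a = {k₀, k₁})
    (c : I → Polynomial ℂ) (x y : ℂ) (δ : E → ℕ) :
    (fun k => (Function.update (Function.update c k₀ (Polynomial.C x)) k₁ (Polynomial.C y) k).coeff
        (Function.update δ a 0 (fac k))) =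
      Function.update (Function.update (fun k => (c k).coeff (δ (fac k))) k₀ x) k₁ y := by
  have f0 : fac k₀ = a := mem_coords.1 (by rw [hc]; simp)
  have f1 : fac k₁ = a := mem_coords.1 (by rw [hc]; simp)
  funext k
  rw [Image_upd, Image_upd]
  by_cases h1 : k = k₁
  · rw [if_pos h1, if_pos h1, h1, f1, Function.update_self, Polynomial.coeff_C_zero]
  · rw [if_neg h1, if_neg h1]
    by_cases h0 : k = k₀
    · rw [if_pos h0, if_pos h0, h0, f0, Function.update_self, Polynomial.coeff_C_zero]
    · rw [if_neg h0, if_neg h0]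
      have hk : fac k ≠ a := by
        intro h
        have h2 : k ∈ coords fac a := mem_coords.2 h
        rw [hc, Finset.mem_insert, Finset.mem_singleton] at h2
        rcases h2 with h2 | h2
        · exact h0 h2
        · exact h1 h2
      rw [Function.update_of_ne hk]

private theorem Image_sum {e : E → ℕ} {δ : E → ℕ} (a : E) :
    ∑ i, e i * Function.update δ a 0 i = ∑ j ∈ Finset.univ.erase a, e j * δ j := by
  rw [← Finset.add_sum_erase _ _ (Finset.mem_univ a), Function.update_self, mul_zero, zero_add]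
  refine Finset.sum_congr rfl fun i hi => ?_
  rw [Function.update_of_ne (Finset.ne_of_mem_erase hi)]

private theorem Image_deg_le {S : Sys V I E} (C : RatCurve S) {a : E} {k₀ k₁ : I} (hc : coords S.fac a = {k₀, k₁})
    (x y : ℂ) (k : I) :
    (Function.update (Function.update C.c k₀ (Polynomial.C x)) k₁ (Polynomial.C y) k).natDegree ≤
      Function.update C.deg a 0 (S.fac k) := by
  rw [Image_upd]
  by_cases h1 : k = k₁
  · rw [if_pos h1, Polynomial.natDegree_C]
    exact Nat.zero_le _
  · rw [if_neg h1]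
    by_cases h0 : k = k₀
    · rw [if_pos h0, Polynomial.natDegree_C]
      exact Nat.zero_le _
    · rw [if_neg h0]
      have hk : S.fac k ≠ a := by
        intro h
        have h2 : k ∈ coords S.fac a := mem_coords.2 h
        rw [hc, Finset.mem_insert, Finset.mem_singleton] at h2
        rcases h2 with h2 | h2
        · exact h0 h2
        · exact h1 h2
      rw [Function.update_of_ne hk]
      exact natDegree_le_deg C k

private theorem Image_deg_pair {fac : I → E} {a : E} {k₀ k₁ : I}
    (hc : coords fac a = {k₀, k₁}) (c : I → Polynomial ℂ) :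
    ((coords fac a).sup fun k => (c k).natDegree) = max (c k₀).natDegree (c k₁).natDegree := by
  rw [hc, Finset.sup_insert, Finset.sup_singleton]

theorem exists_image {S : Sys V I E} {u : V} {a : E} (ha : S.e u a = 2) {k₀ k₁ : I} (hk : k₀ ≠ k₁)
    (hc : coords S.fac a = {k₀, k₁}) (h0 : NoZero S u k₀ k₁) (C : RatCurve S) :
    ∃ C' : RatCurve S, (∀ j, j ≠ a → C'.deg j = C.deg j) ∧
      C.deg a + C'.deg a = ∑ j ∈ Finset.univ.erase a, S.e u j * C.deg j := by
  classical
  have f0 : S.fac k₀ = a := mem_coords.1 (by rw [hc]; simp)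
  have f1 : S.fac k₁ = a := mem_coords.1 (by rw [hc]; simp)
  have hcard : (coords S.fac a).card = 2 := by rw [hc, Finset.card_pair hk]
  set D := ∑ j ∈ Finset.univ.erase a, S.e u j * C.deg j with hD
  have e1' : (1 : Polynomial ℂ) = Polynomial.C 1 := Polynomial.C_1.symm
  have e0' : (0 : Polynomial ℂ) = Polynomial.C 0 := Polynomial.C_0.symm
  obtain ⟨α, hα⟩ : ∃ α, α = aeval (Function.update (Function.update C.c k₀ (Polynomial.C 1)) k₁ (Polynomial.C 0))
    (S.F u) := ⟨_, rfl⟩
  obtain ⟨γ, hγ⟩ : ∃ γ, γ = aeval (Function.update (Function.update C.c k₀ (Polynomial.C 0)) k₁ (Polynomial.C 1))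
    (S.F u) := ⟨_, rfl⟩
  obtain ⟨σ, hσ⟩ : ∃ σ, σ = aeval (Function.update (Function.update C.c k₀ (Polynomial.C 1)) k₁ (Polynomial.C 1))
    (S.F u) := ⟨_, rfl⟩
  have hquad : ∀ X Y : Polynomial ℂ, aeval (Function.update (Function.update C.c k₀ X) k₁ Y) (S.F u) =
      α * X ^ 2 + (σ - α - γ) * (X * Y) + γ * Y ^ 2 := by
    intro X Y
    rw [hα, hγ, hσ, ← e1', ← e0']
    exact aeval_quad (S.hF u) ha hk hc C.c X Y
  obtain ⟨P, hP⟩ : ∃ P, P = C.c k₀ := ⟨_, rfl⟩
  obtain ⟨Q, hQ⟩ : ∃ Q, Q = C.c k₁ := ⟨_, rfl⟩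
  have hcop : IsCoprime P Q := by
    rw [Polynomial.isCoprime_iff_aeval_ne_zero_of_isAlgClosed ℂ ℂ]
    intro t
    obtain ⟨k, hk1, hk2⟩ := C.ne a t
    have h2 : k ∈ coords S.fac a := mem_coords.2 hk1
    rw [hc, Finset.mem_insert, Finset.mem_singleton] at h2
    rcases h2 with h2 | h2
    · left
      rw [hP, ← h2, Polynomial.coe_aeval_eq_eval]
      exact hk2
    · right
      rw [hQ, ← h2, Polynomial.coe_aeval_eq_eval]
      exact hk2
  have hself : Function.update (Function.update C.c k₀ P) k₁ Q = C.c := by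
    rw [hP, Function.update_eq_self, hQ, Function.update_eq_self]
  have heq : α * P ^ 2 + (σ - α - γ) * (P * Q) + γ * Q ^ 2 = 0 := by
    rw [← hquad, hself, C.on u]
  obtain ⟨P', Q', e1, e2, e3⟩ := exists_second_root hcop heq
  -- no common zeros
  have hz : ∀ t : ℂ, ¬ (α.eval t = 0 ∧ (σ - α - γ).eval t = 0 ∧ γ.eval t = 0) := by
    rintro t ⟨z1, z2, z3⟩
    rw [Polynomial.eval_sub, Polynomial.eval_sub, z1, z3, sub_zero, sub_zero] at z2
    refine h0 _ (eval_mem_cone C t) ⟨?_, ?_, ?_⟩
    · rw [hα, eval_aeval, Image_eval_update] at z1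
      exact z1
    · rw [hγ, eval_aeval, Image_eval_update] at z3
      exact z3
    · rw [hσ, eval_aeval, Image_eval_update] at z2
      exact z2
  have hcop' : IsCoprime P' Q' := coprime_second_root hz e1 e2 e3
  -- degrees
  have dα : α.natDegree ≤ D := by
    rw [hα, hD, ← Image_sum]
    exact natDegree_aeval_le (S.hF u) _ _ (Image_deg_le C hc 1 0)
  have dγ : γ.natDegree ≤ D := by
    rw [hγ, hD, ← Image_sum]
    exact natDegree_aeval_le (S.hF u) _ _ (Image_deg_le C hc 0 1)
  have dσ : σ.natDegree ≤ D := by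
    rw [hσ, hD, ← Image_sum]
    exact natDegree_aeval_le (S.hF u) _ _ (Image_deg_le C hc 1 1)
  have dβ : (σ - α - γ).natDegree ≤ D :=
    (Polynomial.natDegree_sub_le _ _).trans (max_le
      ((Polynomial.natDegree_sub_le _ _).trans (max_le dσ dα)) dγ)
  have hcoef : ¬ (α.coeff D = 0 ∧ (σ - α - γ).coeff D = 0 ∧ γ.coeff D = 0) := by
    rintro ⟨z1, z2, z3⟩
    rw [Polynomial.coeff_sub, Polynomial.coeff_sub, z1, z3, sub_zero, sub_zero] at z2
    refine h0 _ (infinity_mem_cone C) ⟨?_, ?_, ?_⟩
    · rw [hα, hD, ← Image_sum, coeff_aeval (S.hF u) _ _ (Image_deg_le C hc 1 0),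
        Image_coeff_update hc] at z1
      exact z1
    · rw [hγ, hD, ← Image_sum, coeff_aeval (S.hF u) _ _ (Image_deg_le C hc 0 1),
        Image_coeff_update hc] at z3
      exact z3
    · rw [hσ, hD, ← Image_sum, coeff_aeval (S.hF u) _ _ (Image_deg_le C hc 1 1),
        Image_coeff_update hc] at z2
      exact z2
  have hdeg := degree_second_root hcop hcop' e1 e2 e3 dα dβ dγ hcoef
  have hne : ∀ k, S.fac k ≠ a → k ≠ k₀ ∧ k ≠ k₁ := by
    intro k hk
    refine ⟨?_, ?_⟩
    · intro h
      exact hk (h ▸ f0)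
    · intro h
      exact hk (h ▸ f1)
  have hupd : ∀ k, S.fac k ≠ a → Function.update (Function.update C.c k₀ P') k₁ Q' k = C.c k := by
    intro k hk
    rw [Image_upd, if_neg (hne k hk).2, if_neg (hne k hk).1]
  refine ⟨⟨Function.update (Function.update C.c k₀ P') k₁ Q', ?_, ?_⟩, ?_, ?_⟩
  · intro i t
    by_cases hi : i = a
    · rw [hi]
      rw [Polynomial.isCoprime_iff_aeval_ne_zero_of_isAlgClosed ℂ ℂ] at hcop'
      rcases hcop' t with h | h
      · refine ⟨k₀, f0, ?_⟩
        rw [Image_upd, if_neg hk, if_pos rfl]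
        rw [Polynomial.coe_aeval_eq_eval] at h
        exact h
      · refine ⟨k₁, f1, ?_⟩
        rw [Image_upd, if_pos rfl]
        rw [Polynomial.coe_aeval_eq_eval] at h
        exact h
    · obtain ⟨k, hk1, hk2⟩ := C.ne i t
      refine ⟨k, hk1, ?_⟩
      rw [hupd k (by rw [hk1]; exact hi)]
      exact hk2
  · intro v
    by_cases hv : v = u
    · subst hv
      rw [hquad, ← e1, ← e2]
      have : σ - α - γ = -(P * Q' + P' * Q) := by rw [e3, neg_neg]
      rw [← e1, ← e2] at this
      rw [this]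
      ring
    · have hv0 : S.e v a = 0 := e_eq_zero_of_ne (by rw [ha, hcard]) hv
      rw [aeval_indep (S.hF v) hv0 (fun k hk' => hupd k hk')]
      exact C.on v
  · intro j hj
    show ((coords S.fac j).sup fun k => (Function.update (Function.update C.c k₀ P') k₁ Q' k).natDegree) =
      (coords S.fac j).sup fun k => (C.c k).natDegree
    refine Finset.sup_congr rfl fun k hk' => ?_
    rw [hupd k (by rw [mem_coords.1 hk']; exact hj)]
  · show ((coords S.fac a).sup fun k => (C.c k).natDegree) +
      ((coords S.fac a).sup fun k => (Function.update (Function.update C.c k₀ P') k₁ Q' k).natDegree) = D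
    rw [Image_deg_pair hc, Image_deg_pair hc, Image_upd, Image_upd, if_neg hk, if_pos rfl, if_pos rfl,
      ← hP, ← hQ]
    exact hdeg

theorem nonnegOnCurves_refl {S : Sys V I E} {u : V} {a : E} (ha : S.e u a = 2) {k₀ k₁ : I} (hk : k₀ ≠ k₁)
    (hc : coords S.fac a = {k₀, k₁}) (h0 : NoZero S u k₀ k₁) {d : E → ℤ} (hd : NonnegOnCurves S d) :
    NonnegOnCurves S (refl S u a d) := by
  classical
  intro C
  obtain ⟨C', h1, h2⟩ := exists_image ha hk hc h0 C
  have h3 := hd C'
  have h4 : (C.deg a : ℤ) + C'.deg a = ∑ j ∈ Finset.univ.erase a, (S.e u j : ℤ) * C.deg j := by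
    exact_mod_cast h2
  have key : ∑ i, refl S u a d i * (C.deg i : ℤ) = ∑ i, d i * (C'.deg i : ℤ) := by
    rw [← Finset.add_sum_erase _ _ (Finset.mem_univ a),
      ← Finset.add_sum_erase (Finset.univ) (fun i => d i * (C'.deg i : ℤ)) (Finset.mem_univ a)]
    have e1 : refl S u a d a = - d a := by simp [refl]
    have e2 : ∑ j ∈ Finset.univ.erase a, refl S u a d j * (C.deg j : ℤ) =
        ∑ j ∈ Finset.univ.erase a, d j * (C'.deg j : ℤ) +
          d a * ∑ j ∈ Finset.univ.erase a, (S.e u j : ℤ) * C.deg j := by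
      rw [Finset.mul_sum, ← Finset.sum_add_distrib]
      refine Finset.sum_congr rfl fun j hj => ?_
      have hj' := Finset.ne_of_mem_erase hj
      rw [h1 j hj']
      simp only [refl, if_neg hj']
      ring
    rw [e1, e2, ← h4]
    ring
  rw [key]
  exact h3

end

end Pool.Agent.MP_cfacaa_ag.G
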