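import Pool.Agent.Lib.MP_cfacaa_ag.G.Curve

/-! Row cga-Inv: the involution. (Adapt `Pool/Agent/Lib/MP_cfacaa_ag/Inv.lean`.) -/

namespace Pool.Agent.MP_cfacaa_ag.G

open MvPolynomial

section

variable {V I E : Type} [Fintype V] [Fintype I] [Fintype E] [DecidableEq I] [DecidableEq E]

open Classical in
/-- The involution. The pair `(X, Y) = (x k₀, x k₁)` is replaced by `(X', Y')` with `X X' = C`, `Y Y' = A`, `X Y' + X' Y = -B`, where
`A X² + B X Y + C Y²` is the quadratic form `F u`. -/
noncomputable def inv (S : Sys V I E) (u : V) (k₀ k₁ : I) (x : I → ℂ) : I → ℂ :=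
  let A := aeval (Function.update (Function.update x k₀ 1) k₁ 0) (S.F u)
  let C := aeval (Function.update (Function.update x k₀ 0) k₁ 1) (S.F u)
  let B := aeval (Function.update (Function.update x k₀ 1) k₁ 1) (S.F u) - A - C
  if x k₀ ≠ 0 then Function.update (Function.update x k₀ (C * x k₀ / x k₀ ^ 2)) k₁ ((- B * x k₀ - C * x k₁) / x k₀ ^ 2)
  else Function.update (Function.update x k₀ ((- B * x k₁ - A * x k₀) / x k₁ ^ 2)) k₁ (A * x k₁ / x k₁ ^ 2)

private theorem Inv_eq {S : Sys V I E} {u : V} {a : E} (ha : S.e u a = 2) {k₀ k₁ : I} (hk : k₀ ≠ k₁)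
    (hc : coords S.fac a = {k₀, k₁}) {x : I → ℂ} (hx : x ∈ S.cone) :
    aeval (Function.update (Function.update x k₀ 1) k₁ 0) (S.F u) * x k₀ ^ 2 +
        (aeval (Function.update (Function.update x k₀ 1) k₁ 1) (S.F u) -
          aeval (Function.update (Function.update x k₀ 1) k₁ 0) (S.F u) -
          aeval (Function.update (Function.update x k₀ 0) k₁ 1) (S.F u)) * (x k₀ * x k₁) +
        aeval (Function.update (Function.update x k₀ 0) k₁ 1) (S.F u) * x k₁ ^ 2 = 0 := by
  have h1 := aeval_quad (S.hF u) ha hk hc x (x k₀) (x k₁)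
  rw [Function.update_eq_self, Function.update_eq_self] at h1
  rw [← h1]
  exact hx.2 u

/-- the values of the involution where `X ≠ 0` -/
theorem inv_of_ne_zero (S : Sys V I E) (u : V) (k₀ k₁ : I) {x : I → ℂ} (h : x k₀ ≠ 0) :
    inv S u k₀ k₁ x = Function.update (Function.update x k₀
      ((x k₀ ^ 2)⁻¹ * (aeval (Function.update (Function.update x k₀ 0) k₁ 1) (S.F u) * x k₀))) k₁
      ((x k₀ ^ 2)⁻¹ * (- (aeval (Function.update (Function.update x k₀ 1) k₁ 1) (S.F u) -
          aeval (Function.update (Function.update x k₀ 1) k₁ 0) (S.F u) -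
          aeval (Function.update (Function.update x k₀ 0) k₁ 1) (S.F u)) * x k₀ -
          aeval (Function.update (Function.update x k₀ 0) k₁ 1) (S.F u) * x k₁)) := by
  unfold inv
  simp only [ne_eq, h, not_false_eq_true, if_true]
  rw [div_eq_inv_mul, div_eq_inv_mul]

/-- the values of the involution where `Y ≠ 0`, on the cone (the two formulas agree because of the equation) -/
theorem inv_of_ne_zero' {S : Sys V I E} {u : V} {a : E} (ha : S.e u a = 2) {k₀ k₁ : I} (hk : k₀ ≠ k₁)
    (hc : coords S.fac a = {k₀, k₁}) {x : I → ℂ} (hx : x ∈ S.cone) (h : x k₁ ≠ 0) :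
    inv S u k₀ k₁ x = Function.update (Function.update x k₀
      ((x k₁ ^ 2)⁻¹ * (- (aeval (Function.update (Function.update x k₀ 1) k₁ 1) (S.F u) -
          aeval (Function.update (Function.update x k₀ 1) k₁ 0) (S.F u) -
          aeval (Function.update (Function.update x k₀ 0) k₁ 1) (S.F u)) * x k₁ -
          aeval (Function.update (Function.update x k₀ 1) k₁ 0) (S.F u) * x k₀))) k₁
      ((x k₁ ^ 2)⁻¹ * (aeval (Function.update (Function.update x k₀ 1) k₁ 0) (S.F u) * x k₁)) := by
  have heq := Inv_eq ha hk hc hx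
  unfold inv
  by_cases h0 : x k₀ = 0
  · simp only [h0, ne_eq, not_true_eq_false, if_false]
    rw [div_eq_inv_mul, div_eq_inv_mul]
  · simp only [ne_eq, h0, not_false_eq_true, if_true]
    set A := aeval (Function.update (Function.update x k₀ 1) k₁ 0) (S.F u) with hA
    set C := aeval (Function.update (Function.update x k₀ 0) k₁ 1) (S.F u) with hC
    set D := aeval (Function.update (Function.update x k₀ 1) k₁ 1) (S.F u) with hD
    have e1 : C * x k₀ / x k₀ ^ 2 = (x k₁ ^ 2)⁻¹ * (-(D - A - C) * x k₁ - A * x k₀) := by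
      field_simp
      linear_combination heq
    have e2 : (-(D - A - C) * x k₀ - C * x k₁) / x k₀ ^ 2 = (x k₁ ^ 2)⁻¹ * (A * x k₁) := by
      field_simp
      linear_combination -heq
    rw [e1, e2]

/-- The image of a point of the cone is in the cone. -/
theorem inv_mem_cone {S : Sys V I E} {u : V} {a : E} (ha : S.e u a = 2) {k₀ k₁ : I} (hk : k₀ ≠ k₁)
    (hc : coords S.fac a = {k₀, k₁}) (h0 : NoZero S u k₀ k₁) {x : I → ℂ} (hx : x ∈ S.cone) : inv S u k₀ k₁ x ∈ S.cone := by
  have heq := Inv_eq ha hk hc hx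
  have hne := h0 x hx
  have hcard : S.e u a = (coords S.fac a).card := by
    rw [ha, hc, Finset.card_pair hk]
  have hf0 : S.fac k₀ = a := by
    have : k₀ ∈ coords S.fac a := by rw [hc]; exact Finset.mem_insert_self _ _
    exact mem_coords.1 this
  have hf1 : S.fac k₁ = a := by
    have : k₁ ∈ coords S.fac a := by
      rw [hc]
      exact Finset.mem_insert_of_mem (Finset.mem_singleton_self _)
    exact mem_coords.1 this
  set A := aeval (Function.update (Function.update x k₀ 1) k₁ 0) (S.F u) with hA
  set C := aeval (Function.update (Function.update x k₀ 0) k₁ 1) (S.F u) with hC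
  set D := aeval (Function.update (Function.update x k₀ 1) k₁ 1) (S.F u) with hD
  -- the general step
  have key : ∀ (lam P Q : ℂ), lam ≠ 0 → inv S u k₀ k₁ x =
      Function.update (Function.update x k₀ (lam * P)) k₁ (lam * Q) →
      ¬ (P = 0 ∧ Q = 0) → A * P ^ 2 + (D - A - C) * (P * Q) + C * Q ^ 2 = 0 →
      inv S u k₀ k₁ x ∈ S.cone := by
    intro lam P Q hlam hinv hPQ hq
    rw [hinv]
    have hoff : ∀ k, S.fac k ≠ a →
        Function.update (Function.update x k₀ (lam * P)) k₁ (lam * Q) k = x k := by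
      intro k hk'
      rw [Function.update_of_ne, Function.update_of_ne]
      · rintro rfl
        exact hk' hf0
      · rintro rfl
        exact hk' hf1
    refine ⟨fun i => ?_, fun w => ?_⟩
    · by_cases hi : i = a
      · subst hi
        by_cases hP : P = 0
        · refine ⟨k₁, hf1, ?_⟩
          rw [Function.update_self]
          exact mul_ne_zero hlam fun hQ => hPQ ⟨hP, hQ⟩
        · refine ⟨k₀, hf0, ?_⟩
          rw [Function.update_of_ne hk, Function.update_self]
          exact mul_ne_zero hlam hP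
      · obtain ⟨k, hk1, hk2⟩ := hx.1 i
        refine ⟨k, hk1, ?_⟩
        rw [hoff k (by rw [hk1]; exact hi)]
        exact hk2
    · by_cases hw : w = u
      · subst hw
        rw [aeval_quad (S.hF w) ha hk hc, ← hA, ← hC, ← hD]
        linear_combination (lam ^ 2) * hq
      · rw [aeval_indep (S.hF w) (e_eq_zero_of_ne hcard hw) hoff]
        exact hx.2 w
  by_cases hX : x k₀ = 0
  · have hY : x k₁ ≠ 0 := by
      obtain ⟨k, hk1, hk2⟩ := hx.1 a
      have hk3 : k ∈ coords S.fac a := mem_coords.2 hk1
      rw [hc, Finset.mem_insert, Finset.mem_singleton] at hk3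
      rcases hk3 with rfl | rfl
      · exact absurd hX hk2
      · exact hk2
    refine key ((x k₁ ^ 2)⁻¹) _ _ (inv_ne_zero (pow_ne_zero 2 hY)) (inv_of_ne_zero' ha hk hc hx hY) ?_ ?_
    · rintro ⟨e1, e2⟩
      rw [← hA] at e2
      have hA0 : A = 0 := by
        rcases mul_eq_zero.1 e2 with h | h
        · exact h
        · exact absurd h hY
      rw [← hA, ← hC, ← hD, hA0, zero_mul, sub_zero, neg_mul, neg_eq_zero] at e1
      have hB0 : D - 0 - C = 0 := by
        rcases mul_eq_zero.1 e1 with h | h
        · exact h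
        · exact absurd h hY
      rw [hA0, hX, hB0] at heq
      have hC0 : C = 0 := by
        simp only [zero_mul, zero_add] at heq
        rcases mul_eq_zero.1 heq with h | h
        · exact h
        · exact absurd (pow_eq_zero_iff (two_ne_zero) |>.1 h) hY
      rw [hC0, sub_zero, sub_zero] at hB0
      exact hne ⟨hA0, hC0, hB0⟩
    · rw [← hA, ← hC, ← hD]
      linear_combination A ^ 2 * heq
  · refine key ((x k₀ ^ 2)⁻¹) _ _ (inv_ne_zero (pow_ne_zero 2 hX)) (inv_of_ne_zero S u k₀ k₁ hX) ?_ ?_
    · rintro ⟨e1, e2⟩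
      rw [← hC] at e1
      have hC0 : C = 0 := by
        rcases mul_eq_zero.1 e1 with h | h
        · exact h
        · exact absurd h hX
      rw [← hA, ← hC, ← hD, hC0, zero_mul, sub_zero, sub_zero, neg_mul, neg_eq_zero] at e2
      have hB0 : D - A = 0 := by
        rcases mul_eq_zero.1 e2 with h | h
        · exact h
        · exact absurd h hX
      rw [hC0, sub_zero, hB0] at heq
      have hA0 : A = 0 := by
        simp only [zero_mul, add_zero] at heq
        rcases mul_eq_zero.1 heq with h | h
        · exact h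
        · exact absurd (pow_eq_zero_iff (two_ne_zero) |>.1 h) hX
      rw [hA0, sub_zero] at hB0
      exact hne ⟨hA0, hC0, hB0⟩
    · rw [← hA, ← hC, ← hD]
      linear_combination C ^ 2 * heq

end

end Pool.Agent.MP_cfacaa_ag.G
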