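import Pool.Agent.Lib.MP_cfacaa_ag.G.RedB
import Pool.Agent.Lib.MP_cfacaa_ag.ExV

/-! Row cga-RedC: specialisation. -/

namespace Pool.Agent.MP_cfacaa_ag.G

open MvPolynomial

/-- homomorphisms and lines -/
private theorem RedC_ln {I E R S : Type} [CommRing R] [CommRing S] (φ : R →+* S) (fac : I → E) (i₀ : E) (P Q : I → R)
    (s t : R) : ln fac i₀ (fun k => φ (P k)) (fun k => φ (Q k)) (φ s) (φ t) = fun k => φ (ln fac i₀ P Q s t k) := by
  funext k
  unfold ln
  by_cases h : fac k = i₀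
  · rw [if_pos h, if_pos h, map_add, map_mul, map_mul]
  · rw [if_neg h, if_neg h]

/-- the reduction of a line with coordinates in `A` -/
private theorem RedC_reduce {V I E K L : Type} [Fintype I] [Field K] [IsAlgClosed K] [Field L] [Algebra K L]
    (fac : I → E) (i₀ : E) (G : V → MvPolynomial I K) (A : ValuationSubring L) (hA : ∀ k : K, algebraMap K L k ∈ A)
    (P Q : I → L) (hP : ∀ k, P k ∈ A) (hQ : ∀ k, Q k ∈ A) (hN : Nrm fac i₀ P Q)
    (h : ∀ q, ∀ s ∈ A, ∀ t ∈ A, A.valuation (aeval (ln fac i₀ P Q s t) (G q)) < 1) :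
    ∃ P' Q' : I → K, Nrm fac i₀ P' Q' ∧ ∀ q s t, aeval (ln fac i₀ P' Q' s t) (G q) = 0 := by
  let f : K →+* A := (algebraMap K L).codRestrict A.toSubring hA
  let _ : Algebra K A := f.toAlgebra
  let _ : Algebra K (IsLocalRing.ResidueField A) := ((IsLocalRing.residue A).comp f).toAlgebra
  let j : A →ₐ[K] L := { A.subtype with commutes' := fun k => rfl }
  let r : A →ₐ[K] IsLocalRing.ResidueField A :=
    { IsLocalRing.residue A with commutes' := fun k => rfl }
  let PA : I → A := fun k => ⟨P k, hP k⟩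
  let QA : I → A := fun k => ⟨Q k, hQ k⟩
  refine exists_line_of_extension fac i₀ G (fun k => r (PA k)) (fun k => r (QA k)) ?_ ?_
  · obtain ⟨b, b', h1, h2, h3, h4, h5, h6⟩ := hN
    refine ⟨b, b', h1, h2, fun j => ?_, ?_, ?_, ?_⟩
    · have e : PA (b j) = 1 := Subtype.ext (h3 j)
      show r (PA (b j)) = 1
      rw [e, map_one]
    · have e : QA (b i₀) = 0 := Subtype.ext h4
      show r (QA (b i₀)) = 0
      rw [e, map_zero]
    · have e : PA b' = 0 := Subtype.ext h5
      show r (PA b') = 0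
      rw [e, map_zero]
    · have e : QA b' = 1 := Subtype.ext h6
      show r (QA b') = 1
      rw [e, map_one]
  · intro q s t
    obtain ⟨s, rfl⟩ := IsLocalRing.residue_surjective s
    obtain ⟨t, rfl⟩ := IsLocalRing.residue_surjective t
    have e1 : ln fac i₀ (fun k => r (PA k)) (fun k => r (QA k)) (IsLocalRing.residue A s) (IsLocalRing.residue A t) =
        fun k => r (ln fac i₀ PA QA s t k) := RedC_ln (r : A →+* IsLocalRing.ResidueField A) fac i₀ PA QA s t
    have e2 : ln fac i₀ P Q (s : L) (t : L) = fun k => j (ln fac i₀ PA QA s t k) :=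
      RedC_ln (j : A →+* L) fac i₀ PA QA s t
    have e3 : aeval (fun k => r (ln fac i₀ PA QA s t k)) (G q) = r (aeval (ln fac i₀ PA QA s t) (G q)) :=
      (comp_aeval_apply (ln fac i₀ PA QA s t) r (G q)).symm
    have e4 : aeval (fun k => j (ln fac i₀ PA QA s t k)) (G q) = j (aeval (ln fac i₀ PA QA s t) (G q)) :=
      (comp_aeval_apply _ j _).symm
    rw [e1, e3]
    have h2 : aeval (ln fac i₀ PA QA s t) (G q) ∈ IsLocalRing.maximalIdeal A := by
      rw [ValuationSubring.valuation_lt_one_iff]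
      have h3 := h q s s.2 t t.2
      rw [e2, e4] at h3
      exact h3
    exact (IsLocalRing.residue_eq_zero_iff _).mpr h2

/-- Specialisation. `lam ∉ K`, so there is a valuation subring `A ⊇ K` with `lam ∉ A` (`mem_range_of_forall_valuationSubring`), `lam⁻¹` is in the maximal
ideal. Normalise (`normalise`); by `aeval_smul_all` the relation `F₀ + lam G = 0` holds also at the points of the normalised line, for all
`s t : L`. For `s t ∈ A`: `G = - lam⁻¹ F₀` is in the maximal ideal. Reduce to the residue field (see `ExB_reduce` in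
`Pool/Agent/Lib/MP_cfacaa_ag/ExB.lean`) and use `exists_line_of_extension` (all `s t` in the residue field lift to `A`). -/
theorem specialise {V I E K L : Type} [Fintype I] [Fintype E] [Field K] [IsAlgClosed K] [Field L] [Algebra K L]
    (fac : I → E) (i₀ : E) (e : V → E → ℕ) (F₀ G : V → MvPolynomial I K) (hF : ∀ q, IsMH fac (e q) (F₀ q))
    (hG : ∀ q, IsMH fac (e q) (G q)) (lam : L) (hlam : lam ∉ Set.range (algebraMap K L)) (P Q : I → L)
    (hP : ∀ j, j ≠ i₀ → ∃ k, fac k = j ∧ P k ≠ 0)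
    (hPQ : ∃ k l, fac k = i₀ ∧ fac l = i₀ ∧ P k * Q l - P l * Q k ≠ 0)
    (h : ∀ q s t, aeval (ln fac i₀ P Q s t) (F₀ q) + lam * aeval (ln fac i₀ P Q s t) (G q) = 0) :
    ∃ P' Q' : I → K, Nrm fac i₀ P' Q' ∧ ∀ q s t, aeval (ln fac i₀ P' Q' s t) (G q) = 0 := by
  obtain ⟨A, hA, hlA⟩ : ∃ A : ValuationSubring L, (∀ k : K, algebraMap K L k ∈ A) ∧ lam ∉ A := by
    by_contra hcon
    push Not at hcon
    exact hlam (mem_range_of_forall_valuationSubring lam hcon)
  obtain ⟨P', Q', mu, hP', hQ', hN, hmu⟩ := normalise A fac i₀ P Q hP hPQ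
  have hl0 : lam ≠ 0 := by
    rintro rfl
    exact hlA A.zero_mem
  have hv : A.valuation lam⁻¹ < 1 := by
    have h1 : ¬ A.valuation lam ≤ 1 := fun h => hlA ((A.valuation_le_one_iff lam).1 h)
    rw [map_inv₀]
    exact inv_lt_one_of_one_lt₀ (not_le.1 h1)
  refine RedC_reduce fac i₀ G A hA P' Q' hP' hQ' hN fun q s hs t ht => ?_
  have h1 : aeval (ln fac i₀ P' Q' s t) (F₀ q) + lam * aeval (ln fac i₀ P' Q' s t) (G q) = 0 := by
    obtain ⟨s', t', hst⟩ := hmu s t
    have e1 : ln fac i₀ P' Q' s t = fun k => mu (fac k) * ln fac i₀ P Q s' t' k := funext hst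
    rw [e1, aeval_smul_all (hF q), aeval_smul_all (hG q), mul_left_comm, ← mul_add, h q s' t', mul_zero]
  have h2 : aeval (ln fac i₀ P' Q' s t) (G q) = -(lam⁻¹ * aeval (ln fac i₀ P' Q' s t) (F₀ q)) := by
    have h3 : aeval (ln fac i₀ P' Q' s t) (F₀ q) = -(lam * aeval (ln fac i₀ P' Q' s t) (G q)) :=
      eq_neg_of_add_eq_zero_left h1
    rw [h3, mul_neg, neg_neg, inv_mul_cancel_left₀ hl0]
  have h4 : A.valuation (aeval (ln fac i₀ P' Q' s t) (F₀ q)) ≤ 1 := by
    rw [A.valuation_le_one_iff]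
    let f : K →+* A := (algebraMap K L).codRestrict A.toSubring hA
    let _ : Algebra K A := f.toAlgebra
    let j : A →ₐ[K] L := { A.subtype with commutes' := fun k => rfl }
    have e2 : ln fac i₀ P' Q' s t = fun k => j (ln fac i₀ (fun k => (⟨P' k, hP' k⟩ : A)) (fun k => ⟨Q' k, hQ' k⟩) ⟨s, hs⟩ ⟨t, ht⟩ k) :=
      RedC_ln (j : A →+* L) fac i₀ (fun k => (⟨P' k, hP' k⟩ : A)) (fun k => ⟨Q' k, hQ' k⟩) ⟨s, hs⟩ ⟨t, ht⟩
    have e4 : aeval (fun k => j (ln fac i₀ (fun k => (⟨P' k, hP' k⟩ : A)) (fun k => ⟨Q' k, hQ' k⟩) ⟨s, hs⟩ ⟨t, ht⟩ k)) (F₀ q) =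
        j (aeval (ln fac i₀ (fun k => (⟨P' k, hP' k⟩ : A)) (fun k => ⟨Q' k, hQ' k⟩) ⟨s, hs⟩ ⟨t, ht⟩) (F₀ q)) :=
      (comp_aeval_apply _ j _).symm
    rw [e2, e4]
    exact Subtype.property _
  rw [h2, Valuation.map_neg, map_mul]
  exact lt_of_le_of_lt (mul_le_of_le_one_right' h4) hv

end Pool.Agent.MP_cfacaa_ag.G
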