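import Pool.Agent.Lib.MP_cfacaa_ag.G.RhoA

/-! Row cga-RhoB: the coefficients of the base point. -/

namespace Pool.Agent.MP_cfacaa_ag.G

theorem RhoB_small {P : Type} [Fintype P] [DecidableEq P] (N : Matrix P P ℂ) :
    ∃ ε : ℂ, ε ≠ 0 ∧ (1 + ε • N).det ≠ 0 := by
  have hc : Continuous fun ε : ℂ => (1 + ε • N).det := by
    refine Continuous.matrix_det ?_
    fun_prop
  have h1 : ∀ᶠ ε in nhds (0 : ℂ), (1 + ε • N).det ≠ 0 := by
    refine hc.continuousAt.eventually_ne ?_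
    rw [zero_smul, add_zero, Matrix.det_one]
    exact one_ne_zero
  obtain ⟨ε, h, h'⟩ := ((h1.filter_mono nhdsWithin_le_nhds).and
    (self_mem_nhdsWithin : {(0 : ℂ)}ᶜ ∈ nhdsWithin (0 : ℂ) {(0 : ℂ)}ᶜ)).exists
  exact ⟨ε, h', h⟩

theorem RhoB_abs {P I : Type} [Fintype P] (κ : Finset I) (A0 B0 A1 B1 : P → I → ℂ)
    (h0 : ∀ w : P → ℂ, ∃ a b : I → ℂ, ∀ p, ∑ k ∈ κ, (A0 p k * a k + B0 p k * b k) = w p) :
    ∃ ε : ℂ, ε ≠ 0 ∧ ∀ w : P → ℂ, ∃ a b : I → ℂ, ∀ p,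
      ∑ k ∈ κ, ((A0 p k + ε * A1 p k) * a k + (B0 p k + ε * B1 p k) * b k) = w p := by
  classical
  choose a' b' hab using fun p' : P => h0 (Pi.single p' 1)
  let N : Matrix P P ℂ := Matrix.of fun p p' => ∑ k ∈ κ, (A1 p k * a' p' k + B1 p k * b' p' k)
  obtain ⟨ε, hε, hdet⟩ := RhoB_small N
  refine ⟨ε, hε, fun w => ?_⟩
  let x : P → ℂ := (1 + ε • N)⁻¹.mulVec w
  have hx : (1 + ε • N).mulVec x = w := by
    show (1 + ε • N).mulVec ((1 + ε • N)⁻¹.mulVec w) = w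
    rw [Matrix.mulVec_mulVec, Matrix.mul_nonsing_inv _ (isUnit_iff_ne_zero.2 hdet), Matrix.one_mulVec]
  refine ⟨fun k => ∑ p', x p' * a' p' k, fun k => ∑ p', x p' * b' p' k, fun p => ?_⟩
  have hxp := congrFun hx p
  rw [← hxp]
  simp only [Matrix.mulVec, dotProduct]
  have e1 : ∀ k, (A0 p k + ε * A1 p k) * (∑ p', x p' * a' p' k) + (B0 p k + ε * B1 p k) * (∑ p', x p' * b' p' k) =
      ∑ p', x p' * ((A0 p k * a' p' k + B0 p k * b' p' k) + ε * (A1 p k * a' p' k + B1 p k * b' p' k)) := by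
    intro k
    rw [Finset.mul_sum, Finset.mul_sum, ← Finset.sum_add_distrib]
    exact Finset.sum_congr rfl fun p' _ => by ring
  simp only [e1]
  rw [Finset.sum_comm]
  refine Finset.sum_congr rfl fun p' _ => ?_
  rw [← Finset.mul_sum, Finset.sum_add_distrib, ← Finset.mul_sum, hab p' p]
  rw [Matrix.add_apply, Matrix.smul_apply, smul_eq_mul, mul_comm]
  congr 2
  by_cases h : p = p'
  · subst h
    rw [Pi.single_eq_same, Matrix.one_apply_eq]
  · rw [Pi.single_eq_of_ne h, Matrix.one_apply_ne h]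

open Classical in
/-- The rows `p = (q, r)` in `α` and `β` are to be independent. Let `v q r` be in general position (`exists_general`, for the index set of the
pairs `(q, r)`), `ε ≠ 0` small, and put `ρ q r = c q r • v q r` with `c q 0 = 1`, `c q r = ε⁻¹ * c q (r - 1)` if `(q, r) ∈ α`, and `c q r = ε * c q (r - 1)`
otherwise. Up to the nonzero factor `c q r` (`α`) or `c q (r - 1)` (`β`) the rows are `(v q r | ε v q (r - 1))` for `α` (without the second part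
if `r = 0`) and `(ε v q r | v q (r - 1))` for `β` (without the first part if `r = e q`). For `ε = 0` they are independent: solve for `a` with the rows of `α`, for
`b` with the rows of `β` (the indices `(q, r - 1)`, `(q, r) ∈ β`, are distinct). Linear independence of finitely many vectors
is an open condition (`LinearIndependent.eventually`, or: a minor is a polynomial in `ε`), so they are independent for some `ε ≠ 0`, and a system
with independent rows is solvable. -/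
theorem exists_rho {V I : Type} [Fintype V] (e : V → ℕ) (κ : Finset I) (α β : Finset (Σ q : V, Fin (e q + 1)))
    (hd : Disjoint α β) (hα : α.card ≤ κ.card) (hβ : β.card ≤ κ.card) (h1 : ∀ p ∈ α, (p.2 : ℕ) < e p.1)
    (h2 : ∀ p ∈ β, 1 ≤ (p.2 : ℕ)) :
    ∃ ρ : V → ℕ → I → ℂ, ∀ w : (Σ q : V, Fin (e q + 1)) → ℂ, ∃ a b : I → ℂ, ∀ p ∈ α ∪ β,
      ∑ k ∈ κ, ((if (p.2 : ℕ) < e p.1 then ρ p.1 p.2 k else 0) * a k +
        (if 1 ≤ (p.2 : ℕ) then ρ p.1 (p.2 - 1) k else 0) * b k) = w p := by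
  obtain ⟨v, hv⟩ := exists_general (J := Σ q : V, Fin (e q + 1)) κ
  let pr : (Σ q : V, Fin (e q + 1)) → (Σ q : V, Fin (e q + 1)) := fun p =>
    ⟨p.1, ⟨(p.2 : ℕ) - 1, lt_of_le_of_lt (Nat.sub_le _ _) p.2.2⟩⟩
  have hpr : ∀ p ∈ β, ∀ p' ∈ β, pr p = pr p' → p = p' := by
    rintro ⟨q, r⟩ hp ⟨q', r'⟩ hp' h
    obtain rfl : q = q' := congrArg Sigma.fst h
    have h3 : (r : ℕ) - 1 = (r' : ℕ) - 1 := by
      have := eq_of_heq (Sigma.mk.inj h).2
      exact congrArg Fin.val this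
    have h4 := h2 _ hp
    have h5 := h2 _ hp'
    have h6 : (r : ℕ) = (r' : ℕ) := by
      simp only at h4 h5
      omega
    rw [Fin.ext h6]
  let A0 : {p // p ∈ α ∪ β} → I → ℂ := fun p k => if p.1 ∈ α then v p.1 k else 0
  let B0 : {p // p ∈ α ∪ β} → I → ℂ := fun p k => if p.1 ∈ α then 0 else v (pr p.1) k
  let A1 : {p // p ∈ α ∪ β} → I → ℂ := fun p k => if p.1 ∈ α then 0 else if (p.1.2 : ℕ) < e p.1.1 then v p.1 k else 0
  let B1 : {p // p ∈ α ∪ β} → I → ℂ := fun p k => if p.1 ∈ α then (if 1 ≤ (p.1.2 : ℕ) then v (pr p.1) k else 0) else 0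
  have h0 : ∀ w : {p // p ∈ α ∪ β} → ℂ, ∃ a b : I → ℂ, ∀ p, ∑ k ∈ κ, (A0 p k * a k + B0 p k * b k) = w p := by
    intro w
    obtain ⟨a, ha⟩ := hv α hα fun p => if h : p ∈ α ∪ β then w ⟨p, h⟩ else 0
    obtain ⟨b, hb⟩ := hv (β.image pr) (Finset.card_image_le.trans hβ) fun j =>
      if h : ∃ p : {p // p ∈ α ∪ β}, p.1 ∈ β ∧ pr p.1 = j then w h.choose else 0
    refine ⟨a, b, fun p => ?_⟩
    by_cases hp : p.1 ∈ α
    · have e1 := ha p.1 hp
      rw [dif_pos p.2] at e1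
      rw [← e1]
      refine Finset.sum_congr rfl fun k _ => ?_
      show (if p.1 ∈ α then v p.1 k else 0) * a k + (if p.1 ∈ α then 0 else v (pr p.1) k) * b k = _
      rw [if_pos hp, if_pos hp, zero_mul, add_zero]
    · have hpβ : p.1 ∈ β := (Finset.mem_union.1 p.2).resolve_left hp
      have e1 := hb (pr p.1) (Finset.mem_image_of_mem pr hpβ)
      have hex : ∃ p' : {p // p ∈ α ∪ β}, p'.1 ∈ β ∧ pr p'.1 = pr p.1 := ⟨p, hpβ, rfl⟩
      rw [dif_pos hex] at e1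
      have e2 : hex.choose = p := Subtype.ext (hpr _ hex.choose_spec.1 _ hpβ hex.choose_spec.2)
      rw [e2] at e1
      rw [← e1]
      refine Finset.sum_congr rfl fun k _ => ?_
      show (if p.1 ∈ α then v p.1 k else 0) * a k + (if p.1 ∈ α then 0 else v (pr p.1) k) * b k = _
      rw [if_neg hp, if_neg hp, zero_mul, zero_add]
  obtain ⟨ε, hε, hsol⟩ := RhoB_abs κ A0 B0 A1 B1 h0
  let c : V → ℕ → ℂ := fun q => Nat.rec 1 (fun r x =>
    if ∃ h : r + 1 < e q + 1, (⟨q, ⟨r + 1, h⟩⟩ : Σ q : V, Fin (e q + 1)) ∈ α then ε⁻¹ * x else ε * x)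
  have hcs : ∀ q r, c q (r + 1) = if ∃ h : r + 1 < e q + 1, (⟨q, ⟨r + 1, h⟩⟩ : Σ q : V, Fin (e q + 1)) ∈ α
      then ε⁻¹ * c q r else ε * c q r := fun q r => rfl
  have hc0 : ∀ q r, c q r ≠ 0 := by
    intro q r
    induction r with
    | zero => exact one_ne_zero
    | succ r ih =>
      rw [hcs]
      split_ifs
      · exact mul_ne_zero (inv_ne_zero hε) ih
      · exact mul_ne_zero hε ih
  let D : (Σ q : V, Fin (e q + 1)) → ℂ := fun p => if p ∈ α then c p.1 p.2 else c p.1 ((p.2 : ℕ) - 1)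
  have hD : ∀ p, D p ≠ 0 := by
    intro p
    show (if p ∈ α then c p.1 p.2 else c p.1 ((p.2 : ℕ) - 1)) ≠ 0
    split_ifs <;> exact hc0 _ _
  let ρ : V → ℕ → I → ℂ := fun q r k => c q r * (if h : r < e q + 1 then v ⟨q, ⟨r, h⟩⟩ k else 0)
  have hρ : ∀ (p : Σ q : V, Fin (e q + 1)) k, ρ p.1 p.2 k = c p.1 p.2 * v p k := by
    intro p k
    show c p.1 p.2 * (if h : (p.2 : ℕ) < e p.1 + 1 then v ⟨p.1, ⟨(p.2 : ℕ), h⟩⟩ k else 0) = _
    rw [dif_pos p.2.2]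
  have hρ' : ∀ (p : Σ q : V, Fin (e q + 1)) k, ρ p.1 ((p.2 : ℕ) - 1) k = c p.1 ((p.2 : ℕ) - 1) * v (pr p) k := by
    intro p k
    show c p.1 ((p.2 : ℕ) - 1) * (if h : (p.2 : ℕ) - 1 < e p.1 + 1 then v ⟨p.1, ⟨(p.2 : ℕ) - 1, h⟩⟩ k else 0) = _
    rw [dif_pos (lt_of_le_of_lt (Nat.sub_le _ _) p.2.2)]
  have hcα : ∀ p : (Σ q : V, Fin (e q + 1)), p ∈ α → 1 ≤ (p.2 : ℕ) → c p.1 p.2 = ε⁻¹ * c p.1 ((p.2 : ℕ) - 1) := by
    rintro ⟨q, ⟨r, hr⟩⟩ hp h
    obtain ⟨r, rfl⟩ : ∃ r', r = r' + 1 := ⟨r - 1, (Nat.sub_add_cancel h).symm⟩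
    show c q (r + 1) = ε⁻¹ * c q (r + 1 - 1)
    rw [hcs, if_pos ⟨hr, hp⟩, Nat.add_sub_cancel]
  have hcβ : ∀ p : (Σ q : V, Fin (e q + 1)), p ∉ α → 1 ≤ (p.2 : ℕ) → c p.1 p.2 = ε * c p.1 ((p.2 : ℕ) - 1) := by
    rintro ⟨q, ⟨r, hr⟩⟩ hp h
    obtain ⟨r, rfl⟩ : ∃ r', r = r' + 1 := ⟨r - 1, (Nat.sub_add_cancel h).symm⟩
    show c q (r + 1) = ε * c q (r + 1 - 1)
    rw [hcs, if_neg (fun ⟨_, h'⟩ => hp h'), Nat.add_sub_cancel]
  refine ⟨ρ, fun w => ?_⟩
  obtain ⟨a, b, hab⟩ := hsol fun p => (D p.1)⁻¹ * w p.1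
  refine ⟨a, b, fun p hp => ?_⟩
  have e1 := hab ⟨p, hp⟩
  have e2 : w p = D p * ((D p)⁻¹ * w p) := by
    rw [← mul_assoc, mul_inv_cancel₀ (hD p), one_mul]
  rw [e2, ← e1, Finset.mul_sum]
  refine Finset.sum_congr rfl fun k _ => ?_
  show _ = (if p ∈ α then c p.1 p.2 else c p.1 ((p.2 : ℕ) - 1)) *
    (((if p ∈ α then v p k else 0) + ε * (if p ∈ α then 0 else if (p.2 : ℕ) < e p.1 then v p k else 0)) * a k +
      ((if p ∈ α then 0 else v (pr p) k) +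
        ε * (if p ∈ α then (if 1 ≤ (p.2 : ℕ) then v (pr p) k else 0) else 0)) * b k)
  rw [hρ, hρ']
  by_cases hpα : p ∈ α
  · have h3 := h1 p hpα
    simp only [if_pos hpα, if_pos h3]
    by_cases h4 : 1 ≤ (p.2 : ℕ)
    · simp only [if_pos h4]
      rw [hcα p hpα h4]
      field_simp
      ring
    · simp only [if_neg h4]
      ring
  · have hpβ : p ∈ β := (Finset.mem_union.1 hp).resolve_left hpα
    have h4 := h2 p hpβ
    simp only [if_neg hpα, if_pos h4]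
    by_cases h3 : (p.2 : ℕ) < e p.1
    · simp only [if_pos h3]
      rw [hcβ p hpα h4]
      ring
    · simp only [if_neg h3]
      ring

end Pool.Agent.MP_cfacaa_ag.G
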