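import Pool.Agent.Lib.MP_cfacaa_ag.G.Chart
import Pool.Agent.Lib.MP_cfacaa_ag.G.Hom
import Pool.Agent.Lib.MP_cfacaa_ag.G.RhoB

/-! Row cga-Surj: the linear system of the base point is solvable. -/

namespace Pool.Agent.MP_cfacaa_ag.G

open Classical in
/-- Let `κ = coords fac i₀` without `b i₀`, `b'`. Let `α` be the set of rows `p` with `f p = inl k`, `fac k = i₀`, and `β` the set of rows with `f p = inr k`. The
map `f` gives injections `α → κ`, `β → κ`. Take `ρ` from `exists_rho` (with `e q i₀`). Given `w`, take `a`, `b` for `w`; the remaining rows `p` are matched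
with distinct coordinates `inl k`, `fac k ≠ i₀`, `k ∉ κ`: put `z (inl k) = w p - (the part of a, b in the row p)`. -/
theorem exists_surj {V I E : Type} [Fintype V] [Fintype I] (fac : I → E) (i₀ : E) (b : E → I) (b' : I)
    (hb : ∀ j, fac (b j) = j) (hb' : fac b' = i₀) (hbb : b' ≠ b i₀) (e : V → E → ℕ)
    (f : (Σ q : V, Fin (e q i₀ + 1)) → I ⊕ I) (hf : Match fac i₀ b b' e f) :
    ∃ ρ : V → ℕ → I → ℂ, ∀ w : (Σ q : V, Fin (e q i₀ + 1)) → ℂ, ∃ z : I ⊕ I → ℂ,
      ∀ p, ∑ σ, Th fac i₀ (((coords fac i₀).erase (b i₀)).erase b') e f ρ p σ * z σ = w p := by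
  obtain ⟨κ, hκ⟩ : ∃ κ, κ = ((coords fac i₀).erase (b i₀)).erase b' := ⟨_, rfl⟩
  rw [← hκ]
  have hmem : ∀ k, k ∈ κ ↔ k ≠ b' ∧ k ≠ b i₀ ∧ fac k = i₀ := by
    intro k
    rw [hκ, Finset.mem_erase, Finset.mem_erase, mem_coords]
  set α : Finset (Σ q : V, Fin (e q i₀ + 1)) :=
    Finset.univ.filter fun p => ∃ k, f p = Sum.inl k ∧ fac k = i₀ with hα
  set β : Finset (Σ q : V, Fin (e q i₀ + 1)) :=
    Finset.univ.filter fun p => ∃ k, f p = Sum.inr k with hβ
  have hαm : ∀ p, p ∈ α ↔ ∃ k, f p = Sum.inl k ∧ fac k = i₀ := by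
    intro p; rw [hα, Finset.mem_filter]; exact and_iff_right (Finset.mem_univ _)
  have hβm : ∀ p, p ∈ β ↔ ∃ k, f p = Sum.inr k := by
    intro p; rw [hβ, Finset.mem_filter]; exact and_iff_right (Finset.mem_univ _)
  have hd : Disjoint α β := by
    rw [Finset.disjoint_left]
    intro p h1 h2
    obtain ⟨k, hk, -⟩ := (hαm p).1 h1
    obtain ⟨k', hk'⟩ := (hβm p).1 h2
    rw [hk] at hk'
    exact Sum.inl_ne_inr hk'
  have hcα : α.card ≤ κ.card := by
    refine Finset.card_le_card_of_injOn (fun p => Sum.elim id id (f p)) ?_ ?_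
    · intro p hp
      obtain ⟨k, hk, hk0⟩ := (hαm p).1 hp
      have h := hf.alpha p k hk hk0
      change Sum.elim id id (f p) ∈ κ
      rw [hk]
      exact (hmem k).2 ⟨h.2.1, h.1, hk0⟩
    · intro p hp p' hp' h
      obtain ⟨k, hk, -⟩ := (hαm p).1 hp
      obtain ⟨k', hk', -⟩ := (hαm p').1 hp'
      change Sum.elim id id (f p) = Sum.elim id id (f p') at h
      rw [hk, hk'] at h
      apply hf.inj
      rw [hk, hk']
      exact congrArg Sum.inl h
  have hcβ : β.card ≤ κ.card := by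
    refine Finset.card_le_card_of_injOn (fun p => Sum.elim id id (f p)) ?_ ?_
    · intro p hp
      obtain ⟨k, hk⟩ := (hβm p).1 hp
      have h := hf.beta p k hk
      change Sum.elim id id (f p) ∈ κ
      rw [hk]
      exact (hmem k).2 ⟨h.2.2.1, h.2.1, h.1⟩
    · intro p hp p' hp' h
      obtain ⟨k, hk⟩ := (hβm p).1 hp
      obtain ⟨k', hk'⟩ := (hβm p').1 hp'
      change Sum.elim id id (f p) = Sum.elim id id (f p') at h
      rw [hk, hk'] at h
      apply hf.inj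
      rw [hk, hk']
      exact congrArg Sum.inr h
  obtain ⟨ρ, hρ⟩ := exists_rho (fun q => e q i₀) κ α β hd hcα hcβ
    (fun p hp => by
      obtain ⟨k, hk, hk0⟩ := (hαm p).1 hp
      exact (hf.alpha p k hk hk0).2.2)
    (fun p hp => by
      obtain ⟨k, hk⟩ := (hβm p).1 hp
      exact (hf.beta p k hk).2.2.2)
  refine ⟨ρ, fun w => ?_⟩
  obtain ⟨a, c, hac⟩ := hρ w
  obtain ⟨S, hS⟩ : ∃ S : (Σ q : V, Fin (e q i₀ + 1)) → ℂ, ∀ p, S p =
    ∑ k ∈ κ, ((if (p.2 : ℕ) < e p.1 i₀ then ρ p.1 p.2 k else 0) * a k +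
        (if 1 ≤ (p.2 : ℕ) then ρ p.1 (p.2 - 1) k else 0) * c k) := ⟨_, fun p => rfl⟩
  refine ⟨Sum.elim (fun k => if h : ∃ p, f p = Sum.inl k ∧ fac k ≠ i₀ then
    w h.choose - S h.choose else a k) c, fun p => ?_⟩
  have hz1 : ∀ k ∈ κ, (if h : ∃ p, f p = Sum.inl k ∧ fac k ≠ i₀ then
      w h.choose - S h.choose else a k) = a k := by
    intro k hk
    rw [dif_neg]
    rintro ⟨p', -, h2⟩
    exact h2 ((hmem k).1 hk).2.2
  rw [Fintype.sum_sum_type]
  simp only [Sum.elim_inl, Sum.elim_inr, Th]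
  have hsplit : ∀ k : I, ((if f p = Sum.inl k ∧ fac k ≠ i₀ then (1 : ℂ) else 0) +
      (if k ∈ κ ∧ (p.2 : ℕ) < e p.1 i₀ then ρ p.1 p.2 k else 0)) *
      (if h : ∃ p, f p = Sum.inl k ∧ fac k ≠ i₀ then w h.choose - S h.choose else a k) =
      (if f p = Sum.inl k ∧ fac k ≠ i₀ then (w p - S p) else 0) +
      (if k ∈ κ then (if (p.2 : ℕ) < e p.1 i₀ then ρ p.1 p.2 k else 0) * a k else 0) := by
    intro k
    rw [add_mul]
    congr 1
    · split_ifs with h1 h2 h2
      · have h3 := h2.choose_spec.1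
        have h4 : h2.choose = p := hf.inj (h3.trans h1.1.symm)
        rw [h4, one_mul]
      · exact absurd ⟨p, h1⟩ h2
      · rw [zero_mul]
      · rw [zero_mul]
    · by_cases hk : k ∈ κ
      · rw [if_pos hk, hz1 k hk]
        congr 1
        simp only [hk, true_and]
      · rw [if_neg hk, if_neg (fun h => hk h.1), zero_mul]
  have hsplit2 : ∀ k : I, (if k ∈ κ ∧ 1 ≤ (p.2 : ℕ) then ρ p.1 ((p.2 : ℕ) - 1) k else 0) * c k =
      if k ∈ κ then (if 1 ≤ (p.2 : ℕ) then ρ p.1 ((p.2 : ℕ) - 1) k else 0) * c k else 0 := by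
    intro k
    by_cases hk : k ∈ κ
    · rw [if_pos hk]
      congr 1
      simp only [hk, true_and]
    · rw [if_neg hk, if_neg (fun h => hk h.1), zero_mul]
  rw [Finset.sum_congr rfl fun k _ => hsplit k, Finset.sum_congr rfl fun k _ => hsplit2 k,
    Finset.sum_add_distrib, Finset.sum_ite_mem, Finset.sum_ite_mem, Finset.univ_inter, add_assoc,
    ← Finset.sum_add_distrib, ← hS p]
  by_cases hp : p ∈ α ∪ β
  · have h0 : ∀ k : I, (if f p = Sum.inl k ∧ fac k ≠ i₀ then (w p - S p) else 0) = 0 := by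
      intro k
      rw [if_neg]
      rintro ⟨h1, h2⟩
      rcases Finset.mem_union.1 hp with h | h
      · obtain ⟨k', hk', hk0⟩ := (hαm p).1 h
        rw [h1] at hk'
        exact h2 (Sum.inl_injective hk' ▸ hk0)
      · obtain ⟨k', hk'⟩ := (hβm p).1 h
        rw [h1] at hk'
        exact Sum.inl_ne_inr hk'
    rw [Finset.sum_congr rfl fun k _ => h0 k, Finset.sum_const_zero, zero_add, hS p, hac p hp]
  · obtain ⟨k, hk, hk0⟩ : ∃ k, f p = Sum.inl k ∧ fac k ≠ i₀ := by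
      rcases hfp : f p with k | k
      · refine ⟨k, rfl, fun h => hp (Finset.mem_union_left _ ((hαm p).2 ⟨k, hfp, h⟩))⟩
      · exact absurd (Finset.mem_union_right _ ((hβm p).2 ⟨k, hfp⟩)) hp
    rw [Finset.sum_eq_single k, if_pos ⟨hk, hk0⟩, sub_add_cancel]
    · intro k' _ hk'
      rw [if_neg]
      rintro ⟨h1, -⟩
      rw [hk] at h1
      exact hk' (Sum.inl_injective h1).symm
    · intro h
      exact absurd (Finset.mem_univ k) h

end Pool.Agent.MP_cfacaa_ag.G
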