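import Pool.Agent.Lib.MP_cfacaa_ag.G.Exp
import Pool.Agent.Lib.MP_cfacaa_ag.G.BaseB
import Pool.Agent.Lib.MP_cfacaa_ag.G.Surj
import Pool.Agent.Lib.MP_cfacaa_ag.G.RedC
import Pool.Agent.Lib.MP_cfacaa_ag.G.Prod
import Pool.Agent.Lib.MP_cfacaa_ag.G.IFT

/-! Row cga-LE: existence of lines. -/

namespace Pool.Agent.MP_cfacaa_ag.G

open MvPolynomial

private theorem LE_chP {I E L : Type} [Field L] [Algebra ℂ L] (fac : I → E) (b : E → I) (b' : I) (z : I ⊕ I → L)
    (k : I) : aeval z (chP fac b b' (X : I ⊕ I → MvPolynomial (I ⊕ I) ℂ) k) = chP fac b b' z k := by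
  unfold chP
  split_ifs
  · exact map_one _
  · exact map_zero _
  · exact aeval_X _ _

private theorem LE_chQ {I E L : Type} [Field L] [Algebra ℂ L] (fac : I → E) (b : E → I) (b' : I) (z : I ⊕ I → L)
    (k : I) : aeval z (chQ fac b b' (X : I ⊕ I → MvPolynomial (I ⊕ I) ℂ) k) = chQ fac b b' z k := by
  unfold chQ
  split_ifs
  · exact map_zero _
  · exact map_one _
  · exact aeval_X _ _

open Classical in
private theorem LE_base {V I E : Type} [Fintype V] [Fintype I] [Fintype E] (fac : I → E) (i₀ : E) (b : E → I) (b' : I)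
    (hb : ∀ j, fac (b j) = j) (hb' : fac b' = i₀) (hbb : b' ≠ b i₀) (e : V → E → ℕ)
    (f : (Σ q : V, Fin (e q i₀ + 1)) → I ⊕ I) (hf : Match fac i₀ b b' e f) :
    ∃ A : (Σ q : V, Fin (e q i₀ + 1)) → I ⊕ I → ℂ,
      (∀ w : (Σ q : V, Fin (e q i₀ + 1)) → ℂ, ∃ z : I ⊕ I → ℂ, ∀ p, ∑ σ, A p σ * z σ = w p) ∧
      ∀ q, ∃ F : MvPolynomial I ℂ, IsMH fac (e q) F ∧ ∀ (L : Type) [Field L] [Algebra ℂ L] (z : I ⊕ I → L) (s t : L),
        aeval (ln fac i₀ (chP fac b b' z) (chQ fac b b' z) s t) F =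
          ∑ r : Fin (e q i₀ + 1), s ^ (e q i₀ - r) * t ^ (r : ℕ) * ∑ σ, algebraMap ℂ L (A ⟨q, r⟩ σ) * z σ := by
  obtain ⟨ρ, hρ⟩ := exists_surj fac i₀ b b' hb hb' hbb e f hf
  exact ⟨Th fac i₀ (((coords fac i₀).erase (b i₀)).erase b') e f ρ, hρ,
    fun q => exists_base fac i₀ b b' hb hb' hbb e f hf ρ q⟩

/-- A matching gives a line. `ρ` from `exists_surj`, `F₀ q` from `exists_base`, and `c q : ℕ → MvPolynomial (I ⊕ I) ℂ` the coefficients of `G q` along the lines of the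
chart (`exists_coeffs` with `P = chP fac b b' X`, `Q = chQ fac b b' X`). By `eventually_exists` and `exists_field` with `A p σ = Th … p σ` and the polynomials
`c p.1 p.2`, `p : Σ q, Fin (e q i₀ + 1)`, there are `L`, `lam ∉ ℂ`, `z` with all coefficients of `F₀ q + lam G q` along the line of `z` zero, so
`F₀ q + lam G q = 0` on this line; `specialise`. (The line of the chart: `P (b j) = 1`, `P (b i₀) * Q b' - P b' * Q (b i₀) = 1`.) -/
theorem exists_line_of_match {V I E : Type} [Fintype V] [Fintype I] [Fintype E] (fac : I → E) (i₀ : E) (b : E → I) (b' : I)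
    (hb : ∀ j, fac (b j) = j) (hb' : fac b' = i₀) (hbb : b' ≠ b i₀) (e : V → E → ℕ) (G : V → MvPolynomial I ℂ)
    (hG : ∀ q, IsMH fac (e q) (G q)) (f : (Σ q : V, Fin (e q i₀ + 1)) → I ⊕ I) (hf : Match fac i₀ b b' e f) :
    ∃ P Q : I → ℂ, Nrm fac i₀ P Q ∧ ∀ q s t, aeval (ln fac i₀ P Q s t) (G q) = 0 := by
  obtain ⟨A, hA, hB⟩ := LE_base fac i₀ b b' hb hb' hbb e f hf
  choose F₀ hF₀ hF₀' using hB
  choose c hc using fun q => exists_coeffs (hG q) i₀ (chP fac b b' (X : I ⊕ I → MvPolynomial (I ⊕ I) ℂ))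
    (chQ fac b b' (X : I ⊕ I → MvPolynomial (I ⊕ I) ℂ))
  obtain ⟨L, _, _, lam, z, hlam, hz⟩ := exists_field A (fun p => c p.1 p.2)
    (eventually_exists A hA (fun p => c p.1 p.2))
  have hbj : ∀ j, chP fac b b' z (b j) = 1 := fun j => by
    unfold chP
    rw [hb, if_pos rfl]
  have hb1 : b' ≠ b (fac b') := by rwa [hb']
  refine specialise fac i₀ e F₀ G hF₀ hG lam hlam (chP fac b b' z) (chQ fac b b' z)
    (fun j _ => ⟨b j, hb j, ?_⟩) ⟨b i₀, b', hb i₀, hb', ?_⟩ fun q s t => ?_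
  · rw [hbj]
    exact one_ne_zero
  · have h1 : chP fac b b' z b' = 0 := by
      unfold chP
      rw [if_neg hb1, if_pos rfl]
    have h2 : chQ fac b b' z b' = 1 := by
      unfold chQ
      rw [if_neg hb1, if_pos rfl]
    rw [hbj, h1, h2, zero_mul, sub_zero, one_mul]
    exact one_ne_zero
  · have h1 := hc q L z s t
    simp only [LE_chP, LE_chQ] at h1
    rw [hF₀', h1, Finset.sum_range, Finset.mul_sum, ← Finset.sum_add_distrib]
    refine Finset.sum_eq_zero fun r _ => ?_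
    have h2 := hz ⟨q, r⟩
    simp only at h2
    linear_combination (s ^ (e q i₀ - r) * t ^ (r : ℕ)) * h2

end Pool.Agent.MP_cfacaa_ag.G
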