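import Pool.Agent.Lib.MP_cfacaa_ag.G.MainA
import Pool.Agent.Lib.MP_cfacaa_ag.G.Image
import Pool.Agent.Lib.MP_cfacaa_ag.G.Gen

/-! Row cga-Main: the descent. (See `Pool/Agent/Lib/MP_cfacaa_ag/Main.lean`.) -/

namespace Pool.Agent.MP_cfacaa_ag.G

section

variable {V I E : Type} [Fintype V] [Fintype I] [Fintype E]

private theorem Main_aux (S : Sys V I E) (hS : S.Wide) (T : Finset E)
    (hT : ∀ a, a ∈ T ↔ ¬ ∃ u, (coords S.fac a).card = 2 ∧ S.e u a = 2 ∧
      ∑ i ∈ factors S.e {u}, dim S.fac i = 3) :
    ∀ (n : ℕ) (d : E → ℤ), NonnegOnCurves S d → ∑ i ∈ T, d i < (n : ℤ) → GloballyGenerated S d := by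
  classical
  intro n
  have hnn : ∀ d : E → ℤ, NonnegOnCurves S d → 0 ≤ ∑ i ∈ T, d i := fun d hd =>
    Finset.sum_nonneg fun i hi => nonneg_of_not_line S hS hd i ((hT i).1 hi)
  induction n with
  | zero =>
    intro d hd h
    have := hnn d hd
    push_cast at h
    omega
  | succ n ih =>
    intro d hd h
    by_cases hall : ∀ i, 0 ≤ d i
    · exact globallyGenerated_of_nonneg S hall
    · rw [not_forall] at hall
      obtain ⟨a, ha⟩ := hall
      rw [not_le] at ha
      have haT : a ∉ T := fun hcon =>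
        absurd (nonneg_of_not_line S hS hd a ((hT a).1 hcon)) (not_le.2 ha)
      have hbad : ∃ u, (coords S.fac a).card = 2 ∧ S.e u a = 2 ∧
          ∑ i ∈ factors S.e {u}, dim S.fac i = 3 := by
        by_contra hcon
        exact haT ((hT a).2 hcon)
      obtain ⟨u, hcard, hua, h3⟩ := hbad
      obtain ⟨k₀, k₁, hk, hc⟩ := Finset.card_eq_two.1 hcard
      have h0 : NoZero S u k₀ k₁ := by
        by_contra hcon
        obtain ⟨C, hC, hC'⟩ := exists_curve_of_zero S hua hk hc hcon
        exact absurd (nonneg_of_curve hd C hC hC') (not_le.2 ha)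
      obtain ⟨j, huj, hjlt⟩ := hS.linked u h3
      have hjT : j ∈ T := by
        rw [hT]
        rintro ⟨u', hc', hu', _⟩
        have he : S.e u' j = (coords S.fac j).card := by rw [hu', hc']
        have h1 : u = u' := by
          by_contra hne
          exact huj (e_eq_zero_of_ne he hne)
        rw [← h1] at he
        omega
      refine globallyGenerated_of_refl hua hk hc h0 (ih _ (nonnegOnCurves_refl hua hk hc h0 hd) ?_)
      have e : ∑ i ∈ T, refl S u a d i = ∑ i ∈ T, d i + d a * ∑ i ∈ T, (S.e u i : ℤ) := by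
        rw [Finset.mul_sum, ← Finset.sum_add_distrib]
        refine Finset.sum_congr rfl fun i hi => ?_
        have hia : i ≠ a := fun h => haT (h ▸ hi)
        unfold refl
        rw [if_neg hia]
      have h4 : (1 : ℤ) ≤ ∑ i ∈ T, (S.e u i : ℤ) := by
        have h5 := Finset.single_le_sum (f := fun i => (S.e u i : ℤ)) (fun _ _ => Int.natCast_nonneg _) hjT
        have h6 : (1 : ℤ) ≤ (S.e u j : ℤ) := by
          have : 1 ≤ S.e u j := Nat.one_le_iff_ne_zero.2 huj
          exact_mod_cast this
        exact h6.trans h5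
      rw [e]
      push_cast at h
      nlinarith

/-- The descent: induction on `∑ i ∈ T, d i`, `T` = the set of the factors `a` which satisfy the hypothesis of `nonneg_of_not_line` (these `d i` are nonnegative). If all `d i` are nonnegative use
`globallyGenerated_of_nonneg`. Otherwise `d a < 0` for some `a ∉ T`, with `u`, `coords S.fac a = {k₀, k₁}`; by `exists_curve_of_zero`, `nonneg_of_curve`, `NoZero S u k₀ k₁`. By `linked` there is `j` with `e u j ≠ 0` and `e u j < (coords S.fac j).card`;
so `j ∈ T` (if `e u' j = 2` is the number of coordinates of `j`, no other equation involves `j` by `e_eq_zero_of_ne`, so `u' = u`). Replace `d` by `refl S u a d`: `∑ i ∈ T, d i` gets smaller (`d i + d a * e u i ≤ d i`, and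
`< d j` for `i = j`). -/
theorem main (S : Sys V I E) (hS : S.Wide) (d : E → ℤ) (hd : NonnegOnCurves S d) : GloballyGenerated S d := by
  classical
  refine Main_aux S hS (Finset.univ.filter fun a => ¬ ∃ u, (coords S.fac a).card = 2 ∧ S.e u a = 2 ∧
      ∑ i ∈ factors S.e {u}, dim S.fac i = 3) (fun a => by simp)
    ((∑ a ∈ Finset.univ.filter fun a => ¬ ∃ u, (coords S.fac a).card = 2 ∧ S.e u a = 2 ∧
      ∑ i ∈ factors S.e {u}, dim S.fac i = 3, d a).toNat + 1) d hd ?_
  push_cast
  exact lt_of_le_of_lt (Int.self_le_toNat _) (lt_add_one _)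

end

end Pool.Agent.MP_cfacaa_ag.G
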