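import Pool.Agent.Lib.MP_cfacaa_ag.G.Plain
import Pool.Agent.Lib.MP_cfacaa_ag.G.HallP

/-! Row cga-Sing: a singular point of a member of a pencil of plane cubics. -/

namespace Pool.Agent.MP_cfacaa_ag.G

open MvPolynomial

section

variable {V I E : Type} [Fintype V] [Fintype I] [Fintype E]

/-- Euler's identity for the coordinates of one factor -/
private theorem Sing_euler {fac : I → E} {e : E → ℕ} {P : MvPolynomial I ℂ} (hP : IsMH fac e P) (j : E) (x : I → ℂ)
    (h : ∀ k ∈ coords fac j, aeval x (pderiv k P) = 0) : (e j : ℂ) * aeval x P = 0 := by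
  classical
  have hw : P.IsWeightedHomogeneous (fun k => if fac k = j then 1 else 0) (e j) := by
    intro m hm
    rw [Finsupp.weight_apply, Finsupp.sum_fintype _ _ (fun i => by simp)]
    rw [← hP m (mem_support_iff.2 hm) j]
    unfold coords
    rw [Finset.sum_filter]
    refine Finset.sum_congr (by ext; simp) fun k _ => ?_
    by_cases hk : fac k = j
    · rw [if_pos hk, if_pos hk, smul_eq_mul, mul_one]
    · rw [if_neg hk, if_neg hk, smul_zero]
  have h1 := congrArg (aeval x) hw.sum_weight_X_mul_pderiv
  rw [map_sum, map_nsmul, nsmul_eq_mul] at h1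
  rw [← h1]
  refine Finset.sum_eq_zero fun k _ => ?_
  by_cases hk : fac k = j
  · rw [if_pos hk, one_smul, map_mul, h k (mem_coords.2 hk), mul_zero]
  · rw [if_neg hk, zero_smul, map_zero]

/-- The factor `j` is a plane, `F u` has degree `3` in it, degree `1` in one further factor `l`, a projective line, and does not involve other factors. Apply `exists_match_plain`
and `exists_zero_of_match` to the system with the index set `Fin 3 ⊕ {w // w ≠ u}`: the derivatives of `F u` with respect to the three coordinates of the factor `j`, of multidegree `2` in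
`j`, `1` in `l` and `0` in the others (`IsMH.pderiv`), and the `F w`, `w ≠ u`. Numerical condition: for a set of `m` derivatives and a set `W` of `w`'s: if `m = 0` from
`two_le` (or empty); if `m ≥ 1` the factors are those of `W ∪ {u}`, and `|W| + 3 ≤ …` by `two_le` (`m ≤ 3`). At the zero `x` also `F u` vanishes (Euler:
`3 F u = ∑ k, x k ∂F u/∂x k`, sum over the coordinates of `j`). -/
theorem exists_sing (S : Sys V I E) (hS : S.Wide) {u : V} {j l : E} (hjl : j ≠ l) (hj : (coords S.fac j).card = 3)
    (hl : (coords S.fac l).card = 2) (huj : S.e u j = 3) (hul : S.e u l = 1) (hu : ∀ i, i ≠ j → i ≠ l → S.e u i = 0) :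
    ∃ x ∈ S.cone, ∀ k ∈ coords S.fac j, aeval x (pderiv k (S.F u)) = 0 := by
  classical
  have hb : ∀ i, ∃ k, S.fac k = i := by
    intro i
    have h := S.two i
    obtain ⟨k, hk⟩ := Finset.card_pos.1 (lt_of_lt_of_le two_pos h)
    exact ⟨k, mem_coords.1 hk⟩
  choose b hb using hb
  let e' : {k // k ∈ coords S.fac j} ⊕ {w : V // w ≠ u} → E → ℕ :=
    Sum.elim (fun _ i => if i = j then 2 else S.e u i) fun w => S.e w.1
  let G' : {k // k ∈ coords S.fac j} ⊕ {w : V // w ≠ u} → MvPolynomial I ℂ :=
    Sum.elim (fun k => pderiv k.1 (S.F u)) fun w => S.F w.1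
  have hG' : ∀ q, IsMH S.fac (e' q) (G' q) := by
    rintro (⟨k, hk⟩ | w)
    · have hk' := mem_coords.1 hk
      refine IsMH.pderiv (S.hF u) k (fun i hi => ?_) ?_
      · rw [hk'] at hi
        exact if_neg hi
      · rw [hk']
        show S.e u j = (if j = j then 2 else S.e u j) + 1
        rw [if_pos rfl, huj]
    · exact S.hF w.1
  have hnum : ∀ W' : Finset ({k // k ∈ coords S.fac j} ⊕ {w : V // w ≠ u}),
      W'.card ≤ ∑ i ∈ factors e' W', dim S.fac i := by
    intro W'
    have hc : W'.card = W'.toLeft.card + W'.toRight.card := (Finset.card_toLeft_add_card_toRight).symm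
    have hcl : W'.toLeft.card ≤ 3 := by
      refine (Finset.card_le_univ _).trans ?_
      rw [Fintype.card_coe, hj]
    let W : Finset V := W'.toRight.map (Function.Embedding.subtype _)
    have hWc : W.card = W'.toRight.card := Finset.card_map _
    have huW : u ∉ W := by
      intro h
      rw [Finset.mem_map] at h
      obtain ⟨w, _, hw⟩ := h
      exact w.2 hw
    have hmW : ∀ w (hw : w ≠ u), w ∈ W ↔ Sum.inr ⟨w, hw⟩ ∈ W' := by
      intro w hw
      constructor
      · intro h
        rw [Finset.mem_map] at h
        obtain ⟨w', h', rfl⟩ := h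
        exact Finset.mem_toRight.1 h'
      · intro h
        exact Finset.mem_map.2 ⟨⟨w, hw⟩, Finset.mem_toRight.2 h, rfl⟩
    by_cases h0 : W'.toLeft.Nonempty
    · obtain ⟨k, hk⟩ := h0
      rw [Finset.mem_toLeft] at hk
      have hf : factors e' W' = factors S.e (insert u W) := by
        ext i
        unfold factors
        rw [Finset.mem_filter, Finset.mem_filter]
        refine and_congr_right fun _ => ?_
        constructor
        · rintro ⟨v | w, hv, hv'⟩
          · refine ⟨u, Finset.mem_insert_self _ _, ?_⟩
            have hv'' : (if i = j then 2 else S.e u i) ≠ 0 := hv'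
            by_cases hij : i = j
            · rw [hij, huj]
              norm_num
            · rwa [if_neg hij] at hv''
          · exact ⟨w.1, Finset.mem_insert_of_mem ((hmW w.1 w.2).2 hv), hv'⟩
        · rintro ⟨v, hv, hv'⟩
          rw [Finset.mem_insert] at hv
          by_cases hvu : v = u
          · subst hvu
            refine ⟨Sum.inl k, hk, ?_⟩
            show (if i = j then 2 else S.e v i) ≠ 0
            by_cases hij : i = j
            · rw [if_pos hij]
              norm_num
            · rwa [if_neg hij]
          · exact ⟨Sum.inr ⟨v, hvu⟩, (hmW v hvu).1 (hv.resolve_left hvu), hv'⟩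
      have h1 := hS.two_le (insert u W) (Finset.insert_nonempty _ _)
      rw [Finset.card_insert_of_notMem huW] at h1
      rw [hf]
      omega
    · rw [Finset.not_nonempty_iff_eq_empty] at h0
      have hf : factors e' W' = factors S.e W := by
        ext i
        unfold factors
        rw [Finset.mem_filter, Finset.mem_filter]
        refine and_congr_right fun _ => ?_
        constructor
        · rintro ⟨v | w, hv, hv'⟩
          · have h2 : v ∈ W'.toLeft := Finset.mem_toLeft.2 hv
            rw [h0] at h2
            exact absurd h2 (Finset.notMem_empty _)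
          · exact ⟨w.1, (hmW w.1 w.2).2 hv, hv'⟩
        · rintro ⟨v, hv, hv'⟩
          have hvu : v ≠ u := fun h => huW (h ▸ hv)
          exact ⟨Sum.inr ⟨v, hvu⟩, (hmW v hvu).1 hv, hv'⟩
      rw [hf, hc, h0, Finset.card_empty, zero_add, ← hWc]
      rcases W.eq_empty_or_nonempty with hW | hW
      · rw [hW, Finset.card_empty]
        exact Nat.zero_le _
      · have h1 := hS.two_le W hW
        omega
  obtain ⟨f, hf, hfb, hfe⟩ := exists_match_plain S.fac b hb e' hnum
  obtain ⟨x, hx, hx'⟩ := exists_zero_of_match S.fac b hb e' G' hG' f hf hfb hfe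
  have hd : ∀ k ∈ coords S.fac j, aeval x (pderiv k (S.F u)) = 0 := fun k hk => hx' (Sum.inl ⟨k, hk⟩)
  refine ⟨x, ⟨hx, fun v => ?_⟩, hd⟩
  by_cases hv : v = u
  · subst hv
    have h1 := Sing_euler (S.hF v) j x hd
    rw [huj] at h1
    have h3 : ((3 : ℕ) : ℂ) ≠ 0 := by norm_num
    exact (mul_eq_zero.1 h1).resolve_left h3
  · exact hx' (Sum.inr ⟨v, hv⟩)

end

end Pool.Agent.MP_cfacaa_ag.G
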