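import Pool.Agent.Lib.MP_cfacaa_ag.G.Line
import Pool.Agent.Lib.MP_cfacaa_ag.G.Sing
import Pool.Agent.Lib.MP_cfacaa_ag.G.CubC

/-! Row cga-MainA: nonnegative coefficients. -/

namespace Pool.Agent.MP_cfacaa_ag.G

section

variable {V I E : Type} [Fintype V] [Fintype I] [Fintype E]

/-- Unless `a` is a projective line and `F u` of degree `2` in it with `c {u} = 2`, `d a` is nonnegative. Let `n = dim S.fac a`. By `nonneg_of_regular` we may assume that there is `u` with `e u a = n + 1` and
`∑ i ∈ factors {u}, dim i ≤ 3`, so `= 3` (`two_le`). So `n ≤ 3`. `n = 3`: the only factor in `F u` is `a`, contradiction to `linked`. `n = 2`: there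
is one more factor `l`, of dimension `1`, in `F u`; by `linked` `e u l = 1`; `exists_sing`, `exists_curve_of_sing`, `nonneg_of_curve`. `n = 1` is excluded. -/
theorem nonneg_of_not_line (S : Sys V I E) (hS : S.Wide) {d : E → ℤ} (hd : NonnegOnCurves S d) (a : E)
    (ha : ¬ ∃ u, (coords S.fac a).card = 2 ∧ S.e u a = 2 ∧ ∑ i ∈ factors S.e {u}, dim S.fac i = 3) : 0 ≤ d a := by
  classical
  by_cases h : ∀ u, S.e u a = dim S.fac a + 1 → 4 ≤ ∑ j ∈ factors S.e {u}, dim S.fac j
  · exact nonneg_of_regular hS hd a h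
  push Not at h
  obtain ⟨u, hu, hlt⟩ := h
  have hmem : ∀ i, i ∈ factors S.e {u} ↔ S.e u i ≠ 0 := by
    intro i
    unfold factors
    simp
  have hdim : ∀ i, (coords S.fac i).card = dim S.fac i + 1 := by
    intro i
    have := S.two i
    unfold dim
    omega
  have hpos : ∀ i, 1 ≤ dim S.fac i := by
    intro i
    have := S.two i
    unfold dim
    omega
  have hle := hS.two_le {u} (Finset.singleton_nonempty u)
  rw [Finset.card_singleton] at hle
  have hsum : ∑ i ∈ factors S.e {u}, dim S.fac i = 3 := by omega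
  have hamem : a ∈ factors S.e {u} := (hmem a).mpr (by omega)
  obtain ⟨j, huj, hjlt⟩ := hS.linked u hsum
  have hja : j ≠ a := by
    rintro rfl
    rw [hdim] at hjlt
    omega
  have hjmem : j ∈ (factors S.e {u}).erase a := Finset.mem_erase.mpr ⟨hja, (hmem j).mpr huj⟩
  have e1 := Finset.add_sum_erase (factors S.e {u}) (fun i => dim S.fac i) hamem
  have e2 := Finset.add_sum_erase ((factors S.e {u}).erase a) (fun i => dim S.fac i) hjmem
  have p1 := hpos a
  have p2 := hpos j
  have h1 : dim S.fac a ≠ 1 := by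
    intro h1
    exact ha ⟨u, by rw [hdim, h1], by omega, hsum⟩
  have h2 : dim S.fac a = 2 := by omega
  have h3 : dim S.fac j = 1 := by omega
  have h4 : ∑ i ∈ ((factors S.e {u}).erase a).erase j, dim S.fac i = 0 := by omega
  have h5 : ∀ i, i ≠ a → i ≠ j → S.e u i = 0 := by
    intro i hia hij
    by_contra hne
    have h6 : i ∈ ((factors S.e {u}).erase a).erase j :=
      Finset.mem_erase.mpr ⟨hij, Finset.mem_erase.mpr ⟨hia, (hmem i).mpr hne⟩⟩
    have h7 := Finset.sum_eq_zero_iff.mp h4 i h6
    have h8 := hpos i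
    omega
  have h6 : S.e u j = 1 := by
    rw [hdim] at hjlt
    omega
  obtain ⟨x, hx, hxd⟩ := exists_sing S hS (u := u) (j := a) (l := j) hja.symm (by rw [hdim, h2]) (by rw [hdim, h3])
    (by rw [hu, h2]) h6 h5
  obtain ⟨C, hC, hC'⟩ := exists_curve_of_sing S (u := u) (j := a) (by rw [hdim, h2]) (by rw [hu, h2]) hx hxd
  exact nonneg_of_curve hd C hC hC'

end

end Pool.Agent.MP_cfacaa_ag.G
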