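import Pool.Agent.Lib.MP_cfacaa_ag.G.LE

/-! Row cga-Plain: existence of common zeros. -/

namespace Pool.Agent.MP_cfacaa_ag.G

open MvPolynomial

/-- Add a dummy factor with two coordinates, which occurs in no equation: `I' = I ⊕ Fin 2`, `E' = Option E`, `fac' = Sum.elim (some ∘ fac) (fun _ => none)`,
`i₀ = none`, `b none = inr 0`, `b' = inr 1`, `e' q = (·.elim 0 (e q))`, `G' q = rename inl (G q)` (`isMH_rename_inl`), and apply `exists_line_of_match`; the rows are the pairs `(q, 0)`,
matched with `inl (inl (f q))`. -/
theorem exists_zero_of_match {V I E : Type} [Fintype V] [Fintype I] [Fintype E] (fac : I → E) (b : E → I)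
    (hb : ∀ j, fac (b j) = j) (e : V → E → ℕ) (G : V → MvPolynomial I ℂ) (hG : ∀ q, IsMH fac (e q) (G q))
    (f : V → I) (hf : Function.Injective f) (hfb : ∀ q, f q ≠ b (fac (f q))) (hfe : ∀ q, e q (fac (f q)) ≠ 0) :
    ∃ x : I → ℂ, (∀ j, ∃ k, fac k = j ∧ x k ≠ 0) ∧ ∀ q, aeval x (G q) = 0 := by
  classical
  set fac' : I ⊕ Fin 2 → Option E :=
    fun k : I ⊕ Fin 2 => Sum.elim (fun k => some (fac k)) (fun _ => none) k with hfac'
  set bb : Option E → I ⊕ Fin 2 := fun j => j.elim (Sum.inr 0) (fun j => Sum.inl (b j)) with hbb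
  set e' : V → Option E → ℕ := fun q j => j.elim 0 (e q) with he'
  have h0 : ∀ q, e' q none = 0 := fun q => rfl
  obtain ⟨P, Q, hN, hPQ⟩ := exists_line_of_match fac' none bb (Sum.inr 1)
    (by
      rintro (_ | j)
      · rfl
      · simp [hfac', hbb, hb])
    rfl (by simp [hbb]) e' (fun q => rename Sum.inl (G q)) (fun q => isMH_rename_inl (hG q))
    (fun p => Sum.inl (Sum.inl (f p.1)))
    { inj := by
        rintro ⟨q, r⟩ ⟨q', r'⟩ h
        have h1 : f q = f q' := by simpa using h
        have h2 := hf h1
        subst h2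
        have h3 : r = r' := Fin.ext (by
          have h4 := r.2
          have h5 := r'.2
          have h6 := h0 q
          omega)
        rw [h3]
      eta := by
        rintro p k h hk
        obtain rfl : Sum.inl (f p.1) = k := by simpa using h
        refine ⟨?_, ?_⟩
        · simp only [hfac', hbb, Sum.elim_inl, Option.elim_some]
          intro h2
          exact hfb p.1 (Sum.inl_injective h2)
        · simp only [hfac', he', Sum.elim_inl, Option.elim_some]
          exact hfe p.1
      alpha := by
        rintro p k h hk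
        obtain rfl : Sum.inl (f p.1) = k := by simpa using h
        simp [hfac'] at hk
      beta := by
        rintro p k h
        simp at h }
  refine ⟨fun k => P (Sum.inl k), ?_, ?_⟩
  · intro j
    obtain ⟨b1, b2, hb1, -, hP, -⟩ := hN
    have h1 := hb1 (some j)
    have h2 := hP (some j)
    rcases hc : b1 (some j) with k | k
    · rw [hc] at h1 h2
      refine ⟨k, ?_, ?_⟩
      · simpa [hfac'] using h1
      · show P (Sum.inl k) ≠ 0
        rw [h2]
        exact one_ne_zero
    · rw [hc] at h1
      simp [hfac'] at h1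
  · intro q
    have h1 := hPQ q 0 0
    rw [aeval_rename] at h1
    rw [← h1]
    congr 2
    funext k
    simp [ln, hfac']

end Pool.Agent.MP_cfacaa_ag.G
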