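import Pool.Agent.Lib.MP_cfacaa_ag.G.Chart

/-! Row cga-RedA: normalisation of a line with respect to a valuation ring. -/

namespace Pool.Agent.MP_cfacaa_ag.G

private theorem RedA_quot {L : Type} [Field L] (A : ValuationSubring L) {x y : L} (hy : y ≠ 0)
    (h : A.valuation x ≤ A.valuation y) : x / y ∈ A := by
  rw [← A.valuation_le_one_iff, map_div₀]
  have hy' : A.valuation y ≠ 0 := (Valuation.ne_zero_iff _).2 hy
  have hy'' : 0 < A.valuation y := zero_lt_iff.2 hy'
  exact (div_le_one₀ hy'').2 h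

private theorem RedA_max {ι L : Type} [Fintype ι] [Field L] (A : ValuationSubring L) (p : ι → Prop) (F : ι → L)
    (h : ∃ x, p x ∧ F x ≠ 0) : ∃ x, p x ∧ F x ≠ 0 ∧ ∀ y, p y → A.valuation (F y) ≤ A.valuation (F x) := by
  classical
  obtain ⟨x0, hx0, hF0⟩ := h
  obtain ⟨x, hx, hmax⟩ := Finset.exists_max_image (Finset.univ.filter p) (fun x => A.valuation (F x))
    ⟨x0, Finset.mem_filter.2 ⟨Finset.mem_univ _, hx0⟩⟩
  refine ⟨x, (Finset.mem_filter.1 hx).2, ?_, fun y hy => hmax y (Finset.mem_filter.2 ⟨Finset.mem_univ _, hy⟩)⟩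
  intro h0
  have h1 := hmax x0 (Finset.mem_filter.2 ⟨Finset.mem_univ _, hx0⟩)
  simp only [h0, map_zero] at h1
  exact hF0 ((Valuation.zero_iff _).1 (le_antisymm h1 zero_le))

/-- For `j ≠ i₀` let `b j` be a coordinate of the factor `j` with the maximal valuation of `P k`, `mu j = (P (b j))⁻¹`, `P' k = mu j * P k`. For `i₀` let
`m k l = P k * Q l - P l * Q k` and let `(b i₀, b') = (k, l)` be the pair with the maximal valuation of `m k l` (not zero); put `P' j = m j l / m k l`, `Q' j = m k j / m k l`,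
`mu i₀ = 1`. Then `s P' j + t Q' j = s' P j + t' Q j` with `s' = (s Q l - t Q k) / m k l`, `t' = (t P k - s P l) / m k l`. Outside `i₀` put `Q' = 0`. (`I` is finite: `Finset.exists_max_image`;
`A.valuation_le_one_iff`.) -/
theorem normalise {I E L : Type} [Fintype I] [Field L] (A : ValuationSubring L) (fac : I → E) (i₀ : E) (P Q : I → L)
    (hP : ∀ j, j ≠ i₀ → ∃ k, fac k = j ∧ P k ≠ 0)
    (hPQ : ∃ k l, fac k = i₀ ∧ fac l = i₀ ∧ P k * Q l - P l * Q k ≠ 0) :
    ∃ (P' Q' : I → L) (mu : E → L), (∀ k, P' k ∈ A) ∧ (∀ k, Q' k ∈ A) ∧ Nrm fac i₀ P' Q' ∧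
      ∀ s t, ∃ s' t', ∀ k, ln fac i₀ P' Q' s t k = mu (fac k) * ln fac i₀ P Q s' t' k := by
  classical
  have hb : ∀ j, ∃ k, j ≠ i₀ → (fac k = j ∧ P k ≠ 0 ∧ ∀ y, fac y = j → A.valuation (P y) ≤ A.valuation (P k)) := by
    intro j
    by_cases hj : j = i₀
    · obtain ⟨k, _⟩ := hPQ
      exact ⟨k, fun h => absurd hj h⟩
    · obtain ⟨k, h1⟩ := RedA_max A (fun k => fac k = j) P (hP j hj)
      exact ⟨k, fun _ => h1⟩
  choose b hb using hb
  obtain ⟨k0, l0, hk0, hl0, hm0⟩ := hPQ
  obtain ⟨⟨k, l⟩, ⟨hk, hl⟩, hm, hmax⟩ := RedA_max A (fun z : I × I => fac z.1 = i₀ ∧ fac z.2 = i₀)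
    (fun z => P z.1 * Q z.2 - P z.2 * Q z.1) ⟨(k0, l0), ⟨hk0, hl0⟩, hm0⟩
  simp only at hk hl hm hmax
  refine ⟨fun x => if fac x = i₀ then (P x * Q l - P l * Q x) / (P k * Q l - P l * Q k) else P x / P (b (fac x)),
    fun x => if fac x = i₀ then (P k * Q x - P x * Q k) / (P k * Q l - P l * Q k) else 0,
    fun j => if j = i₀ then 1 else (P (b j))⁻¹, ?_, ?_, ?_, ?_⟩
  · intro x
    by_cases hx : fac x = i₀
    · simp only [if_pos hx]
      exact RedA_quot A hm (hmax (x, l) ⟨hx, hl⟩)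
    · simp only [if_neg hx]
      obtain ⟨_, h2, h3⟩ := hb (fac x) hx
      exact RedA_quot A h2 (h3 x rfl)
  · intro x
    by_cases hx : fac x = i₀
    · simp only [if_pos hx]
      exact RedA_quot A hm (hmax (k, x) ⟨hk, hx⟩)
    · simp only [if_neg hx]
      exact A.zero_mem
  · refine ⟨fun j => if j = i₀ then k else b j, l, ?_, hl, ?_, ?_, ?_, ?_⟩
    · intro j
      by_cases hj : j = i₀
      · simp only [if_pos hj]
        rw [hk, hj]
      · simp only [if_neg hj]
        exact (hb j hj).1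
    · intro j
      by_cases hj : j = i₀
      · simp only [if_pos hj, if_pos hk]
        exact div_self hm
      · obtain ⟨h1, h2, _⟩ := hb j hj
        have h4 : fac (b j) ≠ i₀ := by
          rw [h1]
          exact hj
        simp only [if_neg hj, if_neg h4]
        rw [h1]
        exact div_self h2
    · simp only [if_true, if_pos hk]
      rw [sub_self, zero_div]
    · simp only [if_pos hl]
      rw [sub_self, zero_div]
    · simp only [if_pos hl]
      exact div_self hm
  · intro s t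
    refine ⟨(s * Q l - t * Q k) / (P k * Q l - P l * Q k), (t * P k - s * P l) / (P k * Q l - P l * Q k), ?_⟩
    intro x
    by_cases hx : fac x = i₀
    · simp only [ln, if_pos hx, one_mul]
      rw [mul_div_assoc', mul_div_assoc', ← add_div, div_mul_eq_mul_div, div_mul_eq_mul_div, ← add_div]
      congr 1
      ring
    · simp only [ln, if_neg hx]
      rw [div_eq_mul_inv, mul_comm]

end Pool.Agent.MP_cfacaa_ag.G
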