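import Pool.Agent.Lib.MP_cfacaa_ag.G.Sub

/-! Row cga-Val: values of multihomogeneous polynomials. (Adapt `Pool/Agent/Lib/MP_cfacaa_ag/Val.lean`.) -/

namespace Pool.Agent.MP_cfacaa_ag.G

open MvPolynomial

section

variable {I E K R : Type} [Fintype I] [Fintype E] [CommRing K] [CommRing R] [Algebra K R]

theorem aeval_smul_all {fac : I → E} {e : E → ℕ} {P : MvPolynomial I K} (hP : IsMH fac e P) (x : I → R) (lam : E → R) :
    aeval (fun k => lam (fac k) * x k) P = (∏ i, lam i ^ e i) * aeval x P := by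
  rw [aeval_eq_sum fac, aeval_eq_sum fac, Finset.mul_sum]
  refine Finset.sum_congr rfl fun m hm => ?_
  have h1 : ∏ i, ∏ k ∈ coords fac i, (lam (fac k) * x k) ^ m k
      = (∏ i, lam i ^ e i) * ∏ i, ∏ k ∈ coords fac i, x k ^ m k := by
    rw [← Finset.prod_mul_distrib]
    refine Finset.prod_congr rfl fun i _ => ?_
    rw [← hP m hm i, ← Finset.prod_pow_eq_pow_sum, ← Finset.prod_mul_distrib]
    refine Finset.prod_congr rfl fun k hk => ?_
    rw [mul_pow, mem_coords.1 hk]
  rw [h1]
  ring

/-- a polynomial of degree `0` in the factor `a` -/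
theorem aeval_indep {fac : I → E} {e : E → ℕ} {P : MvPolynomial I K} (hP : IsMH fac e P) {a : E} (h : e a = 0)
    {x y : I → R} (hxy : ∀ k, fac k ≠ a → x k = y k) : aeval x P = aeval y P := by
  rw [aeval_eq_sum fac, aeval_eq_sum fac]
  refine Finset.sum_congr rfl fun m hm => ?_
  congr 1
  refine Finset.prod_congr rfl fun i _ => Finset.prod_congr rfl fun k hk => ?_
  by_cases hi : i = a
  · have h1 := hP m hm i
    rw [hi, h] at h1
    have h2 : m k = 0 := (Finset.sum_eq_zero_iff.1 h1) k (hi ▸ hk)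
    rw [h2, pow_zero, pow_zero]
  · rw [hxy k (by rw [mem_coords.1 hk]; exact hi)]

private theorem Val_split [DecidableEq I] (P : MvPolynomial I K) {k₀ k₁ : I} (hk : k₀ ≠ k₁) (x : I → R) (X Y : R) :
    aeval (Function.update (Function.update x k₀ X) k₁ Y) P =
      ∑ m ∈ P.support, algebraMap K R (P.coeff m) * ((X ^ m k₀ * Y ^ m k₁) *
        ∏ k ∈ (Finset.univ.erase k₀).erase k₁, x k ^ m k) := by
  rw [aeval_def, eval₂_eq']
  refine Finset.sum_congr rfl fun m _ => ?_
  congr 1
  rw [← Finset.mul_prod_erase Finset.univ _ (Finset.mem_univ k₀),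
    ← Finset.mul_prod_erase (Finset.univ.erase k₀) _ (Finset.mem_erase.2 ⟨hk.symm, Finset.mem_univ k₁⟩),
    Function.update_of_ne hk, Function.update_self, Function.update_self, ← mul_assoc]
  congr 1
  refine Finset.prod_congr rfl fun k hk' => ?_
  rw [Function.update_of_ne (Finset.ne_of_mem_erase hk'),
    Function.update_of_ne (Finset.ne_of_mem_erase (Finset.mem_of_mem_erase hk'))]

/-- a polynomial of degree `2` in the factor `a` with two coordinates `k₀`, `k₁` is a binary quadratic form -/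
theorem aeval_quad [DecidableEq I] {fac : I → E} {e : E → ℕ} {P : MvPolynomial I K} (hP : IsMH fac e P) {a : E} (h : e a = 2)
    {k₀ k₁ : I} (hk : k₀ ≠ k₁) (hc : coords fac a = {k₀, k₁}) (x : I → R) (X Y : R) :
    aeval (Function.update (Function.update x k₀ X) k₁ Y) P =
      aeval (Function.update (Function.update x k₀ 1) k₁ 0) P * X ^ 2 +
        (aeval (Function.update (Function.update x k₀ 1) k₁ 1) P - aeval (Function.update (Function.update x k₀ 1) k₁ 0) P -
          aeval (Function.update (Function.update x k₀ 0) k₁ 1) P) * (X * Y) +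
        aeval (Function.update (Function.update x k₀ 0) k₁ 1) P * Y ^ 2 := by
  rw [Val_split P hk, Val_split P hk, Val_split P hk, Val_split P hk, ← Finset.sum_sub_distrib,
    ← Finset.sum_sub_distrib, Finset.sum_mul, Finset.sum_mul, Finset.sum_mul, ← Finset.sum_add_distrib,
    ← Finset.sum_add_distrib]
  refine Finset.sum_congr rfl fun m hm => ?_
  have h1 := hP m hm a
  rw [h, hc, Finset.sum_pair hk] at h1
  obtain ⟨h2, h3⟩ | ⟨h2, h3⟩ | ⟨h2, h3⟩ : (m k₀ = 2 ∧ m k₁ = 0) ∨ (m k₀ = 1 ∧ m k₁ = 1) ∨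
      (m k₀ = 0 ∧ m k₁ = 2) := by omega
  · rw [h2, h3]
    ring
  · rw [h2, h3]
    ring
  · rw [h2, h3]
    ring

end

section

variable {I E : Type} [Fintype I] [Fintype E]

theorem eval_aeval (t : ℂ) (c : I → Polynomial ℂ) (P : MvPolynomial I ℂ) :
    (aeval c P).eval t = aeval (fun k => (c k).eval t) P := by
  have h := comp_aeval_apply c (Polynomial.aeval t : Polynomial ℂ →ₐ[ℂ] ℂ) P
  simpa [Polynomial.coe_aeval_eq_eval] using h

theorem natDegree_aeval_le {fac : I → E} {e : E → ℕ} {P : MvPolynomial I ℂ} (hP : IsMH fac e P) (c : I → Polynomial ℂ)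
    (δ : E → ℕ) (hc : ∀ k, (c k).natDegree ≤ δ (fac k)) : (aeval c P).natDegree ≤ ∑ i, e i * δ i := by
  rw [aeval_eq_sum fac]
  refine Polynomial.natDegree_sum_le_of_forall_le _ _ fun m hm => ?_
  refine Polynomial.natDegree_mul_le.trans ?_
  rw [← Polynomial.C_eq_algebraMap, Polynomial.natDegree_C, zero_add]
  refine (Polynomial.natDegree_prod_le _ _).trans ?_
  refine Finset.sum_le_sum fun i _ => ?_
  refine (Polynomial.natDegree_prod_le _ _).trans ?_
  rw [← hP m hm i, Finset.sum_mul]
  refine Finset.sum_le_sum fun k hk => ?_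
  refine Polynomial.natDegree_pow_le.trans (Nat.mul_le_mul_left _ ?_)
  exact (hc k).trans (le_of_eq (by rw [mem_coords.1 hk]))

private theorem Val_coeff_prod {ι : Type} (s : Finset ι) (f : ι → Polynomial ℂ) (n : ι → ℕ)
    (hf : ∀ i ∈ s, (f i).natDegree ≤ n i) : (∏ i ∈ s, f i).coeff (∑ i ∈ s, n i) = ∏ i ∈ s, (f i).coeff (n i) := by
  classical
  induction s using Finset.induction_on with
  | empty => simp
  | insert a s ha ih =>
    have hs : ∀ i ∈ s, (f i).natDegree ≤ n i := fun i hi => hf i (Finset.mem_insert_of_mem hi)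
    rw [Finset.prod_insert ha, Finset.sum_insert ha, Finset.prod_insert ha, ← ih hs]
    refine Polynomial.coeff_mul_add_eq_of_natDegree_le (hf a (Finset.mem_insert_self a s)) ?_
    exact (Polynomial.natDegree_prod_le _ _).trans (Finset.sum_le_sum fun i hi => hs i hi)

/-- the leading coefficient is the value at the point at infinity -/
theorem coeff_aeval {fac : I → E} {e : E → ℕ} {P : MvPolynomial I ℂ} (hP : IsMH fac e P) (c : I → Polynomial ℂ)
    (δ : E → ℕ) (hc : ∀ k, (c k).natDegree ≤ δ (fac k)) :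
    (aeval c P).coeff (∑ i, e i * δ i) = aeval (fun k => (c k).coeff (δ (fac k))) P := by
  rw [aeval_eq_sum fac, aeval_eq_sum fac, Polynomial.finsetSum_coeff]
  refine Finset.sum_congr rfl fun m hm => ?_
  have hk : ∀ i, ∀ k ∈ coords fac i, (c k ^ m k).natDegree ≤ m k * δ i := fun i k hk =>
    Polynomial.natDegree_pow_le.trans (Nat.mul_le_mul_left _ ((hc k).trans (le_of_eq (by rw [mem_coords.1 hk]))))
  have hsum : ∀ i, ∑ k ∈ coords fac i, m k * δ i = e i * δ i := fun i => by
    rw [← Finset.sum_mul, hP m hm i]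
  rw [← Polynomial.C_eq_algebraMap, Polynomial.coeff_C_mul, Val_coeff_prod Finset.univ _ (fun i => e i * δ i)]
  · congr 1
    refine Finset.prod_congr rfl fun i _ => ?_
    rw [← hsum i, Val_coeff_prod _ _ _ (hk i)]
    refine Finset.prod_congr rfl fun k hk' => ?_
    rw [Polynomial.coeff_pow_of_natDegree_le ((hc k).trans (le_of_eq (by rw [mem_coords.1 hk']))),
      mem_coords.1 hk']
  · intro i _
    rw [← hsum i]
    exact (Polynomial.natDegree_prod_le _ _).trans (Finset.sum_le_sum fun k hk' => hk i k hk')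

end

end Pool.Agent.MP_cfacaa_ag.G
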