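import Pool.Agent.Lib.MP_cfacaa_ag.G.RedA
import Pool.Agent.Lib.MP_cfacaa_ag.G.NS
import Pool.Agent.Lib.MP_cfacaa_ag.G.Val

/-! Row cga-RedB: descent of lines to an algebraically closed field. -/

namespace Pool.Agent.MP_cfacaa_ag.G

open MvPolynomial

/-- the universal point of a line with the parameters `(s, t)` -/
private noncomputable def RedB_u {I E K : Type} [CommRing K] (fac : I → E) (i₀ : E) (s t : K) : I → MvPolynomial (I ⊕ I) K :=
  ln fac i₀ (fun k => X (Sum.inl k)) (fun k => X (Sum.inr k)) (C s) (C t)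

private theorem RedB_aeval {I E K F : Type} [CommRing K] [CommRing F] [Algebra K F] (fac : I → E) (i₀ : E) (s t : K)
    (G : MvPolynomial I K) (z : I ⊕ I → F) :
    aeval z (aeval (RedB_u fac i₀ s t) G) =
      aeval (ln fac i₀ (fun k => z (Sum.inl k)) (fun k => z (Sum.inr k)) (algebraMap K F s) (algebraMap K F t)) G := by
  have h : (aeval z : MvPolynomial (I ⊕ I) K →ₐ[K] F).comp (aeval (RedB_u fac i₀ s t)) =
      aeval (ln fac i₀ (fun k => z (Sum.inl k)) (fun k => z (Sum.inr k)) (algebraMap K F s) (algebraMap K F t)) := by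
    apply MvPolynomial.algHom_ext
    intro k
    rw [AlgHom.comp_apply, aeval_X, aeval_X]
    unfold RedB_u ln
    split
    · rw [map_add, map_mul, map_mul, aeval_X, aeval_X, aeval_C, aeval_C]
    · rw [aeval_X]
  exact DFunLike.congr_fun h G

/-- A normalised line over an extension field `F` of `K` on which the forms vanish gives one over `K`. (Unknowns `I ⊕ I`; the equations are
`G q (s P + t Q, P) = 0` for all `s t : K`, `P (b j) - 1 = 0`, `Q (b i₀) = 0`, `P b' = 0`, `Q b' - 1 = 0`; use `exists_zero_of_extension`.) -/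
theorem exists_line_of_extension {V I E K F : Type} [Finite I] [Field K] [IsAlgClosed K] [Field F] [Algebra K F]
    (fac : I → E) (i₀ : E) (G : V → MvPolynomial I K) (P Q : I → F) (h : Nrm fac i₀ P Q)
    (hG : ∀ q s t, aeval (ln fac i₀ P Q s t) (G q) = 0) :
    ∃ P' Q' : I → K, Nrm fac i₀ P' Q' ∧ ∀ q s t, aeval (ln fac i₀ P' Q' s t) (G q) = 0 := by
  obtain ⟨b, b', hb, hb', hP, hQ, hP', hQ'⟩ := h
  obtain ⟨y, hy⟩ := exists_zero_of_extension (σ := I ⊕ I) (K := K) (F := F)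
    ({p | ∃ q s t, p = aeval (RedB_u fac i₀ s t) (G q)} ∪ ({p | ∃ j, p = X (Sum.inl (b j)) - 1} ∪
      {X (Sum.inr (b i₀)), X (Sum.inl b'), X (Sum.inr b') - 1})) (Sum.elim P Q) (by
    rintro p (⟨q, s, t, rfl⟩ | ⟨j, rfl⟩ | rfl | rfl | rfl)
    · rw [RedB_aeval]
      exact hG q _ _
    · rw [map_sub, aeval_X, map_one, Sum.elim_inl, hP, sub_self]
    · rw [aeval_X, Sum.elim_inr, hQ]
    · rw [aeval_X, Sum.elim_inl, hP']
    · rw [map_sub, aeval_X, map_one, Sum.elim_inr, hQ', sub_self])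
  refine ⟨fun k => y (Sum.inl k), fun k => y (Sum.inr k), ⟨b, b', hb, hb', fun j => ?_, ?_, ?_, ?_⟩, fun q s t => ?_⟩
  · have h := hy (X (Sum.inl (b j)) - 1) (Or.inr (Or.inl ⟨j, rfl⟩))
    rwa [map_sub, aeval_X, map_one, sub_eq_zero] at h
  · have h := hy (X (Sum.inr (b i₀))) (Or.inr (Or.inr (Or.inl rfl)))
    rwa [aeval_X] at h
  · have h := hy (X (Sum.inl b')) (Or.inr (Or.inr (Or.inr (Or.inl rfl))))
    rwa [aeval_X] at h
  · have h := hy (X (Sum.inr b') - 1) (Or.inr (Or.inr (Or.inr (Or.inr rfl))))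
    rwa [map_sub, aeval_X, map_one, sub_eq_zero] at h
  · have h := hy (aeval (RedB_u fac i₀ s t) (G q)) (Or.inl ⟨q, s, t, rfl⟩)
    rw [RedB_aeval] at h
    exact h

end Pool.Agent.MP_cfacaa_ag.G
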