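import Mathlib

/-! Row cga-RhoA: vectors in general position. -/

namespace Pool.Agent.MP_cfacaa_ag.G

open Classical in
/-- the position of `k` in `κ` -/
private noncomputable def RhoA_pos {I : Type} (κ : Finset I) (k : I) : ℕ :=
  if h : k ∈ κ then (κ.equivFin ⟨k, h⟩ : ℕ) else 0

private theorem RhoA_sum {I : Type} (κ : Finset I) (g : ℕ → ℂ) :
    ∑ k ∈ κ, g (RhoA_pos κ k) = ∑ i ∈ Finset.range κ.card, g i := by
  rw [← Finset.sum_coe_sort, Finset.sum_range, ← Equiv.sum_comp κ.equivFin]
  refine Finset.sum_congr rfl fun x _ => ?_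
  unfold RhoA_pos
  rw [dif_pos x.2]

/-- A finite family of vectors `v j : I → ℂ` such that the restrictions to `κ` of any at most `|κ|` of them have independent
coordinates: every system `∑ k ∈ κ, v j k * a k = w j`, `j ∈ T`, `|T| ≤ |κ|`, has a solution. (Vandermonde: `v j k = τ j ^ (position of k in κ)` with an
injective `τ`; enlarge `T` to a square system or solve with fewer coordinates; interpolation, `Lagrange.interpolate`, also works: a polynomial of
degree `< |T| ≤ |κ|` with the values `w j` at `τ j`, its coefficients are the `a k`.) -/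
theorem exists_general {J I : Type} [Fintype J] (κ : Finset I) :
    ∃ v : J → I → ℂ, ∀ T : Finset J, T.card ≤ κ.card → ∀ w : J → ℂ, ∃ a : I → ℂ,
      ∀ j ∈ T, ∑ k ∈ κ, v j k * a k = w j := by
  classical
  let τ : J → ℂ := fun j => ((Fintype.equivFin J j : ℕ) : ℂ)
  have hτ : Function.Injective τ := by
    intro i j hij
    have h1 : (Fintype.equivFin J i : ℕ) = (Fintype.equivFin J j : ℕ) := Nat.cast_injective hij
    exact (Fintype.equivFin J).injective (Fin.ext h1)
  refine ⟨fun j k => τ j ^ RhoA_pos κ k, fun T hT w => ?_⟩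
  let p := Lagrange.interpolate T τ w
  refine ⟨fun k => p.coeff (RhoA_pos κ k), fun j hj => ?_⟩
  have hpos : 0 < κ.card := lt_of_lt_of_le (Finset.card_pos.2 ⟨j, hj⟩) hT
  have hdeg : p.natDegree < κ.card := by
    by_cases hp : p = 0
    · rw [hp, Polynomial.natDegree_zero]
      exact hpos
    · rw [Polynomial.natDegree_lt_iff_degree_lt hp]
      exact lt_of_lt_of_le (Lagrange.degree_interpolate_lt w hτ.injOn) (by exact_mod_cast hT)
  have heval : p.eval (τ j) = w j := Lagrange.eval_interpolate_at_node w hτ.injOn hj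
  rw [← heval, Polynomial.eval_eq_sum_range' hdeg, ← RhoA_sum κ fun i => p.coeff i * τ j ^ i]
  exact Finset.sum_congr rfl fun k _ => mul_comm _ _

end Pool.Agent.MP_cfacaa_ag.G
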