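import Pool.Agent.Lib.MP_cfacaa_ag.G.Inv

/-! Row cga-Sec: sections and the involution. (Adapt `Pool/Agent/Lib/MP_cfacaa_ag/Sec.lean`.) -/

namespace Pool.Agent.MP_cfacaa_ag.G

open MvPolynomial

section

variable {V I E : Type} [Fintype V] [Fintype I] [Fintype E] [DecidableEq I] [DecidableEq E]

omit [Fintype V] [Fintype I] [DecidableEq I] in
theorem sec_sum (a : E) (p w : E → ℕ) (k : E) :
    ∑ i, p i * (if i = a then w else Pi.single i 1) k = p a * w k + if k = a then 0 else p k := by
  have h : ∀ i, p i * (if i = a then w else Pi.single i 1) k =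
      (if i = a then p a * w k else 0) + (if i = k then (if k = a then 0 else p k) else 0) := by
    intro i
    by_cases hi : i = a
    · subst hi
      by_cases hk : i = k
      · subst hk
        simp
      · simp [hk]
    · by_cases hk : i = k
      · subst hk
        simp [hi]
      · simp [hi, hk, Ne.symm hk]
  rw [Finset.sum_congr rfl fun i _ => h i, Finset.sum_add_distrib]
  simp

/-- the coefficients of `F u` as polynomials -/
noncomputable def secCoef (S : Sys V I E) (u : V) (k₀ k₁ : I) (x y : ℂ) : MvPolynomial I ℂ :=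
  aeval (Function.update (Function.update (fun k => (X k : MvPolynomial I ℂ)) k₀ (C x)) k₁ (C y)) (S.F u)

theorem sec_comp (y : I → ℂ) (φ : I → MvPolynomial I ℂ) (P : MvPolynomial I ℂ) :
    aeval y (aeval φ P) = aeval (fun k => aeval y (φ k)) P := by
  rw [comp_aeval_apply]

theorem sec_update (y : I → ℂ) (k₀ k₁ : I) (φ₀ φ₁ : MvPolynomial I ℂ) :
    (fun k => aeval y (Function.update (Function.update (fun k => (X k : MvPolynomial I ℂ)) k₀ φ₀) k₁ φ₁ k)) =
      Function.update (Function.update y k₀ (aeval y φ₀)) k₁ (aeval y φ₁) := by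
  funext k
  by_cases h1 : k = k₁
  · subst h1
    simp only [Function.update_self]
  · rw [Function.update_of_ne h1, Function.update_of_ne h1]
    by_cases h0 : k = k₀
    · subst h0
      simp only [Function.update_self]
    · rw [Function.update_of_ne h0, Function.update_of_ne h0, aeval_X]

theorem secCoef_val (S : Sys V I E) (u : V) (k₀ k₁ : I) (x x' : ℂ) (y : I → ℂ) :
    aeval y (secCoef S u k₀ k₁ x x') = aeval (Function.update (Function.update y k₀ x) k₁ x') (S.F u) := by
  unfold secCoef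
  rw [sec_comp, sec_update]
  simp

theorem sec_fac {S : Sys V I E} {a : E} {k₀ k₁ : I} (hc : coords S.fac a = {k₀, k₁}) (k : I) :
    S.fac k = a ↔ k = k₀ ∨ k = k₁ := by
  rw [← mem_coords, hc, Finset.mem_insert, Finset.mem_singleton]

theorem sec_mh {S : Sys V I E} {a : E} {k₀ k₁ : I}
    (hc : coords S.fac a = {k₀, k₁}) (w : E → ℕ) (φ₀ φ₁ : MvPolynomial I ℂ)
    (h₀ : IsMH S.fac w φ₀) (h₁ : IsMH S.fac w φ₁) {p : E → ℕ} {P : MvPolynomial I ℂ} (hP : IsMH S.fac p P) :
    IsMH S.fac (fun k => p a * w k + if k = a then 0 else p k)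
      (aeval (Function.update (Function.update (fun k => (X k : MvPolynomial I ℂ)) k₀ φ₀) k₁ φ₁) P) := by
  have h := IsMH.subst hP S.fac (Function.update (Function.update (fun k => (X k : MvPolynomial I ℂ)) k₀ φ₀) k₁ φ₁)
    (fun i => if i = a then w else Pi.single i 1) (fun k => by
      by_cases hk1 : k = k₁
      · subst hk1
        rw [if_pos ((sec_fac hc k).2 (Or.inr rfl)), Function.update_self]
        exact h₁
      · by_cases hk0 : k = k₀
        · subst hk0
          rw [if_pos ((sec_fac hc k).2 (Or.inl rfl)), Function.update_of_ne hk1, Function.update_self]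
          exact h₀
        · rw [if_neg (fun h' => ((sec_fac hc k).1 h').elim hk0 hk1), Function.update_of_ne hk1,
            Function.update_of_ne hk0]
          exact isMH_X S.fac k)
  have e : (fun k => ∑ i, p i * (if i = a then w else Pi.single i 1 : E → ℕ) k) =
      fun k => p a * w k + if k = a then 0 else p k := by
    funext k
    rw [sec_sum]
  rw [e] at h
  exact h

theorem secCoef_mh (S : Sys V I E) (u : V) {a : E} {k₀ k₁ : I} (hc : coords S.fac a = {k₀, k₁}) (x y : ℂ) :
    IsMH S.fac (fun k => if k = a then 0 else S.e u k) (secCoef S u k₀ k₁ x y) := by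
  have h := sec_mh hc (fun _ => 0) (C x) (C y) (isMH_C _ _) (isMH_C _ _) (S.hF u)
  have e : (fun k => S.e u a * 0 + if k = a then 0 else S.e u k) = fun k => if k = a then 0 else S.e u k := by
    funext k
    simp
  rw [e] at h
  exact h

theorem sec_aux {S : Sys V I E} {u : V} {a : E} (ha : S.e u a = 2) {k₀ k₁ : I} (hk : k₀ ≠ k₁)
    (hc : coords S.fac a = {k₀, k₁}) (h0 : NoZero S u k₀ k₁) {d : E → ℤ}
    {s : (I → ℂ) → ℂ} (hs : IsSection S (refl S u a d) s) (τ : I) (hτ : S.fac τ = a)
    (φ₀ φ₁ : MvPolynomial I ℂ)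
    (hφ₀ : IsMH S.fac (fun k => if k = a then 1 else S.e u k) φ₀)
    (hφ₁ : IsMH S.fac (fun k => if k = a then 1 else S.e u k) φ₁)
    (hinv : ∀ y ∈ S.cone, y τ ≠ 0 →
      inv S u k₀ k₁ y = Function.update (Function.update y k₀ ((y τ ^ 2)⁻¹ * aeval y φ₀)) k₁
        ((y τ ^ 2)⁻¹ * aeval y φ₁))
    {x : I → ℂ} (hx : x ∈ S.cone) (hxa : x τ ≠ 0) :
    ∃ (p q : E → ℕ) (P Q : MvPolynomial I ℂ), IsMH S.fac p P ∧ IsMH S.fac q Q ∧
      (∀ i, (p i : ℤ) - q i = d i) ∧ aeval x Q ≠ 0 ∧
      ∀ y ∈ S.cone, aeval y Q ≠ 0 → s (inv S u k₀ k₁ y) * aeval y Q = aeval y P := by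
  obtain ⟨p, q, P, Q, hP, hQ, hpq, hxQ, hsPQ⟩ := hs _ (inv_mem_cone ha hk hc h0 hx)
  -- the substitution
  obtain ⟨φ, hφd⟩ : ∃ φ : I → MvPolynomial I ℂ,
    φ = Function.update (Function.update (fun k => (X k : MvPolynomial I ℂ)) k₀ φ₀) k₁ φ₁ := ⟨_, rfl⟩
  have hmh : ∀ {p : E → ℕ} {P : MvPolynomial I ℂ}, IsMH S.fac p P →
      IsMH S.fac (fun k => p a * (if k = a then 1 else S.e u k) + if k = a then 0 else p k)
        (aeval φ P) := by
    intro p P hP
    rw [hφd]
    exact sec_mh hc _ φ₀ φ₁ hφ₀ hφ₁ hP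
  have hval : ∀ {p : E → ℕ} {P : MvPolynomial I ℂ}, IsMH S.fac p P →
      ∀ y ∈ S.cone, y τ ≠ 0 → aeval y (aeval φ P) = y τ ^ (2 * p a) * aeval (inv S u k₀ k₁ y) P := by
    intro p P hP y hy hya
    have hz := aeval_smul_all hP (Function.update (Function.update y k₀ (aeval y φ₀)) k₁ (aeval y φ₁))
      (fun i => if i = a then (y τ ^ 2)⁻¹ else 1)
    have e1 : (fun k => (if S.fac k = a then (y τ ^ 2)⁻¹ else 1) *
        Function.update (Function.update y k₀ (aeval y φ₀)) k₁ (aeval y φ₁) k) = inv S u k₀ k₁ y := by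
      rw [hinv y hy hya]
      funext k
      by_cases hk1 : k = k₁
      · subst hk1
        rw [if_pos ((sec_fac hc k).2 (Or.inr rfl)), Function.update_self, Function.update_self]
      · by_cases hk0 : k = k₀
        · subst hk0
          rw [if_pos ((sec_fac hc k).2 (Or.inl rfl)), Function.update_of_ne hk1, Function.update_of_ne hk1,
            Function.update_self, Function.update_self]
        · rw [if_neg (fun h' => ((sec_fac hc k).1 h').elim hk0 hk1), Function.update_of_ne hk1,
            Function.update_of_ne hk1, Function.update_of_ne hk0, Function.update_of_ne hk0, one_mul]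
    have e2 : (∏ i, (if i = a then (y τ ^ 2)⁻¹ else 1) ^ p i) = ((y τ ^ 2)⁻¹) ^ p a := by
      rw [Finset.prod_eq_single a]
      · rw [if_pos rfl]
      · intro i _ hi
        rw [if_neg hi, one_pow]
      · intro h
        exact absurd (Finset.mem_univ a) h
    rw [e1, e2] at hz
    rw [sec_comp, hφd, sec_update, hz, ← mul_assoc, pow_mul, ← mul_pow,
      mul_inv_cancel₀ (pow_ne_zero 2 hya), one_pow, one_mul]
  have hvX : ∀ (y : I → ℂ) (n : ℕ),
      aeval y ((X τ : MvPolynomial I ℂ) ^ n) = y τ ^ n := by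
    intro y n
    simp
  have hX : ∀ n, IsMH S.fac (fun i => n * (Pi.single a 1 : E → ℕ) i) ((X τ : MvPolynomial I ℂ) ^ n) := by
    intro n
    have := (isMH_X (K := ℂ) S.fac τ).pow n
    rw [hτ] at this
    exact this
  refine ⟨_, _, aeval φ P * X τ ^ (2 * q a + 2), aeval φ Q * X τ ^ (2 * p a + 2),
    (hmh hP).mul (hX _), (hmh hQ).mul (hX _), ?_, ?_, ?_⟩
  · intro k
    have hk := hpq k
    have hka := hpq a
    unfold refl at hk hka
    by_cases hka' : k = a
    · subst hka'
      simp only [if_true, Pi.single_eq_same] at hk ⊢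
      push_cast
      linarith
    · simp only [if_neg hka', if_true, Pi.single_eq_of_ne hka', mul_zero, add_zero] at hk hka ⊢
      push_cast
      linear_combination hk + (S.e u k : ℤ) * hka
  · rw [map_mul, hvX, hval hQ x hx hxa]
    exact mul_ne_zero (mul_ne_zero (pow_ne_zero _ hxa) hxQ) (pow_ne_zero _ hxa)
  · intro y hy hyQ
    rw [map_mul, hvX] at hyQ
    have hya : y τ ≠ 0 := by
      intro h
      apply hyQ
      rw [h, zero_pow (by omega), mul_zero]
    rw [hval hQ y hy hya] at hyQ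
    have hyQ' : aeval (inv S u k₀ k₁ y) Q ≠ 0 := by
      intro h
      apply hyQ
      rw [h]
      ring
    have hmain := hsPQ _ (inv_mem_cone ha hk hc h0 hy) hyQ'
    rw [map_mul, hvX, hval hQ y hy hya, map_mul, hvX, hval hP y hy hya, ← hmain]
    ring

theorem isSection_comp_inv {S : Sys V I E} {u : V} {a : E} (ha : S.e u a = 2) {k₀ k₁ : I} (hk : k₀ ≠ k₁)
    (hc : coords S.fac a = {k₀, k₁}) (h0 : NoZero S u k₀ k₁) {d : E → ℤ}
    {s : (I → ℂ) → ℂ} (hs : IsSection S (refl S u a d) s) : IsSection S d (fun x => s (inv S u k₀ k₁ x)) := by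
  have hf0 : S.fac k₀ = a := (sec_fac hc k₀).2 (Or.inl rfl)
  have hf1 : S.fac k₁ = a := (sec_fac hc k₁).2 (Or.inr rfl)
  -- multidegrees
  have hmul : ∀ (P : MvPolynomial I ℂ) (τ : I), S.fac τ = a →
      IsMH S.fac (fun k => if k = a then 0 else S.e u k) P →
      IsMH S.fac (fun k => if k = a then 1 else S.e u k) (P * X τ) := by
    intro P τ hτ hP
    have h := hP.mul (isMH_X S.fac τ)
    rw [hτ] at h
    have e : (fun i => (if i = a then 0 else S.e u i) + (Pi.single a 1 : E → ℕ) i) =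
        fun k => if k = a then 1 else S.e u k := by
      funext k
      by_cases hk : k = a
      · subst hk
        simp
      · simp [hk]
    rw [e] at h
    exact h
  have hA := secCoef_mh S u hc 1 0
  have hC := secCoef_mh S u hc 0 1
  have hB := ((secCoef_mh S u hc 1 1).sub hA).sub hC
  intro x hx
  by_cases hxa : x k₀ ≠ 0
  · refine sec_aux ha hk hc h0 hs k₀ hf0 (secCoef S u k₀ k₁ 0 1 * X k₀)
      (-((secCoef S u k₀ k₁ 1 1 - secCoef S u k₀ k₁ 1 0 - secCoef S u k₀ k₁ 0 1) * X k₀) -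
        secCoef S u k₀ k₁ 0 1 * X k₁) (hmul _ _ hf0 hC) (((hmul _ _ hf0 hB).neg).sub (hmul _ _ hf1 hC)) ?_ hx hxa
    intro y hy hya
    rw [inv_of_ne_zero S u k₀ k₁ hya]
    simp only [map_mul, map_sub, map_neg, aeval_X, secCoef_val]
    congr 1
    ring
  · have hxa1 : x k₁ ≠ 0 := by
      intro h
      obtain ⟨k, hk', hxk⟩ := hx.1 a
      rcases (sec_fac hc k).1 hk' with rfl | rfl
      · exact hxa hxk
      · exact hxk h
    refine sec_aux ha hk hc h0 hs k₁ hf1 (-((secCoef S u k₀ k₁ 1 1 - secCoef S u k₀ k₁ 1 0 -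
      secCoef S u k₀ k₁ 0 1) * X k₁) - secCoef S u k₀ k₁ 1 0 * X k₀)
        (secCoef S u k₀ k₁ 1 0 * X k₁) (((hmul _ _ hf1 hB).neg).sub (hmul _ _ hf0 hA)) (hmul _ _ hf1 hA) ?_ hx hxa1
    intro y hy hya
    rw [inv_of_ne_zero' ha hk hc hy hya]
    simp only [map_mul, map_sub, map_neg, aeval_X, secCoef_val]
    congr 1
    congr 1
    ring

end

end Pool.Agent.MP_cfacaa_ag.G
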