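import Pool.Agent.Lib.MP_cfacaa_ag.G.Hom

/-! Row cga-Sub: substitution, derivatives, renaming. -/

namespace Pool.Agent.MP_cfacaa_ag.G

open MvPolynomial

section

variable {I E K : Type} [Fintype I] [Fintype E] [CommRing K]

omit [Fintype E] in
theorem Sub_coords [DecidableEq E] (fac : I → E) (i : E) : coords fac i = Finset.univ.filter fun k => fac k = i := by
  ext k
  rw [mem_coords, Finset.mem_filter]
  simp

/-- the terms of `aeval x P` -/
theorem aeval_eq_sum {R : Type} [CommRing R] [Algebra K R] (fac : I → E) (x : I → R) (P : MvPolynomial I K) :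
    aeval x P = ∑ m ∈ P.support, algebraMap K R (P.coeff m) * ∏ i, ∏ k ∈ coords fac i, x k ^ m k := by
  classical
  rw [aeval_def, eval₂_eq']
  apply Finset.sum_congr rfl
  intro m _
  congr 1
  simp only [Sub_coords]
  exact (Finset.prod_fiberwise Finset.univ fac fun k => x k ^ m k).symm

/-- Substitution of multihomogeneous polynomials, with an extension of the ring of coefficients. (Adapt `IsMH.subst` in
`Pool/Agent/Lib/MP_cfacaa_ag/Hom.lean`.) -/
theorem IsMH.subst {J E' L : Type} [Fintype J] [CommRing L] [Algebra K L] {fac : I → E} {e : E → ℕ} {P : MvPolynomial I K}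
    (hP : IsMH fac e P) (fac' : J → E') (φ : I → MvPolynomial J L) (D : E → E' → ℕ)
    (hφ : ∀ k, IsMH fac' (D (fac k)) (φ k)) : IsMH fac' (fun j => ∑ i, e i * D i j) (aeval φ P) := by
  rw [aeval_eq_sum fac φ P]
  apply IsMH.sum
  intro m hm
  have h1 : IsMH fac' (fun j => ∑ i, e i * D i j) (∏ i, ∏ k ∈ coords fac i, φ k ^ m k) := by
    apply IsMH.prod Finset.univ (e := fun i j => e i * D i j)
    intro i _
    have h2 := IsMH.prod (fac := fac') (coords fac i) (e := fun k j => m k * D (fac k) j) (P := fun k => φ k ^ m k)
      (fun k _ => (hφ k).pow (m k))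
    have h3 : (fun j => ∑ k ∈ coords fac i, m k * D (fac k) j) = fun j => e i * D i j := by
      funext j
      rw [← hP m hm i, Finset.sum_mul]
      refine Finset.sum_congr rfl fun k hk => ?_
      rw [mem_coords] at hk
      rw [hk]
    rwa [h3] at h2
  have h4 : algebraMap K (MvPolynomial J L) (P.coeff m) = C (algebraMap K L (P.coeff m)) := rfl
  rw [h4]
  have h5 := (isMH_C fac' (algebraMap K L (P.coeff m))).mul h1
  simpa using h5

/-- a derivative with respect to a coordinate of the factor `fac k` -/
theorem IsMH.pderiv {fac : I → E} {e e' : E → ℕ} {P : MvPolynomial I K} (hP : IsMH fac e P) (k : I)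
    (he : ∀ i, i ≠ fac k → e' i = e i) (he' : e (fac k) = e' (fac k) + 1) :
    IsMH fac e' (MvPolynomial.pderiv k P) := by
  classical
  have h0 : MvPolynomial.pderiv k P =
      ∑ m ∈ P.support, MvPolynomial.pderiv k (monomial m (P.coeff m)) := by
    conv_lhs => rw [P.as_sum]
    rw [map_sum]
  rw [h0]
  apply IsMH.sum
  intro m hm
  rw [pderiv_monomial]
  intro m' hm' i
  rw [mem_support_iff, coeff_monomial] at hm'
  by_cases h : m - Finsupp.single k 1 = m'
  swap
  · rw [if_neg h] at hm'
    exact absurd rfl hm'
  rw [if_pos h] at hm'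
  have hmk : m k ≠ 0 := by
    intro hc
    rw [hc, Nat.cast_zero, mul_zero] at hm'
    exact hm' rfl
  have h1 : m = m' + Finsupp.single k 1 := by
    rw [← h]
    refine (tsub_add_cancel_of_le ?_).symm
    rw [Finsupp.single_le_iff]
    omega
  have h2 := hP m hm i
  rw [h1] at h2
  simp only [Finsupp.add_apply, Finset.sum_add_distrib] at h2
  by_cases hi : i = fac k
  · have h3 : ∑ x ∈ coords fac i, (Finsupp.single k 1 : I →₀ ℕ) x = 1 := by
      rw [Finset.sum_eq_single k]
      · rw [Finsupp.single_eq_same]
      · intro b _ hb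
        rw [Finsupp.single_apply, if_neg (Ne.symm hb)]
      · intro hc
        exact absurd (mem_coords.2 hi.symm) hc
    rw [h3] at h2
    rw [hi] at h2 ⊢
    omega
  · have h3 : ∑ x ∈ coords fac i, (Finsupp.single k 1 : I →₀ ℕ) x = 0 := by
      apply Finset.sum_eq_zero
      intro b hb
      rw [mem_coords] at hb
      rw [Finsupp.single_apply, if_neg]
      rintro rfl
      exact hi hb.symm
    rw [h3, add_zero] at h2
    rw [h2, he i hi]

/-- adding a dummy factor `none` with two coordinates -/
theorem isMH_rename_inl {fac : I → E} {e : E → ℕ} {P : MvPolynomial I K} (hP : IsMH fac e P) :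
    IsMH (fun k : I ⊕ Fin 2 => Sum.elim (fun k => some (fac k)) (fun _ => none) k)
      (fun j : Option E => j.elim 0 e) (rename Sum.inl P) := by
  classical
  intro m hm j
  rw [support_rename_of_injective Sum.inl_injective, Finset.mem_image] at hm
  obtain ⟨m0, hm0, rfl⟩ := hm
  cases j with
  | none =>
    show _ = 0
    apply Finset.sum_eq_zero
    intro k hk
    rw [mem_coords] at hk
    cases k with
    | inl k => exact absurd hk (by simp)
    | inr a =>
      apply Finsupp.mapDomain_of_notMem_range
      rintro ⟨b, hb⟩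
      exact absurd hb (by simp)
  | some i =>
    show _ = e i
    rw [← hP m0 hm0 i]
    refine (Finset.sum_bij (fun k _ => Sum.inl k) ?_ ?_ ?_ ?_).symm
    · intro k hk
      rw [mem_coords] at hk ⊢
      exact congrArg some hk
    · intro a _ b _ hab
      exact Sum.inl.inj hab
    · intro k hk
      rw [mem_coords] at hk
      cases k with
      | inl k => exact ⟨k, mem_coords.2 (Option.some.inj hk), rfl⟩
      | inr a => exact absurd hk (by simp)
    · intro k _
      rw [Finsupp.mapDomain_apply Sum.inl_injective]

end

end Pool.Agent.MP_cfacaa_ag.G
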